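import Mathlib
import Pool.Agent.Lib.MP_ca2859_nt.Defs

/-!
# Uniform Szpiro-type bounds in genus one and in genus `g`
-/

open Polynomial WithZero IsDedekindDomain NumberField

namespace Pool.Agent.Lib.MP_ca2859_nt.GR

section local_defs
variable {F : Type*} [Field F]

/-- The Weierstrass equation `y² + a₁xy + a₃y = x³ + a₂x² + a₄x + a₆` is `v`-integral. -/
def IntegralE (v : Valuation F ℤᵐ⁰) (W : WeierstrassCurve F) : Prop :=
  v W.a₁ ≤ 1 ∧ v W.a₂ ≤ 1 ∧ v W.a₃ ≤ 1 ∧ v W.a₄ ≤ 1 ∧ v W.a₆ ≤ 1

/-- The exponent at `v` of the minimal discriminant of the elliptic curve `W`: the minimum of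
`v(Δ)` over all `v`-integral Weierstrass equations of the curve (those obtained from `W` by the
admissible changes of variables over the base field). -/
noncomputable def minDiscExpE (v : Valuation F ℤᵐ⁰) (W : WeierstrassCurve F) : ℕ :=
  sInf {k : ℕ | ∃ C : WeierstrassCurve.VariableChange F, IntegralE v (C • W) ∧
    v (C • W).Δ = exp (-(k : ℤ))}

end local_defs

section global_defs
variable {K : Type} [Field K] [NumberField K]

/-- the exponent at the finite place `v` of the minimal discriminant of the elliptic curve `W`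
over the number field `K`. -/
noncomputable def discExpE (W : WeierstrassCurve K) (v : HeightOneSpectrum (𝓞 K)) : ℕ :=
  minDiscExpE (v.valuation K) W

/-- `Δ_E`, the norm of the minimal discriminant of an elliptic curve over `K`. -/
noncomputable def DeltaE (W : WeierstrassCurve K) : ℕ :=
  ∏ᶠ v : HeightOneSpectrum (𝓞 K), Ideal.absNorm v.asIdeal ^ discExpE W v

/-- `M_E`, the product of the `N_v` over the finite places `v` of bad reduction. -/
noncomputable def ME (W : WeierstrassCurve K) : ℕ :=
  ∏ᶠ v : HeightOneSpectrum (𝓞 K), if discExpE W v = 0 then 1 else Ideal.absNorm v.asIdeal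

end global_defs

/-- Szpiro's conjecture with exponent `κ`, uniformly in all number fields of degree at most `D`:
`Δ_E ≤ c (|D_K| M_E) ^ κ` for all elliptic curves `E` over all these fields `K`. -/
def SzpiroUniform (D κ : ℕ) : Prop :=
  ∃ c : ℕ, ∀ (K : Type) [Field K] [NumberField K], Module.finrank ℚ K ≤ D →
    ∀ W : WeierstrassCurve K, W.Δ ≠ 0 → DeltaE W ≤ c * ((discr K).natAbs * ME W) ^ κ

/-- The bound of the problem in genus `g` with exponent `κ`, uniformly in all number fields of
degree at most `D`: `Δ_C ≤ c (|D_K| M_C) ^ κ` for all hyperelliptic curves `C` of genus `g` over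
all these fields `K`. -/
def HyperUniform (g D κ : ℕ) : Prop :=
  ∃ c : ℕ, ∀ (K : Type) [Field K] [NumberField K], Module.finrank ℚ K ≤ D →
    ∀ f : K[X], IsHyperelliptic g f → DeltaC g f ≤ c * ((discr K).natAbs * MC g f) ^ κ

end Pool.Agent.Lib.MP_ca2859_nt.GR
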