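import Mathlib
import Pool.Agent.Lib.MP_ca2859_nt.GR.Defs
import Pool.Agent.Lib.MP_ca2859_nt.FinalD
import Pool.Agent.Lib.MP_ca2859_nt.AssD

/-!
# The hub: exponents of `λ` and `1 - λ`
-/

open Polynomial WithZero IsDedekindDomain NumberField

namespace Pool.Agent.Lib.MP_ca2859_nt.GR

/-- `|v(x)| + |v(1-x)|` -/
noncomputable def lamE {F : Type*} [Field F] (v : Valuation F ℤᵐ⁰) (x : F) : ℕ :=
  (ord v x).natAbs + (ord v (1 - x)).natAbs

section glob
variable {K : Type} [Field K] [NumberField K]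

/-- the product of the `N_v ^ (|v(x)| + |v(1-x)|)` -/
noncomputable def HL (x : K) : ℕ :=
  ∏ᶠ v : HeightOneSpectrum (𝓞 K), Ideal.absNorm v.asIdeal ^ lamE (v.valuation K) x

/-- the product of the `N_v` over the places with `v(x) ≠ 0` or `v(1-x) ≠ 0` -/
noncomputable def RL (x : K) : ℕ :=
  ∏ᶠ v : HeightOneSpectrum (𝓞 K), if lamE (v.valuation K) x = 0 then 1 else Ideal.absNorm v.asIdeal

/-- the trinomial `X ^ (2g+2) + a X ^ (g+1) + b` -/
noncomputable def tri {F : Type*} [Field F] (g : ℕ) (a b : F) : F[X] :=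
  X ^ (2 * g + 2) + C a * X ^ (g + 1) + C b

/-- the Legendre curve `y² = x (x - 1) (x - l)` -/
def Leg {F : Type*} [Field F] (l : F) : WeierstrassCurve F := ⟨0, -(1 + l), 0, l, 0⟩

end glob

/-- the hub statement -/
def LamUniform (D κ : ℕ) : Prop :=
  ∃ c : ℕ, ∀ (K : Type) [Field K] [NumberField K], Module.finrank ℚ K ≤ D →
    ∀ x : K, x ≠ 0 → x ≠ 1 → HL x ≤ c * ((discr K).natAbs * RL x) ^ κ

end Pool.Agent.Lib.MP_ca2859_nt.GR
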