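import Mathlib
import Pool.Agent.Lib.MP_ca2859_nt.GR.Hub

/-!
# E2: the places at which a cross ratio is not good
-/

set_option autoImplicit false

open Polynomial WithZero IsDedekindDomain NumberField

namespace Pool.Agent.Lib.MP_ca2859_nt.GR

/-- the cross ratio -/
noncomputable def crr {F : Type*} [Field F] {n : ℕ} (α : Fin n → F) (q : Fin n × Fin n × Fin n × Fin n) : F :=
  ((α q.1 - α q.2.1) * (α q.2.2.1 - α q.2.2.2)) / ((α q.1 - α q.2.2.1) * (α q.2.1 - α q.2.2.2))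

/-- the quadruples of distinct indices -/
def Quad (n : ℕ) : Finset (Fin n × Fin n × Fin n × Fin n) :=
  Finset.univ.filter fun q => q.1 ≠ q.2.1 ∧ q.1 ≠ q.2.2.1 ∧ q.1 ≠ q.2.2.2 ∧ q.2.1 ≠ q.2.2.1 ∧
    q.2.1 ≠ q.2.2.2 ∧ q.2.2.1 ≠ q.2.2.2

theorem E2_one_sub_crr {F : Type*} [Field F] {n : ℕ} (α : Fin n → F)
    (q : Fin n × Fin n × Fin n × Fin n) (h1 : α q.1 - α q.2.2.1 ≠ 0)
    (h2 : α q.2.1 - α q.2.2.2 ≠ 0) :
    1 - crr α q = ((α q.1 - α q.2.2.2) * (α q.2.1 - α q.2.2.1)) /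
      ((α q.1 - α q.2.2.1) * (α q.2.1 - α q.2.2.2)) := by
  rw [crr, eq_div_iff (mul_ne_zero h1 h2), sub_mul, div_mul_cancel₀ _ (mul_ne_zero h1 h2)]
  ring

theorem E2_crr_ne {F : Type*} [Field F] {n : ℕ} (α : Fin n → F) (hα : Function.Injective α)
    (q : Fin n × Fin n × Fin n × Fin n) (hq : q ∈ Quad n) : crr α q ≠ 0 ∧ crr α q ≠ 1 := by
  rw [Quad, Finset.mem_filter] at hq
  obtain ⟨-, h12, h13, h14, h23, h24, h34⟩ := hq
  have hs : ∀ i j, i ≠ j → α i - α j ≠ 0 := fun i j hij => sub_ne_zero.2 fun h => hij (hα h)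
  constructor
  · exact div_ne_zero (mul_ne_zero (hs _ _ h12) (hs _ _ h34)) (mul_ne_zero (hs _ _ h13) (hs _ _ h24))
  · intro h
    have h1 := E2_one_sub_crr α q (hs _ _ h13) (hs _ _ h24)
    rw [h, sub_self] at h1
    exact div_ne_zero (mul_ne_zero (hs _ _ h14) (hs _ _ h23))
      (mul_ne_zero (hs _ _ h13) (hs _ _ h24)) h1.symm

theorem E2_far_crr {L : Type*} [Field L] {w : Valuation L ℤᵐ⁰} {n : ℕ} {a : L} {α : Fin n → L}
    {c₁ α₀ ρ : L} (h : Far w a α c₁ α₀ ρ) (hα : Function.Injective α)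
    (q : Fin n × Fin n × Fin n × Fin n) (hq : q ∈ Quad n) :
    w (crr α q) = 1 ∧ w (1 - crr α q) = 1 := by
  rw [Quad, Finset.mem_filter] at hq
  obtain ⟨-, h12, h13, h14, h23, h24, h34⟩ := hq
  have hs : ∀ i j, i ≠ j → α i - α j ≠ 0 := fun i j hij => sub_ne_zero.2 fun h => hij (hα h)
  have hr : w ρ ≠ 0 := (Valuation.ne_zero_iff _).2 h.r0
  have e0 := umax_ne_zero (w := w) ((α q.1 - α₀) / ρ)
  have e1 := umax_ne_zero (w := w) ((α q.2.1 - α₀) / ρ)
  have e2 := umax_ne_zero (w := w) ((α q.2.2.1 - α₀) / ρ)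
  have e3 := umax_ne_zero (w := w) ((α q.2.2.2 - α₀) / ρ)
  constructor
  · rw [crr, map_div₀, map_mul, map_mul, h.dist _ _ h12, h.dist _ _ h34, h.dist _ _ h13,
      h.dist _ _ h24, div_eq_one_iff_eq]
    · ac_rfl
    · simp only [ne_eq, mul_eq_zero, hr, e0, e1, e2, e3, or_self, not_false_eq_true]
  · rw [E2_one_sub_crr α q (hs _ _ h13) (hs _ _ h24), map_div₀, map_mul, map_mul,
      h.dist _ _ h14, h.dist _ _ h23, h.dist _ _ h13, h.dist _ _ h24, div_eq_one_iff_eq]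
    · ac_rfl
    · simp only [ne_eq, mul_eq_zero, hr, e0, e1, e2, e3, or_self, not_false_eq_true]

theorem E2_lamE_zero {F : Type*} [Field F] {w : Valuation F ℤᵐ⁰} {x : F} (h1 : w x = 1)
    (h2 : w (1 - x) = 1) : lamE w x = 0 := by
  simp [lamE, ord, h1, h2]

section nf
variable {K : Type} [Field K] [NumberField K] {L : Type} [Field L] [NumberField L] [Algebra K L]

/-- the norms of the places above a set of places -/
theorem E2_prod_above_le (S : Finset (HeightOneSpectrum (𝓞 K)))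
    (T : Finset (HeightOneSpectrum (𝓞 L)))
    (hT : ∀ w ∈ T, ∃ v ∈ S, w.asIdeal.LiesOver v.asIdeal) :
    ∏ w ∈ T, Ideal.absNorm w.asIdeal ≤
      (∏ v ∈ S, Ideal.absNorm v.asIdeal) ^ Module.finrank K L := by
  classical
  set I : Ideal (𝓞 K) := ∏ v ∈ S, v.asIdeal with hI
  have hI0 : I ≠ ⊥ := by
    rw [hI, ← Ideal.zero_eq_bot]
    exact Finset.prod_ne_zero_iff.2 fun v _ => v.ne_bot
  have hinj : Set.InjOn (fun w : HeightOneSpectrum (𝓞 L) => w.asIdeal) (T : Set _) :=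
    fun w _ w' _ h => HeightOneSpectrum.ext h
  have hdvd : ∏ w ∈ T, w.asIdeal ∣ I.map (algebraMap (𝓞 K) (𝓞 L)) := by
    have h1 : ∏ w ∈ T, w.asIdeal = ∏ P ∈ T.image (fun w => w.asIdeal), P := by
      rw [Finset.prod_image hinj]
    rw [h1]
    apply Finset.prod_primes_dvd
    · intro P hP
      obtain ⟨w, -, rfl⟩ := Finset.mem_image.1 hP
      exact w.prime
    · intro P hP
      obtain ⟨w, hw, rfl⟩ := Finset.mem_image.1 hP
      obtain ⟨v, hv, hvw⟩ := hT w hw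
      rw [Ideal.dvd_iff_le]
      refine (Ideal.map_mono (Ideal.dvd_iff_le.1 (Finset.dvd_prod_of_mem _ hv))).trans ?_
      rw [Ideal.map_le_iff_le_comap]
      exact hvw.over.le
  have hfin : Module.finrank (𝓞 K) (𝓞 L) = Module.finrank K L :=
    (IsFractionRing.finrank_eq (𝓞 K) K (𝓞 L) L).symm
  have hN : Ideal.absNorm (I.map (algebraMap (𝓞 K) (𝓞 L))) =
      (∏ v ∈ S, Ideal.absNorm v.asIdeal) ^ Module.finrank K L := by
    rw [Ideal.absNorm_algebraMap, hfin, hI, map_prod]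
  rw [← hN, ← map_prod]
  apply Nat.le_of_dvd
  · apply Nat.pos_of_ne_zero
    rw [hN]
    apply pow_ne_zero
    exact Finset.prod_ne_zero_iff.2 fun v _ => by
      have := one_le_absNorm v
      omega
  · exact map_dvd _ hdvd

/-- E2: the places of `L` at which a cross ratio is not good. -/
theorem RL_cross_le (g : ℕ) (hg : 1 ≤ g) (f : K[X]) (hf : IsHyperelliptic g f)
    (hfd : f.natDegree = 2 * g + 2) (a : L) (ha : a ≠ 0) (α : Fin (2 * g + 2) → L)
    (hα : Function.Injective α) (hfα : f.map (algebraMap K L) = C a * ∏ j, (X - C (α j)))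
    (q : Fin (2 * g + 2) × Fin (2 * g + 2) × Fin (2 * g + 2) × Fin (2 * g + 2))
    (hq : q ∈ Quad (2 * g + 2)) :
    crr α q ≠ 0 ∧ crr α q ≠ 1 ∧
    RL (crr α q) ≤ (∏ v ∈ SB g f, Ideal.absNorm v.asIdeal) ^ Module.finrank K L := by
  classical
  obtain ⟨h0, h1⟩ := E2_crr_ne α hα q hq
  refine ⟨h0, h1, ?_⟩
  obtain ⟨S', hS', -⟩ := exists_above (L := L) (SB g f)
  set T : Finset (HeightOneSpectrum (𝓞 L)) :=
    S'.filter (fun w => ∃ v ∈ SB g f, w.asIdeal.LiesOver v.asIdeal) with hT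
  have hsub : ∀ w : HeightOneSpectrum (𝓞 L), w ∉ T → lamE (w.valuation L) (crr α q) = 0 := by
    intro w hw
    obtain ⟨v, hv⟩ := exists_place_below (K := K) w
    have hvS : v ∉ SB g f := by
      intro hvS
      apply hw
      rw [hT, Finset.mem_filter]
      exact ⟨hS' w ⟨v, hvS, hv⟩, v, hvS, hv⟩
    obtain ⟨h2, hn, hd⟩ := not_mem_SB g f hf v hvS
    obtain ⟨c₁, α₀, ρ, hfar⟩ := good_far g hg f hf v w hd h2 hn a ha α hfα
    obtain ⟨e1, e2⟩ := E2_far_crr hfar hα q hq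
    exact E2_lamE_zero e1 e2
  have hRL : RL (crr α q) ≤ ∏ w ∈ T, Ideal.absNorm w.asIdeal := by
    rw [RL, finprod_eq_prod_of_mulSupport_subset (s := T)]
    · apply Finset.prod_le_prod'
      intro w _
      split_ifs
      · exact one_le_absNorm w
      · exact le_rfl
    · intro w hw
      by_contra hwT
      apply hw
      simp [hsub w hwT]
  refine hRL.trans (E2_prod_above_le _ _ ?_)
  intro w hw
  rw [hT, Finset.mem_filter] at hw
  exact hw.2

end nf

end Pool.Agent.Lib.MP_ca2859_nt.GR
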