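import Mathlib
import Pool.Agent.Lib.MP_ca2859_nt.GR.Hub
import Pool.Agent.Lib.MP_ca2859_nt.CRStable3
import Pool.Agent.Lib.MP_ca2859_nt.CRGood3

/-!
# E1: the minimal discriminant is bounded by the cross ratios
-/

set_option autoImplicit false

open Polynomial WithZero IsDedekindDomain NumberField

namespace Pool.Agent.Lib.MP_ca2859_nt.GR

/-- a number field over `L` in which `gam⁻¹` is a square -/
theorem E1_field {L : Type} [Field L] [NumberField L] (c : L) (hc : c ≠ 0) :
    ∃ (L' : Type) (_ : Field L') (_ : NumberField L') (_ : Algebra L L') (e : L'),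
      e ^ 2 * algebraMap L L' c = 1 := by
  let Om := AlgebraicClosure L
  have hΓ : algebraMap L Om c ≠ 0 := by
    rw [Ne, map_eq_zero]; exact hc
  obtain ⟨e, he⟩ := IsAlgClosed.exists_pow_nat_eq (algebraMap L Om c)⁻¹ (n := 2) (by norm_num)
  have he' : e ^ 2 * algebraMap L Om c = 1 := by
    rw [he, inv_mul_cancel₀ hΓ]
  let L' := IntermediateField.adjoin L ({e} : Set Om)
  have hfin : FiniteDimensional L L' := IntermediateField.finiteDimensional_adjoin
    (fun x _ => (Algebra.IsAlgebraic.isAlgebraic x).isIntegral)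
  have hNF : NumberField L' := NumberField.of_module_finite L L'
  have hmem' : e ∈ L' := IntermediateField.subset_adjoin L _ (Set.mem_singleton e)
  refine ⟨L', inferInstance, hNF, inferInstance, ⟨e, hmem'⟩, ?_⟩
  apply (algebraMap L' Om).injective
  rw [map_mul, map_pow, map_one, ← IsScalarTower.algebraMap_apply L L' Om]
  exact he'

/-- the hypothesis on the cross ratios, for all indices -/
theorem E1_cross {F : Type*} [Field F] {w : Valuation F ℤᵐ⁰} {n : ℕ} (α : Fin n → F)
    (hα : Function.Injective α) (m : F) (hm1 : w m ≤ 1) (M : ℕ) (hm : w m = exp (-(M : ℤ)))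
    (hM : ∀ i j k l : Fin n, i ≠ j → i ≠ k → i ≠ l → j ≠ k → j ≠ l → k ≠ l →
      ord w ((α i - α k) * (α j - α l)) ≤ ord w ((α i - α j) * (α k - α l)) + M)
    (i j k l : Fin n) (hik : i ≠ k) (hjl : j ≠ l) :
    w m * w ((α i - α j) * (α k - α l)) ≤ w ((α i - α k) * (α j - α l)) := by
  have hs : ∀ a b, a ≠ b → α a - α b ≠ 0 := fun a b hab h => hab (hα (sub_eq_zero.1 h))
  by_cases hij : i = j
  · subst hij; simp
  by_cases hkl : k = l
  · subst hkl; simp
  by_cases hil : i = l
  · subst hil
    have h1 : (α i - α k) * (α j - α i) = (α i - α j) * (α k - α i) := by ring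
    rw [h1]
    calc w m * w ((α i - α j) * (α k - α i)) ≤ 1 * w ((α i - α j) * (α k - α i)) :=
          mul_le_mul' hm1 le_rfl
      _ = _ := one_mul _
  by_cases hjk : j = k
  · subst hjk
    calc w m * w ((α i - α j) * (α j - α l)) ≤ 1 * w ((α i - α j) * (α j - α l)) :=
          mul_le_mul' hm1 le_rfl
      _ = _ := one_mul _
  have h2 := hM i j k l hij hik hil hjk hjl hkl
  rw [hm, w_eq_exp (mul_ne_zero (hs _ _ hij) (hs _ _ hkl)),
    w_eq_exp (mul_ne_zero (hs _ _ hik) (hs _ _ hjl)), ← exp_add, exp_le_exp]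
  linarith

section nf
variable {K : Type} [Field K] [NumberField K] {L : Type} [Field L] [NumberField L] [Algebra K L]

/-- E1: the minimal discriminant is bounded by the cross ratios. -/
theorem disc_le_cross (g : ℕ) (hg : 1 ≤ g) (f : K[X]) (hf : IsHyperelliptic g f)
    (hfd : f.natDegree = 2 * g + 2)
    (v : HeightOneSpectrum (𝓞 K)) (w : HeightOneSpectrum (𝓞 L)) [w.asIdeal.LiesOver v.asIdeal]
    (a : L) (ha : a ≠ 0) (α : Fin (2 * g + 2) → L) (hα : Function.Injective α)
    (hfα : f.map (algebraMap K L) = C a * ∏ j, (X - C (α j))) (M : ℕ)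
    (hM : ∀ i j k l : Fin (2 * g + 2), i ≠ j → i ≠ k → i ≠ l → j ≠ k → j ≠ l → k ≠ l →
      ord (w.valuation L) ((α i - α k) * (α j - α l)) ≤
        ord (w.valuation L) ((α i - α j) * (α k - α l)) + M) :
    ((Ideal.ramificationIdx' v.asIdeal w.asIdeal : ℕ) : ℤ) * discExp g f v ≤
      (Ideal.ramificationIdx' v.asIdeal w.asIdeal : ℕ) * ((2 * g + 1) * (g + 3)) +
      (4 * g + 3) ^ 2 * ((Ideal.ramificationIdx' v.asIdeal w.asIdeal : ℕ) *
        (4 * g * ord (v.valuation K) (2 : K)) + 8 * g * (2 * g + 1) * M) +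
      (Ideal.ramificationIdx' v.asIdeal w.asIdeal : ℕ) *
        ord (v.valuation K) ((cst g : ℕ) : K) := by
  have h12 : (⟨0, by omega⟩ : Fin (2 * g + 1)) ≠ ⟨1, by omega⟩ := by
    intro h; exact absurd (congrArg Fin.val h) (by norm_num)
  obtain ⟨π, hπ⟩ := w.valuation_exists_uniformizer L
  have hπ0 : π ≠ 0 := by
    rintro rfl
    rw [map_zero] at hπ
    exact absurd hπ.symm (exp_ne_zero)
  have hm : w.valuation L (π ^ M) = exp (-(M : ℤ)) := by
    rw [map_pow, hπ, ← exp_nsmul]
    congr 1
    simp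
  have hm0 : π ^ M ≠ 0 := pow_ne_zero _ hπ0
  have hm1 : w.valuation L (π ^ M) ≤ 1 := by
    rw [hm, ← exp_zero, exp_le_exp]; omega
  have hcr := E1_cross α hα (π ^ M) hm1 M hm hM
  -- the field in which the constant is a square
  obtain ⟨L', _, _, _, e, he⟩ := E1_field
    (gam g a (π ^ M) α (⟨0, by omega⟩ : Fin (2 * g + 1)) ⟨1, by omega⟩)
    (gam_ne_zero g a (π ^ M) ha hm0 α hα _ _ h12)
  rw [gam_map] at he
  let algK : Algebra K L' := ((algebraMap L L').comp (algebraMap K L)).toAlgebra
  have htow : IsScalarTower K L L' := IsScalarTower.of_algebraMap_eq (fun _ => rfl)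
  obtain ⟨w', hw'⟩ := exists_place_above (K := L) (L := L') w
  have hwv : w'.asIdeal.LiesOver v.asIdeal := Ideal.LiesOver.trans w'.asIdeal w.asIdeal v.asIdeal
  set E := Ideal.ramificationIdx' v.asIdeal w.asIdeal with hE
  set q := Ideal.ramificationIdx' w.asIdeal w'.asIdeal with hq
  set E' := Ideal.ramificationIdx' v.asIdeal w'.asIdeal with hE'
  have hq0 : q ≠ 0 := Ideal.IsDedekindDomain.ramificationIdx'_ne_zero_of_liesOver w'.asIdeal w.ne_bot
  have hvw : ∀ x : K, w.valuation L (algebraMap K L x) = v.valuation K x ^ E := fun x =>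
    (HeightOneSpectrum.valuation_liesOver L v w x).symm
  have hww : ∀ x : L, w'.valuation L' (algebraMap L L' x) = w.valuation L x ^ q := fun x =>
    (HeightOneSpectrum.valuation_liesOver L' w w' x).symm
  have hvw' : ∀ x : K, w'.valuation L' (algebraMap K L' x) = v.valuation K x ^ E' := fun x =>
    (HeightOneSpectrum.valuation_liesOver L' v w' x).symm
  have hmul : E' = E * q := by
    obtain ⟨ϖ, hϖ⟩ := v.valuation_exists_uniformizer K
    have h1 := hvw' ϖ
    rw [IsScalarTower.algebraMap_apply K L L', hww, hvw, ← pow_mul, hϖ, ← exp_nsmul, ← exp_nsmul,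
      exp_inj] at h1
    simp only [smul_neg, nsmul_eq_mul, mul_one, neg_inj] at h1
    exact_mod_cast h1.symm
  -- the model upstairs
  have hα' : Function.Injective (fun j => algebraMap L L' (α j)) :=
    (algebraMap L L').injective.comp hα
  have hm1' : w'.valuation L' (algebraMap L L' (π ^ M)) ≤ 1 := by
    rw [hww]; exact pow_le_one' hm1 q
  have hm0' : algebraMap L L' (π ^ M) ≠ 0 := by
    rw [Ne, map_eq_zero]; exact hm0
  have hcr' : ∀ i j k l : Fin (2 * g + 1 + 1), i ≠ k → j ≠ l →
      w'.valuation L' (algebraMap L L' (π ^ M)) * w'.valuation L'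
        ((algebraMap L L' (α i) - algebraMap L L' (α j)) *
          (algebraMap L L' (α k) - algebraMap L L' (α l))) ≤
      w'.valuation L' ((algebraMap L L' (α i) - algebraMap L L' (α k)) *
          (algebraMap L L' (α j) - algebraMap L L' (α l))) := by
    intro i j k l hik hjl
    have h1 : (algebraMap L L' (α i) - algebraMap L L' (α j)) *
        (algebraMap L L' (α k) - algebraMap L L' (α l)) =
        algebraMap L L' ((α i - α j) * (α k - α l)) := by simp only [map_mul, map_sub]
    have h2 : (algebraMap L L' (α i) - algebraMap L L' (α k)) *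
        (algebraMap L L' (α j) - algebraMap L L' (α l)) =
        algebraMap L L' ((α i - α k) * (α j - α l)) := by simp only [map_mul, map_sub]
    rw [h1, h2, hww, hww, hww, ← mul_pow]
    exact pow_le_pow_left₀ zero_le (hcr i j k l hik hjl) q
  obtain ⟨P, hP1, hP2, hP3⟩ := exists_model_of_cross (w := w'.valuation L') g hg
    (algebraMap L L' (π ^ M)) hm0' hm1' (algebraMap L L' a) (fun j => algebraMap L L' (α j)) hα' hcr'
    _ _ h12 e he
  have hfα' : f.map (algebraMap K L') = C (algebraMap L L' a) *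
      ∏ j : Fin (2 * g + 1 + 1), (X - C (algebraMap L L' (α j))) := by
    have h1 : f.map (algebraMap K L') = (f.map (algebraMap K L)).map (algebraMap L L') := by
      rw [Polynomial.map_map, ← IsScalarTower.algebraMap_eq]
    rw [h1, hfα, Polynomial.map_mul, Polynomial.map_C, Polynomial.map_prod]
    congr 1
    apply Finset.prod_congr rfl
    intro j _
    rw [Polynomial.map_sub, Polynomial.map_X, Polynomial.map_C]
  rw [← hfα'] at hP1
  have hle1 : w'.valuation L' (eqDisc g (f0 P 0)) ≤ 1 := by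
    rw [f0_zero]
    exact eqDisc_le_one g hP1.intP
  have hord0 : 0 ≤ ord (w'.valuation L') (eqDisc g (f0 P 0)) := ord_nonneg hle1
  obtain ⟨k', hk'⟩ := Int.eq_ofNat_of_zero_le hord0
  have hn : discExp g (f.map (algebraMap K L')) w' ≤ k' := by
    apply minDiscExp_le
    refine ⟨P, 0, hP1, ?_⟩
    rw [w_eq_exp hP2, hk']
  have h20 : (2 : L') ^ (4 * g) ≠ 0 := pow_ne_zero _ two_ne_zero
  have hmp : (algebraMap L L' (π ^ M)) ^ (4 * ((2 * g + 1) * (2 * g))) ≠ 0 := pow_ne_zero _ hm0'
  have hordm : ord (w'.valuation L') (algebraMap L L' (π ^ M)) = q * M := by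
    rw [ord, hww, hm, log_pow, log_exp]
    simp
  have hord2 : ord (w'.valuation L') (2 : L') = E' * ord (v.valuation K) (2 : K) := by
    have h1 : (2 : L') = algebraMap K L' 2 := by rw [map_ofNat]
    rw [h1, ord, hvw', log_pow, ord]
    simp
  have hkZ : (k' : ℤ) ≤ 4 * g * (E' * ord (v.valuation K) (2 : K)) +
      (4 * ((2 * g + 1) * (2 * g))) * (q * M) := by
    rw [w_eq_exp (mul_ne_zero h20 hmp), w_eq_exp hP2, exp_le_exp, ord_mul h20 hmp, ord_pow, ord_pow,
      hordm, hord2, hk'] at hP3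
    push_cast at hP3
    linarith
  have hb := discExp_bound g hg f hf v w'
  rw [← hE'] at hb
  have hn' : (discExp g (f.map (algebraMap K L')) w' : ℤ) ≤
      4 * g * (E' * ord (v.valuation K) (2 : K)) + (4 * ((2 * g + 1) * (2 * g))) * (q * M) :=
    le_trans (by exact_mod_cast hn) hkZ
  have hqpos : (0 : ℤ) < q := by exact_mod_cast Nat.pos_of_ne_zero hq0
  have hEE : (E' : ℤ) = E * q := by rw [hmul]; push_cast; ring
  rw [hEE] at hb hn'
  have h9 : (0 : ℤ) ≤ (4 * g + 3) ^ 2 := by positivity
  have h10 := mul_le_mul_of_nonneg_left hn' h9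
  refine le_of_mul_le_mul_left ?_ hqpos
  calc (q : ℤ) * (E * discExp g f v) = E * q * discExp g f v := by ring
    _ ≤ _ := hb
    _ ≤ E * q * ((2 * g + 1) * (g + 3)) + (4 * g + 3) ^ 2 * (4 * g * (E * q * ord (v.valuation K) (2 : K)) +
          (4 * ((2 * g + 1) * (2 * g))) * (q * M)) + E * q * ord (v.valuation K) ((cst g : ℕ) : K) := by
        linarith
    _ = _ := by ring

end nf

end Pool.Agent.Lib.MP_ca2859_nt.GR
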