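import Mathlib
import Pool.Agent.Lib.MP_ca2859_nt.GR.Hub
import Pool.Agent.Lib.MP_ca2859_nt.GR.E1
import Pool.Agent.Lib.MP_ca2859_nt.GR.E2
import Pool.Agent.Lib.MP_ca2859_nt.CRGood3
import Pool.Agent.Lib.MP_ca2859_nt.SplitD

set_option autoImplicit false

/-!
# Piece E3: the global bound of the discriminant by the heights of the cross ratios
-/

open Polynomial WithZero IsDedekindDomain NumberField

namespace Pool.Agent.Lib.MP_ca2859_nt.GR

section nf
variable {K : Type} [Field K] [NumberField K] {L : Type} [Field L] [NumberField L] [Algebra K L]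

/-- norms grow in extensions -/
private theorem e3_norm_le (v : HeightOneSpectrum (𝓞 K)) (w : HeightOneSpectrum (𝓞 L))
    (hw : w.asIdeal.LiesOver v.asIdeal) : Ideal.absNorm v.asIdeal ≤ Ideal.absNorm w.asIdeal := by
  rw [Ideal.absNorm_apply, Ideal.absNorm_apply, Submodule.cardQuot_apply, Submodule.cardQuot_apply]
  have hfin : Finite (𝓞 L ⧸ w.asIdeal) := Ideal.finiteQuotientOfFreeOfNeBot _ w.ne_bot
  have h1 : v.asIdeal = w.asIdeal.comap (algebraMap (𝓞 K) (𝓞 L)) := hw.over
  exact Nat.card_le_card_of_injective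
    (Ideal.quotientMap w.asIdeal (algebraMap (𝓞 K) (𝓞 L)) h1.le)
    (Ideal.quotientMap_injective' h1.ge)

/-- the support of the height function is finite -/
private theorem e3_finite (x : L) (h0 : x ≠ 0) (h1 : x ≠ 1) :
    {w : HeightOneSpectrum (𝓞 L) | lamE (w.valuation L) x ≠ 0}.Finite := by
  refine ((finite_val_ne_one x h0).union (finite_val_ne_one (1 - x) (sub_ne_zero.2 h1.symm))).subset ?_
  intro w hw
  by_contra hcon
  simp only [Set.mem_union, Set.mem_ofPred_eq, not_or, not_not] at hcon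
  apply hw
  unfold lamE ord
  rw [hcon.1, hcon.2, log_one]
  simp

/-- finite products are bounded by the height -/
private theorem e3_prod_le (x : L) (h0 : x ≠ 0) (h1 : x ≠ 1) (T : Finset (HeightOneSpectrum (𝓞 L))) :
    ∏ w ∈ T, Ideal.absNorm w.asIdeal ^ lamE (w.valuation L) x ≤ HL x := by
  classical
  have hf := e3_finite x h0 h1
  unfold HL
  rw [finprod_eq_prod_of_mulSupport_subset (s := hf.toFinset ∪ T)]
  · apply Finset.prod_le_prod_of_subset_of_one_le' Finset.subset_union_right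
    intro w _ _
    exact Nat.one_le_pow _ _ (one_le_absNorm w)
  · intro w hw
    rw [Finset.coe_union]
    left
    rw [Finset.mem_coe, Set.Finite.mem_toFinset]
    intro hz
    exact hw (by simp [hz])

private theorem e3_crr {n : ℕ} (α : Fin n → L) (hα : Function.Injective α)
    (q : Fin n × Fin n × Fin n × Fin n) (hq : q ∈ Quad n) : crr α q ≠ 0 ∧ crr α q ≠ 1 := by
  obtain ⟨i, j, k, l⟩ := q
  simp only [Quad, Finset.mem_filter, Finset.mem_univ, true_and] at hq
  obtain ⟨hij, hik, hil, hjk, hjl, hkl⟩ := hq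
  have s : ∀ {x y : Fin n}, x ≠ y → α x - α y ≠ 0 := fun h => sub_ne_zero.2 fun he => h (hα he)
  have hd : (α i - α k) * (α j - α l) ≠ 0 := mul_ne_zero (s hik) (s hjl)
  constructor
  · exact div_ne_zero (mul_ne_zero (s hij) (s hkl)) hd
  · intro h
    simp only [crr] at h
    rw [div_eq_one_iff_eq hd] at h
    have h2 : (α i - α l) * (α j - α k) = 0 := by
      have : (α i - α l) * (α j - α k) =
          (α i - α k) * (α j - α l) - (α i - α j) * (α k - α l) := by ring
      rw [this, h, sub_self]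
    exact mul_ne_zero (s hil) (s hjk) h2

/-- the local bound at the place `v` -/
private theorem e3_local (g : ℕ) (hg : 1 ≤ g) (f : K[X]) (hf : IsHyperelliptic g f)
    (hfd : f.natDegree = 2 * g + 2) (v : HeightOneSpectrum (𝓞 K)) (w : HeightOneSpectrum (𝓞 L))
    (hw : w.asIdeal.LiesOver v.asIdeal) (a : L) (ha : a ≠ 0) (α : Fin (2 * g + 2) → L)
    (hα : Function.Injective α) (hfα : f.map (algebraMap K L) = C a * ∏ j, (X - C (α j))) :
    discExp g f v ≤ (2 * g + 1) * (g + 3) +
      cnt (2 ^ ((4 * g + 3) ^ 2 * (4 * g)) * cst g) v +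
      (4 * g + 3) ^ 2 * (8 * g * (2 * g + 1)) *
        ∑ q ∈ Quad (2 * g + 2), lamE (w.valuation L) (crr α q) := by
  set M : ℕ := ∑ q ∈ Quad (2 * g + 2), lamE (w.valuation L) (crr α q) with hM
  have s : ∀ {x y : Fin (2 * g + 2)}, x ≠ y → α x - α y ≠ 0 :=
    fun h => sub_ne_zero.2 fun he => h (hα he)
  have hcr : ∀ i j k l : Fin (2 * g + 2), i ≠ j → i ≠ k → i ≠ l → j ≠ k → j ≠ l → k ≠ l →
      ord (w.valuation L) ((α i - α k) * (α j - α l)) ≤
        ord (w.valuation L) ((α i - α j) * (α k - α l)) + M := by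
    intro i j k l hij hik hil hjk hjl hkl
    have hq : (i, j, k, l) ∈ Quad (2 * g + 2) := by
      simp only [Quad, Finset.mem_filter, Finset.mem_univ, true_and]
      exact ⟨hij, hik, hil, hjk, hjl, hkl⟩
    have h1 : lamE (w.valuation L) (crr α (i, j, k, l)) ≤ M :=
      Finset.single_le_sum (f := fun q => lamE (w.valuation L) (crr α q))
        (fun q _ => Nat.zero_le _) hq
    have h2 : ord (w.valuation L) (crr α (i, j, k, l)) =
        ord (w.valuation L) ((α i - α j) * (α k - α l)) -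
          ord (w.valuation L) ((α i - α k) * (α j - α l)) :=
      ord_div (mul_ne_zero (s hij) (s hkl)) (mul_ne_zero (s hik) (s hjl))
    have h3 : (ord (w.valuation L) (crr α (i, j, k, l))).natAbs ≤ M :=
      le_trans (Nat.le_add_right _ _) h1
    omega
  have h1 := disc_le_cross g hg f hf hfd v w a ha α hα hfα M hcr
  have he : 0 < Ideal.ramificationIdx' v.asIdeal w.asIdeal :=
    Nat.pos_of_ne_zero
      (Ideal.IsDedekindDomain.ramificationIdx'_ne_zero_of_liesOver w.asIdeal v.ne_bot)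
  set e : ℕ := Ideal.ramificationIdx' v.asIdeal w.asIdeal with hedef
  have hc : 0 < cst g := cst_pos g hg
  have hcnt : (cnt (2 ^ ((4 * g + 3) ^ 2 * (4 * g)) * cst g) v : ℤ) =
      (4 * g + 3) ^ 2 * (4 * g) * ord (v.valuation K) (2 : K) +
        ord (v.valuation K) ((cst g : ℕ) : K) := by
    rw [← ord_eq_cnt _ (by positivity) v]
    have h2 : (2 : K) ^ ((4 * g + 3) ^ 2 * (4 * g)) ≠ 0 := pow_ne_zero _ two_ne_zero
    have h3 : ((cst g : ℕ) : K) ≠ 0 := by exact_mod_cast hc.ne'
    rw [Nat.cast_mul, Nat.cast_pow, Nat.cast_ofNat, ord_mul h2 h3, ord_pow]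
    push_cast
    ring
  have he1 : (1 : ℤ) ≤ e := by exact_mod_cast he
  have hM0 : (0 : ℤ) ≤ M := Int.natCast_nonneg M
  have hfin : (discExp g f v : ℤ) ≤ (2 * g + 1) * (g + 3) +
      cnt (2 ^ ((4 * g + 3) ^ 2 * (4 * g)) * cst g) v +
      (4 * g + 3) ^ 2 * (8 * g * (2 * g + 1)) * M := by
    rw [hcnt]
    have h4 : (e : ℤ) * discExp g f v ≤ e * ((2 * g + 1) * (g + 3) +
      ((4 * g + 3) ^ 2 * (4 * g) * ord (v.valuation K) (2 : K) +
        ord (v.valuation K) ((cst g : ℕ) : K)) +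
      (4 * g + 3) ^ 2 * (8 * g * (2 * g + 1)) * M) := by
      have h5 : (4 * g + 3) ^ 2 * (8 * g * (2 * g + 1)) * (M : ℤ) ≤
          e * ((4 * g + 3) ^ 2 * (8 * g * (2 * g + 1)) * M) :=
        le_mul_of_one_le_left (by positivity) he1
      refine h1.trans ?_
      linarith
    exact le_of_mul_le_mul_left h4 (by linarith)
  exact_mod_cast hfin

/-- E3: the global bound. -/
theorem Delta_le_HL (g : ℕ) (hg : 1 ≤ g) (f : K[X]) (hf : IsHyperelliptic g f)
    (hfd : f.natDegree = 2 * g + 2) (a : L) (ha : a ≠ 0) (α : Fin (2 * g + 2) → L)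
    (hα : Function.Injective α) (hfα : f.map (algebraMap K L) = C a * ∏ j, (X - C (α j))) :
    DeltaC g f ≤ MC g f ^ ((2 * g + 1) * (g + 3)) *
      (2 ^ ((4 * g + 3) ^ 2 * (4 * g)) * cst g) ^ Module.finrank ℚ K *
      (∏ q ∈ Quad (2 * g + 2), HL (crr α q)) ^ ((4 * g + 3) ^ 2 * (8 * g * (2 * g + 1))) := by
  classical
  set S := (finite_bad g f hf).toFinset with hS
  have hD : DeltaC g f = ∏ v ∈ S, Ideal.absNorm v.asIdeal ^ discExp g f v := by
    rw [DeltaC, finprod_eq_prod_of_mulSupport_subset (s := S)]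
    intro v hv
    rw [hS, Finset.mem_coe, Set.Finite.mem_toFinset]
    intro h0
    exact hv (by simp [h0])
  have hMC : MC g f = ∏ v ∈ S, Ideal.absNorm v.asIdeal := MC_eq_prod g f hf
  have hch : ∀ v : HeightOneSpectrum (𝓞 K), ∃ w : HeightOneSpectrum (𝓞 L),
      w.asIdeal.LiesOver v.asIdeal := fun v => exists_place_above v
  choose W hW using hch
  have hWinj : Function.Injective W := by
    intro v v' h
    have h1 := (hW v).over
    have h2 := (hW v').over
    rw [h] at h1
    exact HeightOneSpectrum.ext (h1.trans h2.symm)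
  set A : ℕ := (2 * g + 1) * (g + 3) with hA
  set c : ℕ := 2 ^ ((4 * g + 3) ^ 2 * (4 * g)) * cst g with hc
  set b : ℕ := (4 * g + 3) ^ 2 * (8 * g * (2 * g + 1)) with hb
  have hc0 : 0 < c := by
    have := cst_pos g hg
    positivity
  rw [hD, hMC]
  have h1 : ∀ v ∈ S, Ideal.absNorm v.asIdeal ^ discExp g f v ≤
      Ideal.absNorm v.asIdeal ^ A * Ideal.absNorm v.asIdeal ^ cnt c v *
        (∏ q ∈ Quad (2 * g + 2),
          Ideal.absNorm (W v).asIdeal ^ lamE ((W v).valuation L) (crr α q)) ^ b := by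
    intro v _
    have h2 := e3_local g hg f hf hfd v (W v) (hW v) a ha α hα hfα
    refine (Nat.pow_le_pow_right (one_le_absNorm v) h2).trans ?_
    rw [pow_add, pow_add]
    refine Nat.mul_le_mul_left _ ?_
    rw [Finset.prod_pow_eq_pow_sum, ← pow_mul, mul_comm b]
    exact Nat.pow_le_pow_left (e3_norm_le v (W v) (hW v)) _
  refine (Finset.prod_le_prod' h1).trans ?_
  rw [Finset.prod_mul_distrib, Finset.prod_mul_distrib, Finset.prod_pow, Finset.prod_pow]
  refine Nat.mul_le_mul (Nat.mul_le_mul_left _ (prod_cnt_le c hc0 S)) (Nat.pow_le_pow_left ?_ b)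
  rw [Finset.prod_comm]
  refine Finset.prod_le_prod' fun q hq => ?_
  obtain ⟨hq0, hq1⟩ := e3_crr α hα q hq
  have h3 : ∏ v ∈ S, Ideal.absNorm (W v).asIdeal ^ lamE ((W v).valuation L) (crr α q) =
      ∏ w ∈ S.image W, Ideal.absNorm w.asIdeal ^ lamE (w.valuation L) (crr α q) := by
    rw [Finset.prod_image hWinj.injOn]
  rw [h3]
  exact e3_prod_le (crr α q) hq0 hq1 _

end nf

end Pool.Agent.Lib.MP_ca2859_nt.GR
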