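import Mathlib
import Pool.Agent.Lib.MP_ca2859_nt.GR.Hub

/-!
# Comparison of products over the finite places
-/

set_option autoImplicit false

open Polynomial WithZero IsDedekindDomain NumberField

namespace Pool.Agent.Lib.MP_ca2859_nt.GR

section fin
variable {K : Type} [Field K] [NumberField K]

/-- the product of the `N_v ^ e_v` -/
noncomputable def PP (e : HeightOneSpectrum (𝓞 K) → ℕ) : ℕ :=
  ∏ᶠ v : HeightOneSpectrum (𝓞 K), Ideal.absNorm v.asIdeal ^ e v

/-- the product of the `N_v` over the places with `e_v ≠ 0` -/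
noncomputable def PR (e : HeightOneSpectrum (𝓞 K) → ℕ) : ℕ :=
  ∏ᶠ v : HeightOneSpectrum (𝓞 K), if e v = 0 then 1 else Ideal.absNorm v.asIdeal

theorem PP_eq (e : HeightOneSpectrum (𝓞 K) → ℕ) (T : Finset (HeightOneSpectrum (𝓞 K)))
    (hT : ∀ v, e v ≠ 0 → v ∈ T) : PP e = ∏ v ∈ T, Ideal.absNorm v.asIdeal ^ e v := by
  rw [PP, finprod_eq_prod_of_mulSupport_subset]
  intro v hv
  apply hT
  intro h0
  exact hv (by simp [h0])

theorem PR_eq (e : HeightOneSpectrum (𝓞 K) → ℕ) (T : Finset (HeightOneSpectrum (𝓞 K)))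
    (hT : ∀ v, e v ≠ 0 → v ∈ T) :
    PR e = ∏ v ∈ T, if e v = 0 then 1 else Ideal.absNorm v.asIdeal := by
  rw [PR, finprod_eq_prod_of_mulSupport_subset]
  intro v hv
  apply hT
  intro h0
  exact hv (by simp [h0])

theorem prod_le_PP (e : HeightOneSpectrum (𝓞 K) → ℕ) (he : {v | e v ≠ 0}.Finite)
    (S : Finset (HeightOneSpectrum (𝓞 K))) :
    ∏ v ∈ S, Ideal.absNorm v.asIdeal ^ e v ≤ PP e := by
  classical
  rw [PP_eq e (he.toFinset ∪ S) (fun v hv => by
    rw [Finset.mem_union]; left; rw [Set.Finite.mem_toFinset]; exact hv)]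
  apply Finset.prod_le_prod_of_subset_of_one_le' Finset.subset_union_right
  intro v _ _
  exact Nat.one_le_pow _ _ (one_le_absNorm v)

theorem prod_le_PR (e : HeightOneSpectrum (𝓞 K) → ℕ) (he : {v | e v ≠ 0}.Finite)
    (S : Finset (HeightOneSpectrum (𝓞 K))) (hS : ∀ v ∈ S, e v ≠ 0) :
    ∏ v ∈ S, Ideal.absNorm v.asIdeal ≤ PR e := by
  classical
  rw [PR_eq e (he.toFinset ∪ S) (fun v hv => by
    rw [Finset.mem_union]; left; rw [Set.Finite.mem_toFinset]; exact hv)]
  have h1 : ∏ v ∈ S, Ideal.absNorm v.asIdeal =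
      ∏ v ∈ S, if e v = 0 then 1 else Ideal.absNorm v.asIdeal :=
    Finset.prod_congr rfl fun v hv => by rw [if_neg (hS v hv)]
  rw [h1]
  apply Finset.prod_le_prod_of_subset_of_one_le' Finset.subset_union_right
  intro v _ _
  split_ifs
  · exact le_rfl
  · exact one_le_absNorm v

theorem PP_pos (e : HeightOneSpectrum (𝓞 K) → ℕ) (he : {v | e v ≠ 0}.Finite) : 1 ≤ PP e := by
  have := prod_le_PP e he ∅
  simpa using this

theorem PR_pos (e : HeightOneSpectrum (𝓞 K) → ℕ) (he : {v | e v ≠ 0}.Finite) : 1 ≤ PR e := by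
  have := prod_le_PR e he ∅ (by simp)
  simpa using this

theorem ord_natCast_ne_zero_iff (m : ℕ) (hm : 0 < m) (v : HeightOneSpectrum (𝓞 K)) :
    ord (v.valuation K) ((m : ℕ) : K) ≠ 0 ↔ cnt m v ≠ 0 := by
  rw [ord_eq_cnt m hm]
  exact Nat.cast_ne_zero

/-- the primes dividing a natural number -/
theorem prod_dvd_le (m : ℕ) (hm : 0 < m) (S : Finset (HeightOneSpectrum (𝓞 K)))
    (hS : ∀ v ∈ S, ord (v.valuation K) ((m : ℕ) : K) ≠ 0) :
    ∏ v ∈ S, Ideal.absNorm v.asIdeal ≤ m ^ Module.finrank ℚ K := by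
  refine le_trans ?_ (prod_cnt_le (K := K) m hm S)
  apply Finset.prod_le_prod'
  intro v hv
  have h1 := (ord_natCast_ne_zero_iff m hm v).1 (hS v hv)
  exact Nat.le_self_pow h1 _

/-- comparison of two products -/
theorem PP_le (e : HeightOneSpectrum (𝓞 K) → ℕ) (he : {v | e v ≠ 0}.Finite)
    (e' : HeightOneSpectrum (𝓞 K) → ℕ) (he' : {v | e' v ≠ 0}.Finite) (A m : ℕ) (hm : 0 < m)
    (h : ∀ v, e v ≠ 0 → (e v : ℤ) ≤ A * e' v + ord (v.valuation K) ((m : ℕ) : K)) :
    PP e ≤ PP e' ^ A * m ^ Module.finrank ℚ K := by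
  classical
  rw [PP_eq e he.toFinset (fun v hv => by rw [Set.Finite.mem_toFinset]; exact hv)]
  have h1 : ∀ v ∈ he.toFinset, Ideal.absNorm v.asIdeal ^ e v ≤
      (Ideal.absNorm v.asIdeal ^ e' v) ^ A * Ideal.absNorm v.asIdeal ^ cnt m v := by
    intro v hv
    rw [Set.Finite.mem_toFinset] at hv
    have h2 := h v hv
    rw [ord_eq_cnt m hm] at h2
    have h3 : e v ≤ A * e' v + cnt m v := by exact_mod_cast h2
    rw [← pow_mul, ← pow_add]
    apply Nat.pow_le_pow_right (one_le_absNorm v)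
    rw [mul_comm (e' v)]
    exact h3
  refine (Finset.prod_le_prod' h1).trans ?_
  rw [Finset.prod_mul_distrib, Finset.prod_pow]
  exact Nat.mul_le_mul (Nat.pow_le_pow_left (prod_le_PP e' he' _) _) (prod_cnt_le m hm _)

/-- comparison with an additional radical factor -/
theorem PP_le_rad (e : HeightOneSpectrum (𝓞 K) → ℕ) (he : {v | e v ≠ 0}.Finite)
    (e' : HeightOneSpectrum (𝓞 K) → ℕ) (he' : {v | e' v ≠ 0}.Finite) (A B m : ℕ) (hm : 0 < m)
    (h : ∀ v, e v ≠ 0 → (e v : ℤ) ≤ A * e' v + B + ord (v.valuation K) ((m : ℕ) : K)) :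
    PP e ≤ PP e' ^ A * PR e ^ B * m ^ Module.finrank ℚ K := by
  classical
  rw [PP_eq e he.toFinset (fun v hv => by rw [Set.Finite.mem_toFinset]; exact hv)]
  have h1 : ∀ v ∈ he.toFinset, Ideal.absNorm v.asIdeal ^ e v ≤
      (Ideal.absNorm v.asIdeal ^ e' v) ^ A * Ideal.absNorm v.asIdeal ^ B *
        Ideal.absNorm v.asIdeal ^ cnt m v := by
    intro v hv
    rw [Set.Finite.mem_toFinset] at hv
    have h2 := h v hv
    rw [ord_eq_cnt m hm] at h2
    have h3 : e v ≤ A * e' v + B + cnt m v := by exact_mod_cast h2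
    rw [← pow_mul, ← pow_add, ← pow_add]
    apply Nat.pow_le_pow_right (one_le_absNorm v)
    rw [mul_comm (e' v)]
    exact h3
  refine (Finset.prod_le_prod' h1).trans ?_
  rw [Finset.prod_mul_distrib, Finset.prod_mul_distrib, Finset.prod_pow, Finset.prod_pow]
  refine Nat.mul_le_mul (Nat.mul_le_mul (Nat.pow_le_pow_left (prod_le_PP e' he' _) _)
    (Nat.pow_le_pow_left (prod_le_PR e he _ ?_) _)) (prod_cnt_le m hm _)
  intro v hv
  rw [Set.Finite.mem_toFinset] at hv
  exact hv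

/-- comparison of two radicals -/
theorem PR_le (e : HeightOneSpectrum (𝓞 K) → ℕ) (he : {v | e v ≠ 0}.Finite)
    (e' : HeightOneSpectrum (𝓞 K) → ℕ) (he' : {v | e' v ≠ 0}.Finite) (m : ℕ) (hm : 0 < m)
    (h : ∀ v, e v ≠ 0 → e' v = 0 → ord (v.valuation K) ((m : ℕ) : K) ≠ 0) :
    PR e ≤ PR e' * m ^ Module.finrank ℚ K := by
  classical
  rw [PR_eq e he.toFinset (fun v hv => by rw [Set.Finite.mem_toFinset]; exact hv)]
  have h0 : ∏ v ∈ he.toFinset, (if e v = 0 then 1 else Ideal.absNorm v.asIdeal) =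
      ∏ v ∈ he.toFinset, Ideal.absNorm v.asIdeal := by
    apply Finset.prod_congr rfl
    intro v hv
    rw [Set.Finite.mem_toFinset] at hv
    rw [if_neg hv]
  rw [h0, ← Finset.prod_filter_mul_prod_filter_not he.toFinset (fun v => e' v ≠ 0)]
  refine Nat.mul_le_mul (prod_le_PR e' he' _ ?_) (prod_dvd_le m hm _ ?_)
  · intro v hv
    exact (Finset.mem_filter.1 hv).2
  · intro v hv
    obtain ⟨hv1, hv2⟩ := Finset.mem_filter.1 hv
    rw [Set.Finite.mem_toFinset] at hv1
    exact h v hv1 (not_not.1 hv2)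

theorem lamE_finite (x : K) (h0 : x ≠ 0) (h1 : x ≠ 1) :
    {v : HeightOneSpectrum (𝓞 K) | lamE (v.valuation K) x ≠ 0}.Finite := by
  refine ((finite_val_ne_one x h0).union (finite_val_ne_one (1 - x) (sub_ne_zero.2 h1.symm))).subset ?_
  intro v hv
  simp only [Set.mem_union, Set.mem_ofPred_eq] at hv ⊢
  by_contra hcon
  rw [not_or, not_not, not_not] at hcon
  apply hv
  rw [lamE, ord, ord, hcon.1, hcon.2]
  simp

theorem HL_eq_PP (x : K) : HL x = PP fun v : HeightOneSpectrum (𝓞 K) => lamE (v.valuation K) x := rfl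
theorem RL_eq_PR (x : K) : RL x = PR fun v : HeightOneSpectrum (𝓞 K) => lamE (v.valuation K) x := rfl
theorem DeltaC_eq_PP (g : ℕ) (f : K[X]) : DeltaC g f = PP fun v => discExp g f v := rfl
theorem MC_eq_PR (g : ℕ) (f : K[X]) : MC g f = PR fun v => discExp g f v := rfl
theorem DeltaE_eq_PP (W : WeierstrassCurve K) : DeltaE W = PP fun v => discExpE W v := rfl
theorem ME_eq_PR (W : WeierstrassCurve K) : ME W = PR fun v => discExpE W v := rfl

theorem one_le_discr (K : Type) [Field K] [NumberField K] : 1 ≤ (discr K).natAbs := by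
  have := discr_ne_zero K
  omega

end fin

section nf
variable {K : Type} [Field K] [NumberField K] {L : Type} [Field L] [NumberField L] [Algebra K L]

/-- valuations of elements of the base field -/
theorem ord_base (v : HeightOneSpectrum (𝓞 K)) (w : HeightOneSpectrum (𝓞 L))
    [w.asIdeal.LiesOver v.asIdeal] (x : K) : ord (w.valuation L) (algebraMap K L x) =
      (Ideal.ramificationIdx' v.asIdeal w.asIdeal : ℕ) * ord (v.valuation K) x := by
  have h : w.valuation L (algebraMap K L x) = v.valuation K x ^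
      (Ideal.ramificationIdx' v.asIdeal w.asIdeal) :=
    HeightOneSpectrum.valuation_liesOver L v w x |>.symm
  rw [ord, ord, h, log_pow]
  simp

theorem ram_pos (v : HeightOneSpectrum (𝓞 K)) (w : HeightOneSpectrum (𝓞 L))
    [w.asIdeal.LiesOver v.asIdeal] : 0 < Ideal.ramificationIdx' v.asIdeal w.asIdeal :=
  Nat.pos_of_ne_zero (Ideal.IsDedekindDomain.ramificationIdx'_ne_zero_of_liesOver w.asIdeal v.ne_bot)

theorem lamE_base (v : HeightOneSpectrum (𝓞 K)) (w : HeightOneSpectrum (𝓞 L))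
    [w.asIdeal.LiesOver v.asIdeal] (x : K) : (lamE (w.valuation L) (algebraMap K L x) : ℤ) =
      (Ideal.ramificationIdx' v.asIdeal w.asIdeal : ℕ) * lamE (v.valuation K) x := by
  have h1 : (1 : L) - algebraMap K L x = algebraMap K L (1 - x) := by simp
  rw [lamE, lamE, h1, ord_base v w, ord_base v w, Int.natAbs_mul, Int.natAbs_mul]
  push_cast
  simp
  ring

end nf

end Pool.Agent.Lib.MP_ca2859_nt.GR
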