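import Mathlib
import Pool.Agent.Lib.MP_ca2859_nt.GR.Hub
import Pool.Agent.Lib.MP_ca2859_nt.CRGood3

set_option autoImplicit false

/-!
# The trinomial `X ^ (2g+2) + a X ^ (g+1) + b`
-/

open Polynomial WithZero IsDedekindDomain NumberField

namespace Pool.Agent.Lib.MP_ca2859_nt.GR

section field
variable {F : Type*} [Field F]

private theorem B1_low (g : ℕ) (a b : F) :
    (C a * X ^ (g + 1) + C b : F[X]).natDegree < 2 * g + 2 := by
  have h1 : (C a * X ^ (g + 1) : F[X]).natDegree ≤ g + 1 := natDegree_C_mul_X_pow_le _ _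
  have h2 : (C a * X ^ (g + 1) + C b : F[X]).natDegree ≤ g + 1 :=
    (natDegree_add_le _ _).trans (max_le h1 (by rw [natDegree_C]; omega))
  omega

private theorem B1_deg (g : ℕ) (a b : F) : (tri g a b).natDegree = 2 * g + 2 := by
  have h := B1_low g a b
  unfold tri
  rw [add_assoc, natDegree_add_eq_left_of_natDegree_lt, natDegree_X_pow]
  rw [natDegree_X_pow]
  exact h

private theorem B1_monic (g : ℕ) (a b : F) : (tri g a b).leadingCoeff = 1 := by
  have h := B1_low g a b
  rw [leadingCoeff, B1_deg]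
  unfold tri
  rw [add_assoc, coeff_add, coeff_X_pow_self, coeff_eq_zero_of_natDegree_lt h, add_zero]

private theorem B1_der (g : ℕ) (a b : F) : derivative (tri g a b) =
    C ((g + 1 : ℕ) : F) * X ^ g * (2 * X ^ (g + 1) + C a) := by
  unfold tri
  simp only [derivative_add, derivative_C, derivative_X_pow, derivative_C_mul, add_zero]
  have e1 : 2 * g + 2 - 1 = g + (g + 1) := by omega
  have e2 : g + 1 - 1 = g := by omega
  rw [e1, e2, pow_add]
  push_cast
  simp only [map_add, map_mul, map_one, map_natCast, map_ofNat]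
  ring

private theorem B1_sq (g : ℕ) (a b : F) :
    4 * tri g a b = (2 * X ^ (g + 1) + C a) ^ 2 - C (a ^ 2 - 4 * b) := by
  unfold tri
  simp only [map_sub, map_mul, map_pow, map_ofNat]
  have e1 : (X : F[X]) ^ (2 * g + 2) = X ^ (g + 1) * X ^ (g + 1) := by
    rw [← pow_add]
    congr 1
    ring
  rw [e1]
  ring

private theorem B1_sep [CharZero F] (g : ℕ) (a b : F) (hb : b ≠ 0) (hD : a ^ 2 - 4 * b ≠ 0) :
    (tri g a b).Separable := by
  unfold Separable
  rw [B1_der]
  have hX : IsCoprime (tri g a b) X := by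
    refine ⟨C b⁻¹, -(C b⁻¹ * (X ^ (2 * g + 1) + C a * X ^ g)), ?_⟩
    have h1 : C b⁻¹ * C b = (1 : F[X]) := by rw [← C_mul, inv_mul_cancel₀ hb, C_1]
    unfold tri
    calc C b⁻¹ * (X ^ (2 * g + 2) + C a * X ^ (g + 1) + C b) +
          -(C b⁻¹ * (X ^ (2 * g + 1) + C a * X ^ g)) * X = C b⁻¹ * C b := by ring
      _ = 1 := h1
  have hq : IsCoprime (tri g a b) (2 * X ^ (g + 1) + C a) := by
    set D := a ^ 2 - 4 * b with hDdef
    refine ⟨-(C D⁻¹ * 4), C D⁻¹ * (2 * X ^ (g + 1) + C a), ?_⟩
    have h1 : C D⁻¹ * C D = (1 : F[X]) := by rw [← C_mul, inv_mul_cancel₀ hD, C_1]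
    have h2 := B1_sq g a b
    rw [← hDdef] at h2
    calc -(C D⁻¹ * 4) * tri g a b + C D⁻¹ * (2 * X ^ (g + 1) + C a) * (2 * X ^ (g + 1) + C a)
        = C D⁻¹ * ((2 * X ^ (g + 1) + C a) ^ 2 - 4 * tri g a b) := by ring
      _ = C D⁻¹ * C D := by rw [h2]; ring
      _ = 1 := h1
  have hn : IsCoprime (tri g a b) (C ((g + 1 : ℕ) : F)) := by
    refine ⟨0, C (((g + 1 : ℕ) : F)⁻¹), ?_⟩
    have h0 : ((g + 1 : ℕ) : F) ≠ 0 := Nat.cast_ne_zero.mpr (Nat.succ_ne_zero g)
    rw [zero_mul, zero_add, ← C_mul, inv_mul_cancel₀ h0, C_1]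
  exact (hn.mul_right hX.pow_right).mul_right hq

/-- the derivative is a unit at the roots -/
private theorem B1_root (w : Valuation F ℤᵐ⁰) (g : ℕ) (a b s : F)
    (hn : w ((g + 1 : ℕ) : F) = 1) (ha : w a ≤ 1) (hb : w b = 1) (hD : w (a ^ 2 - 4 * b) = 1)
    (hs : (tri g a b).eval s = 0) : w ((derivative (tri g a b)).eval s) = 1 := by
  have h0 : s ^ (g + 1) * (s ^ (g + 1) + a) = -b := by
    have h : (tri g a b).eval s = s ^ (2 * g + 2) + a * s ^ (g + 1) + b := by
      unfold tri; simp
    have e1 : s ^ (2 * g + 2) = s ^ (g + 1) * s ^ (g + 1) := by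
      rw [← pow_add]; congr 1; ring
    rw [h, e1] at hs
    linear_combination hs
  have h1 : w (s ^ (g + 1)) * w (s ^ (g + 1) + a) = 1 := by
    rw [← map_mul, h0, Valuation.map_neg, hb]
  have hy : w (s ^ (g + 1)) = 1 := by
    rcases lt_trichotomy (w (s ^ (g + 1))) 1 with h | h | h
    · exfalso
      have h2 : w (s ^ (g + 1) + a) ≤ 1 := (w.map_add _ _).trans (max_le h.le ha)
      have h3 : w (s ^ (g + 1)) * w (s ^ (g + 1) + a) < 1 :=
        lt_of_le_of_lt (mul_le_of_le_one_right' h2) h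
      exact absurd h1 h3.ne
    · exact h
    · exfalso
      have h2 : w (s ^ (g + 1) + a) = w (s ^ (g + 1)) :=
        Valuation.map_add_eq_of_lt_left w (lt_of_le_of_lt ha h)
      rw [h2] at h1
      exact absurd h1 (one_lt_mul'' h h).ne'
  have hs1 : w s = 1 := by
    rw [map_pow] at hy
    exact (pow_eq_one_iff.1 hy).resolve_right (Nat.succ_ne_zero g)
  have hq : w (2 * s ^ (g + 1) + a) = 1 := by
    have h4 := congrArg (Polynomial.eval s) (B1_sq g a b)
    simp only [eval_mul, eval_sub, eval_pow, eval_add, eval_C, eval_X, hs, mul_zero] at h4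
    have e4 : eval s (2 : F[X]) = 2 := by
      rw [← C_ofNat, eval_C]
    rw [e4] at h4
    have h5 : (2 * s ^ (g + 1) + a) ^ 2 = a ^ 2 - 4 * b := by linear_combination -h4
    have h6 : w (2 * s ^ (g + 1) + a) ^ 2 = 1 := by rw [← map_pow, h5, hD]
    exact (pow_eq_one_iff.1 h6).resolve_right two_ne_zero
  rw [B1_der]
  have e4 : eval s (2 : F[X]) = 2 := by
    rw [← C_ofNat, eval_C]
  simp only [eval_mul, eval_pow, eval_add, eval_C, eval_X, e4]
  rw [map_mul, map_mul, hn, map_pow, hs1, hq]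
  simp

private theorem B1_CB (v : Valuation F ℤᵐ⁰) (g : ℕ) (a b : F) (ha : v a ≤ 1) (hb : v b ≤ 1) :
    CB v 1 (tri g a b) := by
  unfold tri
  have hX : ∀ k : ℕ, CB v 1 (X ^ k : F[X]) := fun k => by
    have := (CB_X (w := v)).pow k
    rwa [one_pow] at this
  have hC : CB v 1 (C a * X ^ (g + 1) : F[X]) := by
    have := (CB_C ha).mul (hX (g + 1))
    rwa [one_mul] at this
  exact ((hX _).add hC).add (CB_C hb)

end field

section nf
variable {K : Type} [Field K] [NumberField K]

/-- B1 -/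
theorem tri_hyper (g : ℕ) (a b : K) (hb : b ≠ 0) (hD : a ^ 2 - 4 * b ≠ 0) :
    IsHyperelliptic g (tri g a b) ∧ (tri g a b).natDegree = 2 * g + 2 :=
  ⟨⟨B1_sep g a b hb hD, Or.inr (B1_deg g a b)⟩, B1_deg g a b⟩

/-- B2 -/
theorem tri_good (g : ℕ) (hg : 1 ≤ g) (a b : K) (v : HeightOneSpectrum (𝓞 K))
    (h2 : v.valuation K (2 : K) = 1) (hn : v.valuation K ((g + 1 : ℕ) : K) = 1)
    (ha : v.valuation K a ≤ 1) (hb : v.valuation K b = 1)
    (hD : v.valuation K (a ^ 2 - 4 * b) = 1) : discExp g (tri g a b) v = 0 := by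
  have hD0 : a ^ 2 - 4 * b ≠ 0 := by
    intro h
    rw [h, map_zero] at hD
    exact zero_ne_one hD
  have hb0 : b ≠ 0 := by
    intro h
    rw [h, map_zero] at hb
    exact zero_ne_one hb
  obtain ⟨hf, hfd⟩ := tri_hyper g a b hb0 hD0
  let L := (tri g a b).SplittingField
  have : NumberField L := NumberField.of_module_finite K L
  obtain ⟨w, hw⟩ := exists_place_above (K := K) (L := L) v
  have he : Ideal.ramificationIdx' v.asIdeal w.asIdeal ≠ 0 :=
    Ideal.IsDedekindDomain.ramificationIdx'_ne_zero_of_liesOver w.asIdeal v.ne_bot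
  have hval : ∀ x : K, v.valuation K x = 1 → w.valuation L (algebraMap K L x) = 1 := by
    intro x hx
    rw [← HeightOneSpectrum.valuation_liesOver L v w, hx, one_pow]
  have hmap : (tri g a b).map (algebraMap K L) = tri g (algebraMap K L a) (algebraMap K L b) := by
    unfold tri
    simp
  have ha' : w.valuation L (algebraMap K L a) ≤ 1 := by
    rw [← HeightOneSpectrum.valuation_liesOver L v w]
    exact pow_le_one' ha _
  have hn' : w.valuation L ((g + 1 : ℕ) : L) = 1 := by
    have := hval _ hn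
    rwa [map_natCast] at this
  have hD' : w.valuation L (algebraMap K L a ^ 2 - 4 * algebraMap K L b) = 1 := by
    have := hval _ hD
    rw [map_sub, map_pow, map_mul, map_ofNat] at this
    exact this
  have hdeg : ((tri g a b).map (algebraMap K L)).natDegree = (tri g a b).natDegree := natDegree_map _
  have hres : w.valuation L (algebraMap K L (resultant (tri g a b) (derivative (tri g a b))
      (tri g a b).natDegree ((tri g a b).natDegree - 1))) = 1 := by
    rw [← resultant_map_map, ← derivative_map]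
    have h1 := resultant_eq_prod_eval ((tri g a b).map (algebraMap K L))
      (derivative ((tri g a b).map (algebraMap K L))) ((tri g a b).natDegree - 1)
      (by rw [← hdeg]; exact natDegree_derivative_le _) (SplittingField.splits _)
    rw [hdeg] at h1
    rw [h1, hmap, B1_monic, one_pow, one_mul, map_multiset_prod, Multiset.map_map]
    apply Multiset.prod_eq_one
    intro x hx
    rw [Multiset.mem_map] at hx
    obtain ⟨s, hs, rfl⟩ := hx
    have hs' := (mem_roots'.1 hs).2
    exact B1_root (w.valuation L) g _ _ s hn' ha' (hval _ hb) hD' hs'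
  have hdisc : v.valuation K (tri g a b).discr = 1 := by
    have h0 : 0 < (tri g a b).degree := by
      rw [← natDegree_pos_iff_degree_pos]; omega
    rw [resultant_deriv h0, B1_monic, mul_one, map_mul, map_mul, map_pow, map_neg, map_one,
      map_pow, Valuation.map_neg, map_one, one_pow, one_mul,
      ← HeightOneSpectrum.valuation_liesOver L v w] at hres
    exact (pow_eq_one_iff.1 hres).resolve_right he
  apply Nat.le_zero.mp
  refine minDiscExp_le _ g _ 0 ⟨tri g a b, 0, ⟨B1_CB _ g a b ha hb.le, fun i => by simp,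
    by omega, by simp, ?_, ?_⟩, ?_⟩
  · rw [f0_zero]; exact hf.2
  · rw [f0_zero]; exact sameCurve_refl g _
  · rw [f0_zero, eqDisc, if_pos hfd, map_mul, map_pow, h2, hdisc]
    simp

end nf

end Pool.Agent.Lib.MP_ca2859_nt.GR
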