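import Mathlib
import Pool.Agent.Lib.MP_ca2859_nt.GR.Hub

set_option autoImplicit false

open Polynomial WithZero IsDedekindDomain NumberField

namespace Pool.Agent.Lib.MP_ca2859_nt.GR

theorem A1_offDiag {n : ℕ} {M : Type*} [CommMonoid M] (F : Fin n → Fin n → M) :
    ∏ p, ∏ q ∈ Finset.univ.erase p, F p q =
      ∏ x ∈ (Finset.univ : Finset (Fin n)).offDiag, F x.1 x.2 := by
  rw [Finset.prod_sigma']
  refine Finset.prod_nbij' (fun x => (x.1, x.2)) (fun x => ⟨x.1, x.2⟩) ?_ ?_ ?_ ?_ ?_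
  · rintro ⟨p, q⟩ h
    simp only [Finset.mem_sigma, Finset.mem_univ, Finset.mem_erase, true_and, and_true] at h
    simp [Finset.mem_offDiag, Ne.symm h]
  · rintro ⟨p, q⟩ h
    simp only [Finset.mem_offDiag, Finset.mem_univ, true_and] at h
    simp [Ne.symm h]
  · rintro ⟨p, q⟩ _; rfl
  · rintro ⟨p, q⟩ _; rfl
  · rintro ⟨p, q⟩ _; rfl

/-- A1: cross ratios are bounded by the discriminant. -/
theorem cross_of_disc {L : Type*} [Field L] {w : Valuation L ℤᵐ⁰} {n : ℕ} (hn : 2 ≤ n) (b : L)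
    (hb : b ≠ 0) (s : Fin n → L) (h : CB w 1 (C b * ∏ j, (X - C (s j)))) (i j k l : Fin n)
    (hij : i ≠ j) (hik : i ≠ k) (hil : i ≠ l) (hjk : j ≠ k) (hjl : j ≠ l) (hkl : k ≠ l) :
    w (C b * ∏ j, (X - C (s j))).discr * w ((s i - s k) * (s j - s l)) ^ 2 ≤
      w ((s i - s j) * (s k - s l)) ^ 2 := by
  classical
  set m : Fin n → ℤᵐ⁰ := fun p => max 1 (w (s p)) with hm
  set D : Fin n → Fin n → ℤᵐ⁰ := fun p q => w (s p - s q) with hD
  have hgauss : w b * ∏ p, m p ≤ 1 := gauss_full b s h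
  have hDm : ∀ p q, D p q ≤ m p * m q := by
    intro p q
    refine Valuation.map_sub_le _ ?_ ?_
    · calc w (s p) ≤ m p := le_max_right _ _
        _ = m p * 1 := (mul_one _).symm
        _ ≤ m p * m q := mul_le_mul_right (le_max_left _ _) _
    · calc w (s q) ≤ m q := le_max_right _ _
        _ = 1 * m q := (one_mul _).symm
        _ ≤ m p * m q := mul_le_mul_left (le_max_left _ _) _
  have hsymm : ∀ p q, D p q = D q p := by
    intro p q
    exact Valuation.map_sub_swap _ _ _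
  obtain ⟨ε, hε⟩ := discr_split (by omega : 1 ≤ n) b hb s
  have hdisc : w (C b * ∏ j, (X - C (s j))).discr =
      w b ^ (2 * n - 2) * ∏ x ∈ (Finset.univ : Finset (Fin n)).offDiag, D x.1 x.2 := by
    rw [hε, w_unit, map_mul, map_pow, map_prod, ← A1_offDiag]
    congr 1
    apply Finset.prod_congr rfl
    intro p _
    rw [map_prod]
  set S := (Finset.univ : Finset (Fin n)).offDiag with hS
  set T : Finset (Fin n × Fin n) := {(i, j), (j, i), (k, l), (l, k)} with hT
  have hTS : T ⊆ S := by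
    intro x hx
    simp only [hT, Finset.mem_insert, Finset.mem_singleton] at hx
    rw [hS, Finset.mem_offDiag]
    rcases hx with rfl | rfl | rfl | rfl
    · exact ⟨Finset.mem_univ _, Finset.mem_univ _, hij⟩
    · exact ⟨Finset.mem_univ _, Finset.mem_univ _, hij.symm⟩
    · exact ⟨Finset.mem_univ _, Finset.mem_univ _, hkl⟩
    · exact ⟨Finset.mem_univ _, Finset.mem_univ _, hkl.symm⟩
  have hprodT : ∀ F : Fin n → Fin n → ℤᵐ⁰, ∏ x ∈ T, F x.1 x.2 =
      F i j * (F j i * (F k l * F l k)) := by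
    intro F
    rw [hT, Finset.prod_insert, Finset.prod_insert, Finset.prod_insert, Finset.prod_singleton]
    · simp [hkl]
    · simp only [Finset.mem_insert, Finset.mem_singleton, Prod.mk.injEq, not_or, not_and]
      exact ⟨fun h => absurd h hjk, fun h => absurd h hjl⟩
    · simp only [Finset.mem_insert, Finset.mem_singleton, Prod.mk.injEq, not_or, not_and]
      exact ⟨fun h => absurd h hij, fun h => absurd h hik, fun h => absurd h hil⟩
  have hmm : ∏ x ∈ S, (m x.1 * m x.2) = (∏ p, m p) ^ (2 * n - 2) := by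
    rw [hS, ← A1_offDiag (fun p q => m p * m q)]
    exact prod_erase_pair hn m
  have hmain : (∏ x ∈ S, D x.1 x.2) * (∏ x ∈ T, (m x.1 * m x.2)) ≤
      (∏ x ∈ T, D x.1 x.2) * ∏ x ∈ S, (m x.1 * m x.2) := by
    rw [← Finset.prod_sdiff hTS, ← Finset.prod_sdiff (f := fun x => m x.1 * m x.2) hTS]
    have h1 : ∏ x ∈ S \ T, D x.1 x.2 ≤ ∏ x ∈ S \ T, (m x.1 * m x.2) :=
      Finset.prod_le_prod' fun x _ => hDm _ _
    calc (∏ x ∈ S \ T, D x.1 x.2) * (∏ x ∈ T, D x.1 x.2) * (∏ x ∈ T, (m x.1 * m x.2))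
        ≤ (∏ x ∈ S \ T, (m x.1 * m x.2)) * (∏ x ∈ T, D x.1 x.2) *
            (∏ x ∈ T, (m x.1 * m x.2)) := by gcongr
      _ = (∏ x ∈ T, D x.1 x.2) * ((∏ x ∈ S \ T, (m x.1 * m x.2)) *
            ∏ x ∈ T, (m x.1 * m x.2)) := by
          rw [mul_comm (∏ x ∈ S \ T, (m x.1 * m x.2)), mul_assoc]
  rw [hprodT D, hprodT (fun p q => m p * m q), hmm] at hmain
  have h4 : w (C b * ∏ j, (X - C (s j))).discr * (m i * m k * (m j * m l)) ^ 2 ≤
      (D i j * D k l) ^ 2 := by
    calc w (C b * ∏ j, (X - C (s j))).discr * (m i * m k * (m j * m l)) ^ 2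
        = w b ^ (2 * n - 2) * ((∏ x ∈ S, D x.1 x.2) *
            (m i * m j * (m j * m i * (m k * m l * (m l * m k))))) := by
          rw [hdisc, mul_assoc]
          congr 2
          simp only [pow_two]
          ac_rfl
      _ ≤ w b ^ (2 * n - 2) * (D i j * (D j i * (D k l * D l k)) * (∏ p, m p) ^ (2 * n - 2)) :=
          mul_le_mul_right hmain _
      _ = (w b * ∏ p, m p) ^ (2 * n - 2) * (D i j * D k l) ^ 2 := by
          rw [hsymm j i, hsymm l k, mul_pow, pow_two (D i j * D k l)]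
          ac_rfl
      _ ≤ 1 * (D i j * D k l) ^ 2 := mul_le_mul_left (pow_le_one' hgauss _) _
      _ = _ := one_mul _
  calc w (C b * ∏ j, (X - C (s j))).discr * w ((s i - s k) * (s j - s l)) ^ 2
      ≤ w (C b * ∏ j, (X - C (s j))).discr * (m i * m k * (m j * m l)) ^ 2 := by
        rw [map_mul]
        exact mul_le_mul_right (pow_le_pow_left' (mul_le_mul' (hDm i k) (hDm j l)) _) _
    _ ≤ (D i j * D k l) ^ 2 := h4
    _ = _ := by rw [map_mul]

end Pool.Agent.Lib.MP_ca2859_nt.GR
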