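import Mathlib
import Pool.Agent.Lib.MP_ca2859_nt.GR.Hub
import Pool.Agent.Lib.MP_ca2859_nt.GR.A1
import Pool.Agent.Lib.MP_ca2859_nt.GoodD

/-!
# Cross ratios of the branch points and the minimal discriminant
-/

set_option autoImplicit false

open Polynomial WithZero IsDedekindDomain NumberField

namespace Pool.Agent.Lib.MP_ca2859_nt.GR

variable {K : Type} [Field K] [NumberField K] {L : Type} [Field L] [NumberField L] [Algebra K L]

/-- a `v`-integral equation `y² = H` over `K` of degree `2g+2` obtained from `f` by an affine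
change of coordinates, whose discriminant exceeds the minimal one by a power of two -/
private theorem cross_bound_model (g : ℕ) (hg : 1 ≤ g) (f : K[X]) (hf : IsHyperelliptic g f)
    (hfd : f.natDegree = 2 * g + 2) (v : HeightOneSpectrum (𝓞 K)) :
    ∃ (c α₀ ρ : K) (H : K[X]), c ≠ 0 ∧ ρ ≠ 0 ∧ H = C c * f.comp (C ρ * X + C α₀) ∧
      CB (v.valuation K) 1 H ∧ H.discr ≠ 0 ∧ ord (v.valuation K) H.discr =
        discExp g f v + (4 * g + 4) * ord (v.valuation K) (2 : K) := by
  obtain ⟨π, hπ⟩ := v.valuation_exists_uniformizer K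
  obtain ⟨P, Q, hm, hk⟩ := minDiscExp_spec (v.valuation K) π hπ g hg f hf
  set h := f0 P Q with hh
  have hD0 : eqDisc g h ≠ 0 := by
    intro h1; rw [h1, map_zero] at hk; exact exp_ne_zero hk.symm
  have hhd : h.natDegree ≤ 2 * g + 2 := by rcases hm.deg0 with h1 | h1 <;> rw [hh] <;> omega
  have hint4 : CB (v.valuation K) 1 (C 4 * h) := by
    have h1 : C (4 : K) * h = C ((4 : ℕ) : K) * P + Q ^ 2 := by
      rw [hh, f0, mul_add, ← mul_assoc, ← C_mul]
      norm_num
    rw [h1]
    have h2 := (CB_C (natCast_le_one (v.valuation K) 4)).mul (show CB (v.valuation K) 1 P from hm.intP)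
    have h3 := CB.pow (show CB (v.valuation K) 1 Q from hm.intQ) 2
    rw [mul_one] at h2
    rw [one_pow] at h3
    exact h2.add h3
  obtain ⟨hRh0, hRh⟩ := ord_RR_eqDisc (w := v.valuation K) g hg h hm.deg0 hD0
  obtain ⟨c, α₀, ρ, H, hc, hρ, hH, hHint, ⟨ε, hε⟩, -⟩ :=
    exists_affine_sq (w := v.valuation K) g f h hhd hm.same hint4
  have hordD : ord (v.valuation K) (eqDisc g h) = discExp g f v := by
    rw [ord, hk, log_exp]; simp [discExp]
  have hHd : H.natDegree = 2 * g + 2 := by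
    rw [hH, natDegree_C_mul hc, natDegree_comp, natDegree_linear hρ, mul_one, hfd]
  obtain ⟨ε', hε'⟩ := RR_eq_discr_of_natDegree_eq (2 * g + 2) (by omega) H hHd
  have hn0 : ((2 * g + 2 : ℕ) : K) ≠ 0 := by rw [Nat.cast_ne_zero]; omega
  have h40 : (4 : K) ^ (2 * (2 * g + 2 - 1)) ≠ 0 := pow_ne_zero _ (by norm_num)
  have hRH0 : RR (2 * g + 2) H ≠ 0 := by
    rw [hε, RR_C_mul]
    exact mul_ne_zero (unit_ne_zero ε) (mul_ne_zero h40 hRh0)
  have hdisc0 : H.discr ≠ 0 := by
    intro h1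
    apply hRH0
    rw [hε', h1]; simp
  refine ⟨c, α₀, ρ, H, hc, hρ, hH, hHint, hdisc0, ?_⟩
  have h1 : ord (v.valuation K) (RR (2 * g + 2) H) =
      (4 * (2 * g + 1)) * ord (v.valuation K) (2 : K) + ord (v.valuation K) (RR (2 * g + 2) h) := by
    rw [hε, ord_unit, RR_C_mul, ord_mul h40 hRh0, ord_pow, show (4 : K) = 2 ^ 2 by norm_num,
      ord_pow, show 2 * g + 2 - 1 = 2 * g + 1 by omega]
    push_cast
    ring
  have h2 : ord (v.valuation K) (RR (2 * g + 2) H) =
      2 * g * ord (v.valuation K) ((2 * g + 2 : ℕ) : K) + ord (v.valuation K) H.discr := by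
    rw [hε', ord_unit, ord_mul (pow_ne_zero _ hn0) hdisc0, ord_pow,
      show 2 * g + 2 - 2 = 2 * g by omega]
    push_cast
    ring
  rw [hordD] at hRh
  linarith

/-- A2: cross ratios of the branch points are bounded by the minimal discriminant. -/
theorem cross_bound (g : ℕ) (hg : 1 ≤ g) (f : K[X]) (hf : IsHyperelliptic g f)
    (v : HeightOneSpectrum (𝓞 K)) (w : HeightOneSpectrum (𝓞 L)) [w.asIdeal.LiesOver v.asIdeal]
    (a : L) (ha : a ≠ 0) (α : Fin (2 * g + 2) → L) (hα : Function.Injective α)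
    (hfα : f.map (algebraMap K L) = C a * ∏ j, (X - C (α j))) (i j k l : Fin (2 * g + 2))
    (hij : i ≠ j) (hik : i ≠ k) (hil : i ≠ l) (hjk : j ≠ k) (hjl : j ≠ l) (hkl : k ≠ l) :
    2 * ord (w.valuation L) ((α i - α j) * (α k - α l)) ≤
      2 * ord (w.valuation L) ((α i - α k) * (α j - α l)) +
      (Ideal.ramificationIdx' v.asIdeal w.asIdeal : ℕ) *
        (discExp g f v + (4 * g + 4) * ord (v.valuation K) (2 : K)) := by
  have hfd : f.natDegree = 2 * g + 2 := by
    rw [← natDegree_map (algebraMap K L), hfα]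
    exact natDegree_split _ ha _
  obtain ⟨c, α₀, ρ, H, hc, hρ, hH, hHint, hdisc0, hdisc⟩ := cross_bound_model g hg f hf hfd v
  rw [← hdisc]
  set e := Ideal.ramificationIdx' v.asIdeal w.asIdeal with he
  have hvw : ∀ x : K, w.valuation L (algebraMap K L x) = v.valuation K x ^ e := fun x =>
    (HeightOneSpectrum.valuation_liesOver L v w x).symm
  have hordK : ∀ x : K, ord (w.valuation L) (algebraMap K L x) = e * ord (v.valuation K) x := by
    intro x
    rw [ord, hvw, log_pow, ord]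
    simp
  set H' := H.map (algebraMap K L) with hH'
  have hCB' : CB (w.valuation L) 1 H' := by
    intro i
    rw [hH', coeff_map, hvw]
    exact pow_le_one' (hHint i) _
  set ρ' := algebraMap K L ρ with hρ'
  set α' := algebraMap K L α₀ with hα'
  set c' := algebraMap K L c with hc'
  have hρ0 : ρ' ≠ 0 := by rw [hρ', Ne, map_eq_zero]; exact hρ
  have hc0 : c' ≠ 0 := by rw [hc', Ne, map_eq_zero]; exact hc
  set s : Fin (2 * g + 2) → L := fun j => (α j - α') / ρ' with hs
  have hsplit : H' = C (c' * a * ρ' ^ (2 * g + 2)) * ∏ j, (X - C (s j)) := by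
    rw [hH', hH, Polynomial.map_mul, Polynomial.map_C, Polynomial.map_comp, hfα]
    simp only [Polynomial.map_add, Polynomial.map_mul, Polynomial.map_C, Polynomial.map_X]
    exact comp_split _ _ _ _ hρ0 _
  have hb0 : c' * a * ρ' ^ (2 * g + 2) ≠ 0 := mul_ne_zero (mul_ne_zero hc0 ha) (pow_ne_zero _ hρ0)
  have hHd : H.natDegree = 2 * g + 2 := by
    rw [hH, natDegree_C_mul hc, natDegree_comp, natDegree_linear hρ, mul_one, hfd]
  have hHd' : H'.natDegree = 2 * g + 2 := by rw [hH', natDegree_map, hHd]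
  -- the discriminant over `L`
  obtain ⟨ε, hε⟩ := RR_eq_discr_of_natDegree_eq (2 * g + 2) (by omega) H hHd
  obtain ⟨ε', hε'⟩ := RR_eq_discr_of_natDegree_eq (2 * g + 2) (by omega) H' hHd'
  have hn0 : ((2 * g + 2 : ℕ) : L) ≠ 0 := by rw [Nat.cast_ne_zero]; omega
  have hn0' : ((2 * g + 2 : ℕ) : K) ≠ 0 := by rw [Nat.cast_ne_zero]; omega
  have hR0 : RR (2 * g + 2) H ≠ 0 := by
    rw [hε]
    exact mul_ne_zero (unit_ne_zero ε) (mul_ne_zero (pow_ne_zero _ hn0') hdisc0)
  have hR0' : RR (2 * g + 2) H' ≠ 0 := by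
    rw [hH', RR_map, Ne, map_eq_zero]; exact hR0
  have hdisc0' : H'.discr ≠ 0 := by
    intro h1
    apply hR0'
    rw [hε', h1]; simp
  have hD : ord (w.valuation L) H'.discr = e * ord (v.valuation K) H.discr := by
    have h1 : ord (w.valuation L) (RR (2 * g + 2) H') =
        2 * g * ord (w.valuation L) ((2 * g + 2 : ℕ) : L) + ord (w.valuation L) H'.discr := by
      rw [hε', ord_unit, ord_mul (pow_ne_zero _ hn0) hdisc0', ord_pow,
        show 2 * g + 2 - 2 = 2 * g by omega]
      push_cast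
      ring
    have h2 : ord (v.valuation K) (RR (2 * g + 2) H) =
        2 * g * ord (v.valuation K) ((2 * g + 2 : ℕ) : K) + ord (v.valuation K) H.discr := by
      rw [hε, ord_unit, ord_mul (pow_ne_zero _ hn0') hdisc0, ord_pow,
        show 2 * g + 2 - 2 = 2 * g by omega]
      push_cast
      ring
    have h3 : ord (w.valuation L) (RR (2 * g + 2) H') =
        e * ord (v.valuation K) (RR (2 * g + 2) H) := by
      rw [hH', RR_map, hordK]
    have h4 : ord (w.valuation L) ((2 * g + 2 : ℕ) : L) =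
        e * ord (v.valuation K) ((2 * g + 2 : ℕ) : K) := by
      rw [← hordK, map_natCast]
    rw [h3, h2, h4] at h1
    linear_combination -h1
  rw [← hD]
  have hmain := cross_of_disc (w := w.valuation L) (by omega : 2 ≤ 2 * g + 2) _ hb0 s
    (by rw [← hsplit]; exact hCB') i j k l hij hik hil hjk hjl hkl
  rw [← hsplit] at hmain
  have hdiff : ∀ x y, α x - α y = ρ' * (s x - s y) := by
    intro x y
    rw [hs]
    field_simp
    ring
  have hsne : ∀ x y, x ≠ y → s x - s y ≠ 0 := by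
    intro x y hxy h1
    have h2 := hdiff x y
    rw [h1, mul_zero, sub_eq_zero] at h2
    exact hxy (hα h2)
  have hA0 : (s i - s k) * (s j - s l) ≠ 0 := mul_ne_zero (hsne _ _ hik) (hsne _ _ hjl)
  have hB0 : (s i - s j) * (s k - s l) ≠ 0 := mul_ne_zero (hsne _ _ hij) (hsne _ _ hkl)
  have hα1 : (α i - α j) * (α k - α l) = ρ' ^ 2 * ((s i - s j) * (s k - s l)) := by
    rw [hdiff, hdiff]; ring
  have hα2 : (α i - α k) * (α j - α l) = ρ' ^ 2 * ((s i - s k) * (s j - s l)) := by
    rw [hdiff, hdiff]; ring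
  rw [hα1, hα2, ord_mul (pow_ne_zero _ hρ0) hA0, ord_mul (pow_ne_zero _ hρ0) hB0]
  rw [← map_pow, ← map_pow, ← map_mul, w_eq_exp (pow_ne_zero 2 hB0),
    le_exp_iff (mul_ne_zero hdisc0' (pow_ne_zero 2 hA0)), neg_neg,
    ord_mul hdisc0' (pow_ne_zero 2 hA0), ord_pow, ord_pow] at hmain
  push_cast at hmain
  linarith

end Pool.Agent.Lib.MP_ca2859_nt.GR
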