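import Mathlib
import Pool.Agent.Lib.MP_ca2859_nt.GR.Hub

/-!
# The lower bound for the minimal discriminant of the trinomial curves: the core
-/

set_option autoImplicit false

open Polynomial WithZero IsDedekindDomain NumberField

namespace Pool.Agent.Lib.MP_ca2859_nt.GR

section core
variable {L : Type*} [Field L] {w : Valuation L ℤᵐ⁰}

private theorem C1_ord_prod {m : ℕ} (u : Fin m → L) (hu : ∀ i, u i ≠ 0) :
    ord w (∏ i, u i) = ∑ i, ord w (u i) := by
  induction m with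
  | zero => simp [ord]
  | succ m ih =>
    rw [Fin.prod_univ_succ, Fin.sum_univ_succ,
      ord_mul (hu 0) (Finset.prod_ne_zero_iff.2 fun i _ => hu _), ih _ (fun i => hu _)]

private theorem C1_zero : ord w (0 : L) = 0 := by simp [ord]

private theorem C1_pos {x : L} (h : 0 < ord w x) : ord w (1 - x) = 0 := by
  have hx : x ≠ 0 := by
    rintro rfl
    rw [C1_zero] at h
    exact lt_irrefl _ h
  have h1 : w x < 1 := by
    rw [w_eq_exp hx, ← exp_zero, exp_lt_exp]
    linarith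
  have h2 := Valuation.map_one_sub_of_lt w h1
  rw [ord, h2]
  simp

private theorem C1_neg {x : L} (h : ord w x < 0) : ord w (1 - x) = ord w x := by
  have hx : x ≠ 0 := by
    rintro rfl
    rw [C1_zero] at h
    exact lt_irrefl _ h
  have h1 : w 1 < w x := by
    rw [map_one, w_eq_exp hx, ← exp_zero, exp_lt_exp]
    linarith
  have h2 := Valuation.map_sub_eq_of_lt_right w h1
  rw [ord, ord, h2]

private theorem C1_nonneg {x : L} (h : 0 ≤ ord w x) : 0 ≤ ord w (1 - x) := by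
  rcases eq_or_ne x 0 with rfl | hx
  · simp [ord]
  · refine ord_nonneg ((w.map_sub 1 x).trans (max_le (by rw [map_one]) ?_))
    rw [← exp_zero, le_exp_iff hx]
    simpa using h

private theorem C1_root {ζ : L} {n : ℕ} (hn : 1 ≤ n) (h : ζ ^ n = 1) : ord w ζ = 0 := by
  have h1 := ord_pow (w := w) ζ n
  rw [h] at h1
  have h2 : ord w (1 : L) = 0 := by simp [ord]
  rw [h2] at h1
  have h3 : (n : ℤ) ≠ 0 := by positivity
  rcases mul_eq_zero.1 h1.symm with h4 | h4
  · exact absurd h4 h3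
  · exact h4

/-- `ord (1 - ζ) ≤ ord n` for a root of unity `ζ ≠ 1` -/
private theorem C1_zeta {ζ : L} {n : ℕ} (hn : 1 ≤ n) (hn0 : (n : L) ≠ 0) (h : ζ ^ n = 1)
    (h1 : ζ ≠ 1) : 0 ≤ ord w (1 - ζ) ∧ ord w (1 - ζ) ≤ ord w (n : L) := by
  have h0 := C1_root (w := w) hn h
  refine ⟨C1_nonneg h0.ge, ?_⟩
  have hz : ζ ≠ 0 := by
    rintro rfl
    rw [zero_pow (by omega)] at h
    exact zero_ne_one h
  have hw : w ζ ≤ 1 := by
    rw [← exp_zero, le_exp_iff hz, h0]
    simp
  have h2 : (∑ k ∈ Finset.range n, ζ ^ k) = 0 := by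
    have h3 := mul_geom_sum ζ n
    rw [h, sub_self] at h3
    rcases mul_eq_zero.1 h3 with h4 | h4
    · exact absurd (sub_eq_zero.1 h4) h1
    · exact h4
  set s : L := ∑ k ∈ Finset.range n, ∑ i ∈ Finset.range k, ζ ^ i with hs
  have h3 : (n : L) = (1 - ζ) * s := by
    rw [hs, Finset.mul_sum]
    have h4 : ∀ k ∈ Finset.range n, (1 - ζ) * ∑ i ∈ Finset.range k, ζ ^ i = 1 - ζ ^ k := by
      intro k _
      exact mul_neg_geom_sum ζ k
    rw [Finset.sum_congr rfl h4, Finset.sum_sub_distrib, h2]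
    simp
  have hs1 : w s ≤ 1 := by
    rw [hs]
    refine Valuation.map_sum_le _ fun k _ => Valuation.map_sum_le _ fun i _ => ?_
    rw [map_pow]
    exact pow_le_one' hw i
  have h5 : (1 - ζ) ≠ 0 := sub_ne_zero.2 (Ne.symm h1)
  have h6 : s ≠ 0 := by
    intro h7
    rw [h7, mul_zero] at h3
    exact hn0 h3
  rw [h3, ord_mul h5 h6]
  have := ord_nonneg (w := w) hs1
  linarith

theorem C1_core (n : ℕ) (hn : 2 ≤ n) (hn0 : (n : L) ≠ 0) (r₁ r₂ : L) (h1 : r₁ ≠ 0) (h2 : r₂ ≠ 0)
    (h12 : r₁ ≠ r₂) (hs1 : (X ^ n - C r₁ : L[X]).Splits) (hs2 : (X ^ n - C r₂ : L[X]).Splits)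
    (B0 : ℤ) (hcr : ∀ x y z t : L, (x ^ n = r₁ ∨ x ^ n = r₂) → (y ^ n = r₁ ∨ y ^ n = r₂) →
      (z ^ n = r₁ ∨ z ^ n = r₂) → (t ^ n = r₁ ∨ t ^ n = r₂) → x ≠ y → x ≠ z → x ≠ t → y ≠ z →
      y ≠ t → z ≠ t → 2 * ord w ((x - y) * (z - t)) ≤ 2 * ord w ((x - z) * (y - t)) + B0) :
    (lamE w (r₁ / r₂) : ℤ) ≤ n * (B0 + 4 * ord w (n : L)) := by
  obtain ⟨β, hβ⟩ := split_enum _ hs1 n natDegree_X_pow_sub_C
  obtain ⟨γ, hγ⟩ := split_enum _ hs2 n natDegree_X_pow_sub_C
  rw [leadingCoeff_X_pow_sub_C (by omega), C_1, one_mul] at hβ hγ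
  have hβi : Function.Injective β := by
    rw [← separable_prod_X_sub_C_iff, ← hβ]
    exact separable_X_pow_sub_C _ hn0 h1
  have hβr : ∀ i, β i ^ n = r₁ := by
    intro i
    have h3 := congrArg (eval (β i)) hβ
    rw [eval_prod, Finset.prod_eq_zero (Finset.mem_univ i) (by simp)] at h3
    simp only [eval_sub, eval_pow, eval_X, eval_C] at h3
    exact sub_eq_zero.1 h3
  have hγr : ∀ i, γ i ^ n = r₂ := by
    intro i
    have h3 := congrArg (eval (γ i)) hγ
    rw [eval_prod, Finset.prod_eq_zero (Finset.mem_univ i) (by simp)] at h3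
    simp only [eval_sub, eval_pow, eval_X, eval_C] at h3
    exact sub_eq_zero.1 h3
  have hβ0 : ∀ i, β i ≠ 0 := by
    intro i h3
    have h4 := hβr i
    rw [h3, zero_pow (by omega)] at h4
    exact h1 h4.symm
  -- a root of unity
  set i0 : Fin n := ⟨0, by omega⟩ with hi0
  set i1 : Fin n := ⟨1, by omega⟩ with hi1
  set ζ : L := β i1 / β i0 with hζ
  have hζn : ζ ^ n = 1 := by
    rw [hζ, div_pow, hβr, hβr, div_self h1]
  have hζ1 : ζ ≠ 1 := by
    intro h3
    rw [hζ, div_eq_one_iff_eq (hβ0 _)] at h3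
    have h4 := hβi h3
    rw [hi0, hi1, Fin.mk.injEq] at h4
    omega
  have hζ0 : ζ ≠ 0 := by
    intro h3
    rw [h3, zero_pow (by omega)] at hζn
    exact zero_ne_one hζn
  have hζo := C1_root (w := w) (by omega : 1 ≤ n) hζn
  obtain ⟨hz0, hz1⟩ := C1_zeta (w := w) (by omega : 1 ≤ n) hn0 hζn hζ1
  have h1ζ : 1 - ζ ≠ 0 := sub_ne_zero.2 (Ne.symm hζ1)
  -- the root of the second factor
  set b : L := γ i0 with hb
  have hbr : b ^ n = r₂ := hγr i0
  have hb0 : b ≠ 0 := by
    intro h3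
    rw [h3, zero_pow (by omega)] at hbr
    exact h2 hbr.symm
  have hζb : (ζ * b) ^ n = r₂ := by rw [mul_pow, hζn, one_mul, hbr]
  -- the main estimate
  have hmain : ∀ i, 2 * ord w (β i / b) - 4 * ord w (1 - β i / b) ≤ B0 + 4 * ord w (n : L) ∧
      -(B0 + 4 * ord w (n : L)) ≤ 2 * ord w (β i / b) - 4 * ord w (1 - β i / b) := by
    intro i
    have k0 : (ζ * β i) ^ n = r₁ := by rw [mul_pow, hζn, one_mul, hβr]
    have k1 : β i ≠ ζ * β i := by
      intro h3
      have : (1 - ζ) * β i = 0 := by linear_combination h3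
      rcases mul_eq_zero.1 this with h4 | h4
      · exact h1ζ h4
      · exact hβ0 i h4
    have k2 : b ≠ ζ * b := by
      intro h3
      have : (1 - ζ) * b = 0 := by linear_combination h3
      rcases mul_eq_zero.1 this with h4 | h4
      · exact h1ζ h4
      · exact hb0 h4
    have hd : ∀ x y : L, x ^ n = r₁ → y ^ n = r₂ → x ≠ y := by
      intro x y hx hy hxy
      rw [hxy, hy] at hx
      exact h12 hx.symm
    have e1 := hcr (β i) (ζ * β i) b (ζ * b) (Or.inl (hβr i)) (Or.inl k0) (Or.inr hbr)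
      (Or.inr hζb) k1 (hd _ _ (hβr i) hbr) (hd _ _ (hβr i) hζb) (hd _ _ k0 hbr) (hd _ _ k0 hζb) k2
    have e2 := hcr (β i) b (ζ * β i) (ζ * b) (Or.inl (hβr i)) (Or.inr hbr) (Or.inl k0)
      (Or.inr hζb) (hd _ _ (hβr i) hbr) k1 (hd _ _ (hβr i) hζb) (hd _ _ k0 hbr).symm k2
      (hd _ _ k0 hζb)
    have hm0 : β i / b ≠ 0 := div_ne_zero (hβ0 i) hb0
    have hm1 : 1 - β i / b ≠ 0 := by
      intro h3
      have h4 : β i / b = 1 := (sub_eq_zero.1 h3).symm
      rw [div_eq_one_iff_eq hb0] at h4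
      exact hd _ _ (hβr i) hbr h4
    have f1 : (β i - ζ * β i) * (b - ζ * b) = (1 - ζ) ^ 2 * ((β i / b) * b ^ 2) := by
      field_simp
    have f2 : (β i - b) * (ζ * β i - ζ * b) = ζ * ((1 - β i / b) ^ 2 * b ^ 2) := by
      field_simp
      ring
    have g1 : ord w ((β i - ζ * β i) * (b - ζ * b)) =
        2 * ord w (1 - ζ) + (ord w (β i / b) + 2 * ord w b) := by
      rw [f1, ord_mul (pow_ne_zero _ h1ζ) (mul_ne_zero hm0 (pow_ne_zero _ hb0)), ord_pow,
        ord_mul hm0 (pow_ne_zero _ hb0), ord_pow]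
      push_cast
      ring
    have g2 : ord w ((β i - b) * (ζ * β i - ζ * b)) =
        2 * ord w (1 - β i / b) + 2 * ord w b := by
      rw [f2, ord_mul hζ0 (mul_ne_zero (pow_ne_zero _ hm1) (pow_ne_zero _ hb0)), hζo,
        ord_mul (pow_ne_zero _ hm1) (pow_ne_zero _ hb0), ord_pow, ord_pow]
      push_cast
      ring
    rw [g1, g2] at e1
    rw [g1, g2] at e2
    constructor <;> linarith
  set B1 : ℤ := B0 + 4 * ord w (n : L) with hB1
  have hB1n : 0 ≤ B1 := by
    have := hmain i0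
    linarith [this.1, this.2]
  -- the order of `μ`
  have hX : ∀ i, (n : ℤ) * ord w (β i / b) = ord w (r₁ / r₂) := by
    intro i
    rw [← ord_pow, div_pow, hβr, hbr]
  have hn1 : (0 : ℤ) < n := by positivity
  have hprod : 1 - r₁ / r₂ = ∏ i, (1 - β i / b) := by
    have h3 := congrArg (eval b) hβ
    rw [eval_prod] at h3
    simp only [eval_sub, eval_pow, eval_X, eval_C] at h3
    have h4 : ∏ i, (1 - β i / b) = (∏ i, (b - β i)) / b ^ n := by
      have h5 : ∀ i, (1 - β i / b) = (b - β i) / b := by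
        intro i
        field_simp
      rw [Finset.prod_congr rfl fun i _ => h5 i, Finset.prod_div_distrib]
      simp
    rw [h4, ← h3, hbr]
    field_simp
  rcases lt_trichotomy (ord w (β i0 / b)) 0 with hneg | hzero | hpos
  · -- negative
    have h3 := C1_neg hneg
    have h4 := (hmain i0).1
    rw [h3] at h4
    have h5 : ord w (r₁ / r₂) < 0 := by
      rw [← hX i0]
      exact mul_neg_of_pos_of_neg hn1 hneg
    have h6 := C1_neg h5
    have h7 : (lamE w (r₁ / r₂) : ℤ) = -ord w (r₁ / r₂) + -ord w (r₁ / r₂) := by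
      rw [lamE, h6]
      push_cast
      rw [abs_of_neg h5]
    rw [h7, ← hX i0]
    nlinarith
  · -- zero
    have h5 : ord w (r₁ / r₂) = 0 := by rw [← hX i0, hzero, mul_zero]
    have h6 : ∀ i, ord w (β i / b) = 0 := by
      intro i
      have h7 := hX i
      rw [h5] at h7
      rcases mul_eq_zero.1 h7 with h8 | h8
      · omega
      · exact h8
    have hne : ∀ i, 1 - β i / b ≠ 0 := by
      intro i h3
      have h4 : β i / b = 1 := (sub_eq_zero.1 h3).symm
      rw [div_eq_one_iff_eq hb0] at h4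
      have h7 := hβr i
      rw [h4, hbr] at h7
      exact h12 h7.symm
    have h8 : ord w (1 - r₁ / r₂) = ∑ i, ord w (1 - β i / b) := by
      rw [hprod, C1_ord_prod _ hne]
    have h9 : ∀ i, 0 ≤ ord w (1 - β i / b) := fun i => C1_nonneg (h6 i).ge
    have h10 : ∀ i, ord w (1 - β i / b) ≤ B1 := by
      intro i
      have := (hmain i).2
      rw [h6 i] at this
      linarith [h9 i]
    have h11 : 0 ≤ ord w (1 - r₁ / r₂) := by
      rw [h8]
      exact Finset.sum_nonneg fun i _ => h9 i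
    have h7 : (lamE w (r₁ / r₂) : ℤ) = ord w (1 - r₁ / r₂) := by
      rw [lamE, h5]
      push_cast
      rw [abs_of_nonneg h11]
      simp
    rw [h7, h8]
    calc ∑ i, ord w (1 - β i / b) ≤ ∑ _i : Fin n, B1 := Finset.sum_le_sum fun i _ => h10 i
      _ = n * B1 := by simp
  · -- positive
    have h3 := C1_pos hpos
    have h4 := (hmain i0).1
    rw [h3] at h4
    have h5 : 0 < ord w (r₁ / r₂) := by
      rw [← hX i0]
      exact mul_pos hn1 hpos
    have h6 := C1_pos h5
    have h7 : (lamE w (r₁ / r₂) : ℤ) = ord w (r₁ / r₂) := by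
      rw [lamE, h6]
      push_cast
      rw [abs_of_pos h5]
      simp
    rw [h7, ← hX i0]
    nlinarith

end core

end Pool.Agent.Lib.MP_ca2859_nt.GR
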