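import Mathlib
import Pool.Agent.Lib.MP_ca2859_nt.GR.C1core
import Pool.Agent.Lib.MP_ca2859_nt.GR.A2
import Pool.Agent.Lib.MP_ca2859_nt.GR.B1

/-!
# The lower bound for the minimal discriminant of the trinomial curves
-/

set_option autoImplicit false

open Polynomial WithZero IsDedekindDomain NumberField

namespace Pool.Agent.Lib.MP_ca2859_nt.GR

section nf
variable {K : Type} [Field K] [NumberField K] {L : Type} [Field L] [NumberField L] [Algebra K L]

/-- C1 -/
theorem tri_lower (g : ℕ) (hg : 1 ≤ g) (a b : K) (hb : b ≠ 0) (hD : a ^ 2 - 4 * b ≠ 0)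
    (v : HeightOneSpectrum (𝓞 K)) (w : HeightOneSpectrum (𝓞 L)) [w.asIdeal.LiesOver v.asIdeal]
    (hs : ((tri g a b).map (algebraMap K L)).Splits) (r₁ r₂ : L)
    (h1 : r₁ + r₂ = -algebraMap K L a) (h2 : r₁ * r₂ = algebraMap K L b) :
    (lamE (w.valuation L) (r₁ / r₂) : ℤ) ≤
      (Ideal.ramificationIdx' v.asIdeal w.asIdeal : ℕ) * ((g + 1) *
        (discExp g (tri g a b) v + (4 * g + 4) * ord (v.valuation K) (2 : K) +
          4 * ord (v.valuation K) ((g + 1 : ℕ) : K))) := by
  obtain ⟨hf, hfd⟩ := tri_hyper g a b hb hD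
  have hr : r₁ * r₂ ≠ 0 := by
    rw [h2, Ne, map_eq_zero]
    exact hb
  have hr1 : r₁ ≠ 0 := left_ne_zero_of_mul hr
  have hr2 : r₂ ≠ 0 := right_ne_zero_of_mul hr
  have hr12 : r₁ ≠ r₂ := by
    intro h
    apply hD
    have h3 : algebraMap K L (a ^ 2 - 4 * b) = 0 := by
      rw [map_sub, map_mul, map_pow, map_ofNat, ← h2]
      have h4 : algebraMap K L a = -(r₁ + r₂) := by rw [h1, neg_neg]
      rw [h4, h]
      ring
    rwa [map_eq_zero] at h3
  have hfac : (tri g a b).map (algebraMap K L) = (X ^ (g + 1) - C r₁) * (X ^ (g + 1) - C r₂) := by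
    have h4 : algebraMap K L a = -(r₁ + r₂) := by rw [h1, neg_neg]
    rw [tri]
    simp only [Polynomial.map_add, Polynomial.map_mul, Polynomial.map_pow, Polynomial.map_C,
      Polynomial.map_X]
    rw [h4, ← h2, C_mul, C_neg, C_add, show 2 * g + 2 = (g + 1) + (g + 1) by ring, pow_add]
    ring
  have hmon : ((tri g a b).map (algebraMap K L)).leadingCoeff = 1 := by
    rw [hfac]
    exact ((monic_X_pow_sub_C _ (by omega)).mul (monic_X_pow_sub_C _ (by omega))).leadingCoeff
  have hne : (tri g a b).map (algebraMap K L) ≠ 0 := by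
    intro h
    rw [h] at hmon
    simp at hmon
  obtain ⟨α, hα⟩ := split_enum _ hs (2 * g + 2) (by rw [natDegree_map]; exact hfd)
  rw [hmon] at hα
  have hinj : Function.Injective α := by
    rw [← separable_prod_X_sub_C_iff]
    have h3 := hf.1.map (f := algebraMap K L)
    rw [hα, C_1, one_mul] at h3
    exact h3
  have hroot : ∀ x : L, (x ^ (g + 1) = r₁ ∨ x ^ (g + 1) = r₂) → ∃ i, α i = x := by
    intro x hx
    have h3 : eval x ((tri g a b).map (algebraMap K L)) = 0 := by
      rw [hfac]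
      simp only [eval_mul, eval_sub, eval_pow, eval_X, eval_C]
      rcases hx with h | h
      · rw [h]; ring
      · rw [h]; ring
    rw [hα, C_1, one_mul, eval_prod, Finset.prod_eq_zero_iff] at h3
    obtain ⟨i, -, h4⟩ := h3
    refine ⟨i, ?_⟩
    simp only [eval_sub, eval_X, eval_C] at h4
    exact (sub_eq_zero.1 h4).symm
  have hn0 : ((g + 1 : ℕ) : L) ≠ 0 := by
    rw [Nat.cast_ne_zero]
    omega
  set e : ℕ := Ideal.ramificationIdx' v.asIdeal w.asIdeal with he
  have hn : ord (w.valuation L) ((g + 1 : ℕ) : L) = e * ord (v.valuation K) ((g + 1 : ℕ) : K) := by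
    have h3 : w.valuation L (algebraMap K L ((g + 1 : ℕ) : K)) =
        v.valuation K ((g + 1 : ℕ) : K) ^ e := (HeightOneSpectrum.valuation_liesOver L v w _).symm
    rw [map_natCast] at h3
    rw [← ord_pow, ord, ord, map_pow, h3]
  have key := C1_core (w := w.valuation L) (g + 1) (by omega) hn0 r₁ r₂ hr1 hr2 hr12
    (hs.of_dvd hne (hfac ▸ dvd_mul_right _ _)) (hs.of_dvd hne (hfac ▸ dvd_mul_left _ _))
    (e * (discExp g (tri g a b) v + (4 * g + 4) * ord (v.valuation K) (2 : K))) (by
      intro x y z t hx hy hz ht h12 h13 h14 h23 h24 h34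
      obtain ⟨i, rfl⟩ := hroot x hx
      obtain ⟨j, rfl⟩ := hroot y hy
      obtain ⟨k, rfl⟩ := hroot z hz
      obtain ⟨l, rfl⟩ := hroot t ht
      exact cross_bound g hg (tri g a b) hf v w 1 one_ne_zero α hinj hα i j k l
        (fun h => h12 (by rw [h])) (fun h => h13 (by rw [h])) (fun h => h14 (by rw [h]))
        (fun h => h23 (by rw [h])) (fun h => h24 (by rw [h])) (fun h => h34 (by rw [h])))
  refine key.trans (le_of_eq ?_)
  rw [hn]
  push_cast
  ring

end nf

end Pool.Agent.Lib.MP_ca2859_nt.GR
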