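import Mathlib
import Pool.Agent.Lib.MP_ca2859_nt.GR.Fin
import Pool.Agent.Lib.MP_ca2859_nt.GR.B1
import Pool.Agent.Lib.MP_ca2859_nt.GR.C1

set_option autoImplicit false

open Polynomial WithZero IsDedekindDomain NumberField

namespace Pool.Agent.Lib.MP_ca2859_nt.GR

section
variable {K : Type} [Field K] [NumberField K]

/-- the constant of the local inequality -/
def mT (g : ℕ) : ℕ := (2 ^ (4 * g + 4) * (g + 1) ^ 4) ^ (g + 1)

theorem mT_pos (g : ℕ) : 0 < mT g := by unfold mT; positivity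

theorem ord_mT (g : ℕ) (v : HeightOneSpectrum (𝓞 K)) : ord (v.valuation K) ((mT g : ℕ) : K) =
    (g + 1) * ((4 * g + 4) * ord (v.valuation K) (2 : K) +
      4 * ord (v.valuation K) ((g + 1 : ℕ) : K)) := by
  rw [mT, Nat.cast_pow, ord_pow, Nat.cast_mul, ord_mul, Nat.cast_pow, ord_pow, Nat.cast_pow, ord_pow]
  · push_cast; ring
  · rw [Nat.cast_ne_zero]; positivity
  · rw [Nat.cast_ne_zero]; positivity

/-- local inequality for the family -/
theorem lam_local (g : ℕ) (hg : 1 ≤ g) (x : K) (h0 : x ≠ 0) (h1 : x ≠ 1)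
    (v : HeightOneSpectrum (𝓞 K)) :
    (lamE (v.valuation K) x : ℤ) ≤ ((g + 1 : ℕ) : ℤ) * discExp g (tri g (-(1 + x)) x) v +
      ord (v.valuation K) ((mT g : ℕ) : K) := by
  set f := tri g (-(1 + x)) x with hf
  obtain ⟨w, hw⟩ := exists_place_above (K := K) (L := spl f) v
  have hD : (-(1 + x)) ^ 2 - 4 * x ≠ 0 := by
    have : (-(1 + x)) ^ 2 - 4 * x = (1 - x) ^ 2 := by ring
    rw [this]
    exact pow_ne_zero _ (sub_ne_zero.2 h1.symm)
  have h := tri_lower g hg (-(1 + x)) x h0 hD v w (IsSplittingField.splits (spl f) f)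
    (algebraMap K (spl f) x) 1 (by rw [map_neg, map_add, map_one, neg_neg]; ring) (by simp)
  rw [div_one, lamE_base v w] at h
  have he : (0 : ℤ) < (Ideal.ramificationIdx' v.asIdeal w.asIdeal : ℕ) := by
    exact_mod_cast ram_pos v w
  have h3 := le_of_mul_le_mul_left h he
  rw [ord_mT]
  push_cast at h3 ⊢
  linarith

/-- T2, for a single field -/
theorem lam_of_disc (g : ℕ) (hg : 1 ≤ g) (x : K) (h0 : x ≠ 0) (h1 : x ≠ 1) :
    IsHyperelliptic g (tri g (-(1 + x)) x) ∧
    HL x ≤ DeltaC g (tri g (-(1 + x)) x) ^ (g + 1) * mT g ^ Module.finrank ℚ K ∧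
    MC g (tri g (-(1 + x)) x) ≤ RL x * (2 * (g + 1)) ^ Module.finrank ℚ K := by
  set f := tri g (-(1 + x)) x with hf
  have hDe : (-(1 + x)) ^ 2 - 4 * x = (1 - x) ^ 2 := by ring
  have hD : (-(1 + x)) ^ 2 - 4 * x ≠ 0 := by
    rw [hDe]
    exact pow_ne_zero _ (sub_ne_zero.2 h1.symm)
  have hyp := (tri_hyper g (-(1 + x)) x h0 hD).1
  have hfin := finite_bad g f hyp
  have hlam := lamE_finite x h0 h1
  refine ⟨hyp, ?_, ?_⟩
  · rw [HL_eq_PP, DeltaC_eq_PP]
    apply PP_le _ hlam _ hfin _ _ (mT_pos g)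
    intro v _
    exact lam_local g hg x h0 h1 v
  · rw [MC_eq_PR, RL_eq_PR]
    apply PR_le _ hfin _ hlam _ (by positivity)
    intro v hv hv' h2
    apply hv
    rw [Nat.cast_mul, ord_mul (by norm_num) (by rw [Nat.cast_ne_zero]; omega)] at h2
    have n1 := natCast_int_le (v.valuation K) 2
    have n2 := natCast_int_le (v.valuation K) (g + 1)
    have o1 : ord (v.valuation K) ((2 : ℕ) : K) = 0 := by omega
    have o2 : ord (v.valuation K) ((g + 1 : ℕ) : K) = 0 := by omega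
    have u : ∀ y : K, y ≠ 0 → ord (v.valuation K) y = 0 → v.valuation K y = 1 := by
      intro y hy hy0
      rw [w_eq_exp hy, hy0, neg_zero, exp_zero]
    have l1 : ord (v.valuation K) x = 0 := by rw [lamE] at hv'; omega
    have l2 : ord (v.valuation K) (1 - x) = 0 := by rw [lamE] at hv'; omega
    have v1 := u x h0 l1
    have v2 := u (1 - x) (sub_ne_zero.2 h1.symm) l2
    apply tri_good g hg
    · have := u ((2 : ℕ) : K) (by norm_num) o1
      simpa using this
    · exact u _ (by rw [Nat.cast_ne_zero]; omega) o2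
    · rw [Valuation.map_neg]
      exact Valuation.map_add_le _ (by simp) v1.le
    · exact v1
    · rw [hDe, map_pow, v2, one_pow]

end

/-- T2 -/
theorem lam_of_hyper (g : ℕ) (hg : 1 ≤ g) (D κ : ℕ) (h : HyperUniform g D κ) :
    LamUniform D ((g + 1) * κ) := by
  obtain ⟨c, hc⟩ := h
  refine ⟨c ^ (g + 1) * ((2 * (g + 1)) ^ D) ^ (κ * (g + 1)) * mT g ^ D, ?_⟩
  intro K _ _ hK x h0 h1
  obtain ⟨hyp, e1, e2⟩ := lam_of_disc g hg x h0 h1
  have e3 := hc K hK _ hyp
  set d := (discr K).natAbs with hdd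
  calc HL x ≤ DeltaC g (tri g (-(1 + x)) x) ^ (g + 1) * mT g ^ Module.finrank ℚ K := e1
    _ ≤ (c * (d * (RL x * (2 * (g + 1)) ^ D)) ^ κ) ^ (g + 1) * mT g ^ D := by
        refine Nat.mul_le_mul (Nat.pow_le_pow_left (e3.trans (Nat.mul_le_mul_left _
          (Nat.pow_le_pow_left (Nat.mul_le_mul_left _ (e2.trans (Nat.mul_le_mul_left _ ?_))) _))) _)
          (Nat.pow_le_pow_right (mT_pos g) hK)
        exact Nat.pow_le_pow_right (by omega) hK
    _ = c ^ (g + 1) * ((2 * (g + 1)) ^ D) ^ (κ * (g + 1)) * mT g ^ D *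
          (d * RL x) ^ ((g + 1) * κ) := by
        rw [← mul_assoc, mul_pow (d * RL x), mul_pow, mul_pow, ← pow_mul, ← pow_mul]
        generalize mT g ^ D = z
        generalize (2 * (g + 1)) ^ D = z'
        ring

end Pool.Agent.Lib.MP_ca2859_nt.GR
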