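import Mathlib
import Pool.Agent.Lib.MP_ca2859_nt.GR.Hub

/-!
# The minimal discriminant of an elliptic curve: existence and lower bound by the denominator of `j`
-/

set_option autoImplicit false
set_option linter.unusedSectionVars false

open Polynomial WithZero IsDedekindDomain NumberField

namespace Pool.Agent.Lib.MP_ca2859_nt.GR

section ell
variable {F : Type*} [Field F] [CharZero F]

omit [CharZero F] in
private lemma F1_small (v : Valuation F ℤᵐ⁰) (π : F) (hπ : v π = exp (-1 : ℤ)) (a : F) (n : ℕ)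
    (h : (ord v a).natAbs ≤ n) : v (π ^ n * a) ≤ 1 := by
  by_cases ha : a = 0
  · rw [ha, mul_zero, map_zero]
    exact zero_le_one
  · have e1 : v (π ^ n) = exp (-(n : ℤ)) := by
      rw [map_pow, hπ, ← exp_nsmul]
      congr 1
      simp
    rw [map_mul, e1, w_eq_exp ha, ← exp_add, ← exp_zero, exp_le_exp]
    omega

omit [CharZero F] in
/-- an integral equation comes from an equation over the valuation ring -/
private lemma F1_lift (v : Valuation F ℤᵐ⁰) (W : WeierstrassCurve F) (h : IntegralE v W) :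
    ∃ W0 : WeierstrassCurve v.integer, W0.map v.integer.subtype = W := by
  obtain ⟨h1, h2, h3, h4, h6⟩ := h
  exact ⟨⟨⟨W.a₁, h1⟩, ⟨W.a₂, h2⟩, ⟨W.a₃, h3⟩, ⟨W.a₄, h4⟩, ⟨W.a₆, h6⟩⟩, rfl⟩

omit [CharZero F] in
private lemma F1_disc (v : Valuation F ℤᵐ⁰) (W : WeierstrassCurve F) (h : IntegralE v W) :
    v W.Δ ≤ 1 := by
  obtain ⟨W0, rfl⟩ := F1_lift v W h
  rw [WeierstrassCurve.map_Δ]
  exact W0.Δ.2

omit [CharZero F] in
private lemma F1_c4 (v : Valuation F ℤᵐ⁰) (W : WeierstrassCurve F) (h : IntegralE v W) :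
    v W.c₄ ≤ 1 := by
  obtain ⟨W0, rfl⟩ := F1_lift v W h
  rw [WeierstrassCurve.map_c₄]
  exact W0.c₄.2

omit [CharZero F] in
private lemma F1_ord (v : Valuation F ℤᵐ⁰) (x : F) (k : ℤ) (h : v x = exp (-k)) :
    ord v x = k := by
  rw [ord, h, log_exp, neg_neg]

omit [CharZero F] in
/-- there is an integral equation -/
private lemma F1_exists (v : Valuation F ℤᵐ⁰) (π : F) (hπ : v π = exp (-1 : ℤ))
    (W : WeierstrassCurve F) :
    ∃ C : WeierstrassCurve.VariableChange F, IntegralE v (C • W) := by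
  have hπ0 : π ≠ 0 := by
    intro h
    rw [h, map_zero] at hπ
    exact exp_ne_zero hπ.symm
  obtain ⟨s, hs1, hs2, hs3, hs4, hs6⟩ : ∃ s : ℕ, (ord v W.a₁).natAbs ≤ s ∧
      (ord v W.a₂).natAbs ≤ s ∧ (ord v W.a₃).natAbs ≤ s ∧ (ord v W.a₄).natAbs ≤ s ∧
      (ord v W.a₆).natAbs ≤ s :=
    ⟨(ord v W.a₁).natAbs + (ord v W.a₂).natAbs + (ord v W.a₃).natAbs + (ord v W.a₄).natAbs +
      (ord v W.a₆).natAbs, by omega, by omega, by omega, by omega, by omega⟩
  refine ⟨⟨(Units.mk0 (π ^ s) (pow_ne_zero s hπ0))⁻¹, 0, 0, 0⟩, ?_, ?_, ?_, ?_, ?_⟩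
  · rw [WeierstrassCurve.variableChange_a₁]
    simp only [inv_inv, Units.val_mk0, mul_zero, add_zero]
    exact F1_small v π hπ _ _ hs1
  · rw [WeierstrassCurve.variableChange_a₂]
    simp only [inv_inv, Units.val_mk0, mul_zero, zero_mul, add_zero, sub_zero, ne_eq,
      OfNat.ofNat_ne_zero, not_false_eq_true, zero_pow]
    rw [← pow_mul]
    exact F1_small v π hπ _ _ (by omega)
  · rw [WeierstrassCurve.variableChange_a₃]
    simp only [inv_inv, Units.val_mk0, mul_zero, zero_mul, add_zero]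
    rw [← pow_mul]
    exact F1_small v π hπ _ _ (by omega)
  · rw [WeierstrassCurve.variableChange_a₄]
    simp only [inv_inv, Units.val_mk0, mul_zero, zero_mul, add_zero, sub_zero, ne_eq,
      OfNat.ofNat_ne_zero, not_false_eq_true, zero_pow]
    rw [← pow_mul]
    exact F1_small v π hπ _ _ (by omega)
  · rw [WeierstrassCurve.variableChange_a₆]
    simp only [inv_inv, Units.val_mk0, mul_zero, zero_mul, add_zero, sub_zero, ne_eq,
      OfNat.ofNat_ne_zero, not_false_eq_true, zero_pow]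
    rw [← pow_mul]
    exact F1_small v π hπ _ _ (by omega)

omit [CharZero F] in
private lemma F1_Δ_ne (W : WeierstrassCurve F) (hW : W.Δ ≠ 0)
    (C : WeierstrassCurve.VariableChange F) : (C • W).Δ ≠ 0 := by
  rw [WeierstrassCurve.variableChange_Δ]
  exact mul_ne_zero (pow_ne_zero _ (Units.ne_zero _)) hW

/-- F1: the minimum is attained. -/
theorem minDiscExpE_spec (v : Valuation F ℤᵐ⁰) (π : F) (hπ : v π = exp (-1 : ℤ))
    (W : WeierstrassCurve F) (hW : W.Δ ≠ 0) :
    ∃ C : WeierstrassCurve.VariableChange F, IntegralE v (C • W) ∧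
      v (C • W).Δ = exp (-(minDiscExpE v W : ℤ)) := by
  have hne : {k : ℕ | ∃ C : WeierstrassCurve.VariableChange F, IntegralE v (C • W) ∧
      v (C • W).Δ = exp (-(k : ℤ))}.Nonempty := by
    obtain ⟨C, hC⟩ := F1_exists v π hπ W
    have h0 := F1_Δ_ne W hW C
    have h1 : 0 ≤ ord v (C • W).Δ := ord_nonneg (F1_disc v _ hC)
    refine ⟨(ord v (C • W).Δ).toNat, C, hC, ?_⟩
    rw [Int.toNat_of_nonneg h1]
    exact w_eq_exp h0
  exact Nat.sInf_mem hne

/-- F2: lower bound by the denominator of `j = c₄³ / Δ`. -/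
theorem jneg_le (v : Valuation F ℤᵐ⁰) (π : F) (hπ : v π = exp (-1 : ℤ))
    (W : WeierstrassCurve F) (hW : W.Δ ≠ 0) (hc : W.c₄ ≠ 0) :
    ord v W.Δ - 3 * ord v W.c₄ ≤ minDiscExpE v W := by
  obtain ⟨C, hC, hΔ⟩ := minDiscExpE_spec v π hπ W hW
  have h1 := F1_ord v _ _ hΔ
  have h2 : 0 ≤ ord v (C • W).c₄ := ord_nonneg (F1_c4 v _ hC)
  have hu : ((C.u⁻¹ : Fˣ) : F) ≠ 0 := Units.ne_zero _
  rw [WeierstrassCurve.variableChange_Δ, ord_mul (pow_ne_zero _ hu) hW, ord_pow] at h1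
  rw [WeierstrassCurve.variableChange_c₄, ord_mul (pow_ne_zero _ hu) hc, ord_pow] at h2
  push_cast at h1 h2
  omega

end ell

end Pool.Agent.Lib.MP_ca2859_nt.GR
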