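import Mathlib
import Pool.Agent.Lib.MP_ca2859_nt.GR.F1

/-!
# F5: finiteness of the bad places, the Legendre curve
-/

set_option autoImplicit false

open Polynomial WithZero IsDedekindDomain NumberField

namespace Pool.Agent.Lib.MP_ca2859_nt.GR

theorem F5_zero {F : Type*} [Field F] (v : Valuation F ℤᵐ⁰) (W : WeierstrassCurve F)
    (h : IntegralE v W) (hΔ : v W.Δ = 1) : minDiscExpE v W = 0 := by
  apply Nat.le_zero.mp
  apply Nat.sInf_le
  refine ⟨1, ?_, ?_⟩
  · rw [one_smul]
    exact h
  · rw [one_smul, hΔ]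
    simp

theorem F5_val_one {F : Type*} [Field F] {v : Valuation F ℤᵐ⁰} {x : F} (hx : x ≠ 0)
    (h : ord v x = 0) : v x = 1 := by
  rw [w_eq_exp hx, h]
  simp

theorem F5_ord_zero {F : Type*} [Field F] {v : Valuation F ℤᵐ⁰} {x : F} (h : v x = 1) :
    ord v x = 0 := by
  rw [ord, h]
  simp

theorem F5_lt {F : Type*} [Field F] {v : Valuation F ℤᵐ⁰} {x : F} (hx : x ≠ 0)
    (h : 0 < ord v x) : v x < 1 := by
  rw [w_eq_exp hx, ← exp_zero, exp_lt_exp]
  omega

theorem F5_gt {F : Type*} [Field F] {v : Valuation F ℤᵐ⁰} {x : F} (hx : x ≠ 0)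
    (h : ord v x < 0) : 1 < v x := by
  rw [w_eq_exp hx, ← exp_zero, exp_lt_exp]
  omega

theorem F5_ord_eq {F : Type*} [Field F] {v : Valuation F ℤᵐ⁰} {x y : F} (h : v x = v y) :
    ord v x = ord v y := by
  rw [ord, ord, h]

theorem F5_Δ {F : Type*} [Field F] (l : F) : (Leg l).Δ = 2 ^ 4 * (l ^ 2 * (1 - l) ^ 2) := by
  simp only [Leg, WeierstrassCurve.Δ, WeierstrassCurve.b₂, WeierstrassCurve.b₄,
    WeierstrassCurve.b₆, WeierstrassCurve.b₈]
  ring

theorem F5_c4 {F : Type*} [Field F] (l : F) : (Leg l).c₄ = 2 ^ 4 * (1 - l * (1 - l)) := by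
  simp only [Leg, WeierstrassCurve.c₄, WeierstrassCurve.b₂, WeierstrassCurve.b₄]
  ring

section ell_nf
variable {K : Type} [Field K] [NumberField K]

/-- F4: finiteness of the bad places. -/
theorem finite_badE (W : WeierstrassCurve K) (hW : W.Δ ≠ 0) :
    {v : HeightOneSpectrum (𝓞 K) | discExpE W v ≠ 0}.Finite := by
  refine (((((HeightOneSpectrum.Support.finite (𝓞 K) W.a₁).union
    (HeightOneSpectrum.Support.finite (𝓞 K) W.a₂)).union
    (HeightOneSpectrum.Support.finite (𝓞 K) W.a₃)).union
    (HeightOneSpectrum.Support.finite (𝓞 K) W.a₄)).union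
    (HeightOneSpectrum.Support.finite (𝓞 K) W.a₆)).union
    (finite_val_ne_one W.Δ hW) |>.subset ?_
  intro v hv
  by_contra hcon
  simp only [Set.mem_union, not_or, Set.mem_ofPred_eq, not_not] at hcon
  obtain ⟨⟨⟨⟨⟨h1, h2⟩, h3⟩, h4⟩, h6⟩, h⟩ := hcon
  apply hv
  exact F5_zero _ W ⟨not_lt.mp h1, not_lt.mp h2, not_lt.mp h3, not_lt.mp h4, not_lt.mp h6⟩ h

/-- F5: the Legendre curve. -/
theorem leg_local (l : K) (h0 : l ≠ 0) (h1 : l ≠ 1) (v : HeightOneSpectrum (𝓞 K)) :
    (Leg l).Δ ≠ 0 ∧ ((lamE (v.valuation K) l : ℤ) ≤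
      discExpE (Leg l) v + 8 * ord (v.valuation K) (2 : K)) ∧
    (lamE (v.valuation K) l = 0 → ord (v.valuation K) (2 : K) = 0 → discExpE (Leg l) v = 0) := by
  have h2 : (2 : K) ≠ 0 := two_ne_zero
  have h1' : 1 - l ≠ 0 := sub_ne_zero.mpr (Ne.symm h1)
  have hΔ : (Leg l).Δ ≠ 0 := by
    rw [F5_Δ]
    exact mul_ne_zero (pow_ne_zero _ h2) (mul_ne_zero (pow_ne_zero _ h0) (pow_ne_zero _ h1'))
  set w : Valuation K ℤᵐ⁰ := v.valuation K with hw
  have hv2 : 0 ≤ ord w (2 : K) := by
    apply ord_nonneg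
    have := v.valuation_le_one (K := K) (2 : 𝓞 K)
    have e : w 2 = w (algebraMap (𝓞 K) K (2 : 𝓞 K)) := by
      rw [map_ofNat (algebraMap (𝓞 K) K) 2]
    rw [e]
    exact this
  refine ⟨hΔ, ?_, ?_⟩
  · -- the denominator of `j`
    obtain ⟨π, hπ⟩ := v.valuation_exists_uniformizer K
    have key : ∀ q : ℤ, 1 - l * (1 - l) ≠ 0 → ord w (1 - l * (1 - l)) = q →
        2 * ord w l + 2 * ord w (1 - l) - 3 * q - 8 * ord w (2 : K) ≤ discExpE (Leg l) v := by
      intro q hq0 hq
      have hc : (Leg l).c₄ ≠ 0 := by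
        rw [F5_c4]
        exact mul_ne_zero (pow_ne_zero _ h2) hq0
      have h3 := jneg_le w π hπ (Leg l) hΔ hc
      rw [F5_Δ, F5_c4, ord_mul (pow_ne_zero _ h2) (mul_ne_zero (pow_ne_zero _ h0)
        (pow_ne_zero _ h1')), ord_mul (pow_ne_zero _ h0) (pow_ne_zero _ h1'),
        ord_mul (pow_ne_zero _ h2) hq0, ord_pow, ord_pow, ord_pow, hq] at h3
      push_cast at h3
      change _ ≤ ((minDiscExpE w (Leg l) : ℕ) : ℤ)
      linarith
    have hn : (0 : ℤ) ≤ discExpE (Leg l) v := Int.natCast_nonneg _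
    rcases lt_trichotomy (ord w l) 0 with ha | ha | ha
    · -- `l` is a pole
      have hl := F5_gt h0 ha
      have e1 : w (1 - l) = w l := by
        rw [Valuation.map_sub_eq_of_lt_right]
        rw [map_one]; exact hl
      have e2 : w (1 - l * (1 - l)) = w (l * (1 - l)) := by
        rw [Valuation.map_sub_eq_of_lt_right]
        rw [map_one, map_mul, e1]
        exact one_lt_mul'' hl hl
      have e3 : 1 - l * (1 - l) ≠ 0 := by
        intro h
        rw [h, map_zero] at e2
        exact (mul_ne_zero h0 h1') ((Valuation.zero_iff w).mp e2.symm)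
      have e4 : ord w (1 - l) = ord w l := F5_ord_eq e1
      have e5 : ord w (1 - l * (1 - l)) = ord w l + ord w l := by
        rw [F5_ord_eq e2, ord_mul h0 h1', e4]
      have h3 := key _ e3 e5
      rw [e4] at h3
      simp only [lamE, e4]
      omega
    · have hl := F5_val_one h0 ha
      have hb : 0 ≤ ord w (1 - l) := by
        apply ord_nonneg
        refine (Valuation.map_sub w 1 l).trans ?_
        rw [map_one, hl, max_self]
      rcases hb.lt_or_eq with hb | hb
      · have hl' := F5_lt h1' hb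
        have e2 : w (1 - l * (1 - l)) = 1 := by
          rw [Valuation.map_sub_eq_of_lt_left, map_one]
          rw [map_one, map_mul, hl, one_mul]
          exact hl'
        have e3 : 1 - l * (1 - l) ≠ 0 := by
          intro h
          rw [h, map_zero] at e2
          exact zero_ne_one e2
        have h3 := key _ e3 (F5_ord_zero e2)
        simp only [lamE]
        omega
      · simp only [lamE]
        omega
    · have hl := F5_lt h0 ha
      have e1 : w (1 - l) = 1 := by
        rw [Valuation.map_sub_eq_of_lt_left, map_one]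
        rw [map_one]; exact hl
      have e2 : w (1 - l * (1 - l)) = 1 := by
        rw [Valuation.map_sub_eq_of_lt_left, map_one]
        rw [map_one, map_mul, e1, mul_one]
        exact hl
      have e3 : 1 - l * (1 - l) ≠ 0 := by
        intro h
        rw [h, map_zero] at e2
        exact zero_ne_one e2
      have h3 := key _ e3 (F5_ord_zero e2)
      have e4 := F5_ord_zero e1
      rw [e4] at h3
      simp only [lamE, e4]
      omega
  · intro hlam h2'
    have ha : ord w l = 0 := by
      simp only [lamE] at hlam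
      omega
    have hb : ord w (1 - l) = 0 := by
      simp only [lamE] at hlam
      omega
    have hl := F5_val_one h0 ha
    have hl' := F5_val_one h1' hb
    have h2'' := F5_val_one h2 h2'
    apply F5_zero
    · refine ⟨?_, ?_, ?_, ?_, ?_⟩
      · simp [Leg]
      · simp only [Leg]
        rw [Valuation.map_neg]
        refine (Valuation.map_add w 1 l).trans ?_
        rw [map_one, hl, max_self]
      · simp [Leg]
      · simp only [Leg]
        exact hl.le
      · simp [Leg]
    · rw [F5_Δ, map_mul, map_mul, map_pow, map_pow, map_pow, hl, hl', h2'']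
      simp

end ell_nf

end Pool.Agent.Lib.MP_ca2859_nt.GR
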