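import Pool.Agent.Lib.MP_ca2859_nt.GR.Hub

/-!
# F6: the double cover attached to an elliptic curve
-/

set_option autoImplicit false

open Polynomial WithZero IsDedekindDomain NumberField

namespace Pool.Agent.Lib.MP_ca2859_nt.GR

section F6

variable {F : Type} [Field F] [CharZero F]

omit [CharZero F] in
theorem F6_eval (W : WeierstrassCurve F) (x : F) : W.twoTorsionPolynomial.toPoly.eval x =
    4 * x ^ 3 + W.b₂ * x ^ 2 + 2 * W.b₄ * x + W.b₆ := by
  simp [WeierstrassCurve.twoTorsionPolynomial, Cubic.toPoly]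

theorem F6_hyper (W : WeierstrassCurve F) (hW : W.Δ ≠ 0) :
    IsHyperelliptic 1 W.twoTorsionPolynomial.toPoly := by
  have ha : W.twoTorsionPolynomial.a ≠ 0 := by
    change (4 : F) ≠ 0
    norm_num
  have hd := Cubic.natDegree_of_a_ne_zero ha
  have hdeg := Cubic.degree_of_a_ne_zero ha
  refine ⟨?_, Or.inl hd⟩
  have h1 : W.twoTorsionPolynomial.toPoly.discr = 16 * W.Δ := by
    rw [← WeierstrassCurve.twoTorsionPolynomial_discr, Polynomial.discr_of_degree_eq_three hdeg,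
      Cubic.coeff_eq_a, Cubic.coeff_eq_b, Cubic.coeff_eq_c, Cubic.coeff_eq_d, Cubic.discr]
  have h2 : W.twoTorsionPolynomial.toPoly.discr ≠ 0 := by
    rw [h1]
    exact mul_ne_zero (by norm_num) hW
  have h3 := Polynomial.resultant_deriv (f := W.twoTorsionPolynomial.toPoly) (by rw [hdeg]; norm_num)
  rw [← Polynomial.natDegree_derivative] at h3
  have h4 : resultant W.twoTorsionPolynomial.toPoly
      (derivative W.twoTorsionPolynomial.toPoly) ≠ 0 := by
    rw [h3]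
    refine mul_ne_zero (mul_ne_zero (pow_ne_zero _ (by norm_num)) ?_) h2
    rw [Cubic.leadingCoeff_of_a_ne_zero ha]
    exact ha
  by_contra hc
  apply h4
  rw [Polynomial.resultant_eq_zero_iff]
  refine ⟨Or.inl ?_, hc⟩
  intro h0
  rw [h0] at hd
  simp at hd

/-- the polynomials of the Weierstrass equation -/
noncomputable def F6_P (W : WeierstrassCurve F) : F[X] :=
  X ^ 3 + C W.a₂ * X ^ 2 + C W.a₄ * X + C W.a₆

noncomputable def F6_Q (W : WeierstrassCurve F) : F[X] := C W.a₁ * X + C W.a₃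

theorem F6_f0 (W : WeierstrassCurve F) : f0 (F6_P W) (F6_Q W) =
    (⟨1, W.b₂ / 4, W.b₄ / 2, W.b₆ / 4⟩ : Cubic F).toPoly := by
  have h4 : (4 : F) ≠ 0 := by norm_num
  have h2 : (2 : F) ≠ 0 := by norm_num
  apply Polynomial.funext
  intro x
  simp only [f0, F6_P, F6_Q, Cubic.toPoly, WeierstrassCurve.b₂, WeierstrassCurve.b₄,
    WeierstrassCurve.b₆, eval_add, eval_mul, eval_pow, eval_X, eval_C]
  field_simp
  ring

theorem F6_model (v : Valuation F ℤᵐ⁰) (W : WeierstrassCurve F)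
    (c : WeierstrassCurve.VariableChange F) (h : IntegralE v (c • W)) :
    IsWeierstrassModel v 1 W.twoTorsionPolynomial.toPoly (F6_P (c • W)) (F6_Q (c • W)) ∧
      eqDisc 1 (f0 (F6_P (c • W)) (F6_Q (c • W))) = (c • W).Δ := by
  obtain ⟨h1, h2, h3, h4, h6⟩ := h
  have hu : (c.u : F) ≠ 0 := c.u.ne_zero
  have hd : (f0 (F6_P (c • W)) (F6_Q (c • W))).natDegree = 3 := by
    rw [F6_f0]
    exact Cubic.natDegree_of_a_ne_zero' one_ne_zero
  have hv1 : v (1 : F) ≤ 1 := by rw [map_one]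
  refine ⟨⟨?_, ?_, ?_, ?_, Or.inl hd, ?_⟩, ?_⟩
  · intro i
    have e : F6_P (c • W) = (⟨1, (c • W).a₂, (c • W).a₄, (c • W).a₆⟩ : Cubic F).toPoly := by
      simp [F6_P, Cubic.toPoly]
    rw [e]
    rcases lt_or_ge 3 i with hi | hi
    · rw [Cubic.coeff_eq_zero hi, map_zero]
      exact zero_le
    · interval_cases i
      · rw [Cubic.coeff_eq_d]; exact h6
      · rw [Cubic.coeff_eq_c]; exact h4
      · rw [Cubic.coeff_eq_b]; exact h2
      · rw [Cubic.coeff_eq_a]; exact hv1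
  · intro i
    have e : F6_Q (c • W) = (⟨0, 0, (c • W).a₁, (c • W).a₃⟩ : Cubic F).toPoly := by
      simp [F6_Q, Cubic.toPoly]
    rw [e]
    rcases lt_or_ge 3 i with hi | hi
    · rw [Cubic.coeff_eq_zero hi, map_zero]
      exact zero_le
    · interval_cases i
      · rw [Cubic.coeff_eq_d]; exact h3
      · rw [Cubic.coeff_eq_c]; exact h1
      · rw [Cubic.coeff_eq_b, map_zero]; exact zero_le
      · rw [Cubic.coeff_eq_a, map_zero]; exact zero_le
  · unfold F6_P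
    compute_degree
    norm_num
  · unfold F6_Q
    compute_degree
    norm_num
  · refine ⟨(c.u : F) ^ 2, c.r, 0, 1, (c.u : F)⁻¹ ^ 3 / 2, ?_, ?_, fun x _ => ?_⟩
    · rw [mul_one, mul_zero, sub_zero]
      exact pow_ne_zero _ hu
    · exact div_ne_zero (pow_ne_zero _ (inv_ne_zero hu)) two_ne_zero
    · rw [F6_f0, F6_eval]
      simp only [Cubic.toPoly, eval_add, eval_mul, eval_pow, eval_X, eval_C, zero_mul, zero_add,
        one_pow, mul_one, div_one, WeierstrassCurve.variableChange_b₂,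
        WeierstrassCurve.variableChange_b₄, WeierstrassCurve.variableChange_b₆,
        Units.val_inv_eq_inv_val]
      field_simp
      ring
  · have hdeg : (f0 (F6_P (c • W)) (F6_Q (c • W))).degree = 3 := by
      rw [F6_f0]
      exact Cubic.degree_of_a_ne_zero' one_ne_zero
    rw [eqDisc, if_neg (by rw [hd]; norm_num), leadingCoeff, hd,
      Polynomial.discr_of_degree_eq_three hdeg, F6_f0, Cubic.coeff_eq_a, Cubic.coeff_eq_b,
      Cubic.coeff_eq_c, Cubic.coeff_eq_d]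
    simp only [WeierstrassCurve.Δ, WeierstrassCurve.b₈, WeierstrassCurve.b₂, WeierstrassCurve.b₄,
      WeierstrassCurve.b₆]
    field_simp
    ring

omit [CharZero F] in
/-- the discriminant of an integral equation -/
theorem F6_disc (v : Valuation F ℤᵐ⁰) (W : WeierstrassCurve F) (h : IntegralE v W) :
    v W.Δ ≤ 1 := by
  obtain ⟨h1, h2, h3, h4, h6⟩ := h
  let W' : WeierstrassCurve v.integer := ⟨⟨W.a₁, h1⟩, ⟨W.a₂, h2⟩, ⟨W.a₃, h3⟩, ⟨W.a₄, h4⟩, ⟨W.a₆, h6⟩⟩
  have e : W'.map v.integer.subtype = W := rfl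
  rw [← e, WeierstrassCurve.map_Δ]
  exact W'.Δ.2

theorem F6_nonempty (v : Valuation F ℤᵐ⁰) (π : F) (hπ : v π = exp (-1 : ℤ))
    (W : WeierstrassCurve F) (hW : W.Δ ≠ 0) :
    ∃ k : ℕ, ∃ C : WeierstrassCurve.VariableChange F, IntegralE v (C • W) ∧
      v (C • W).Δ = exp (-(k : ℤ)) := by
  have hπ0 : π ≠ 0 := by
    intro h0
    rw [h0, map_zero] at hπ
    exact exp_ne_zero hπ.symm
  have key : ∀ a : F, ∃ N : ℕ, ∀ n : ℕ, N ≤ n → v (π ^ n * a) ≤ 1 := by
    intro a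
    rcases eq_or_ne a 0 with rfl | ha
    · exact ⟨0, fun n _ => by rw [mul_zero, map_zero]; exact zero_le⟩
    · refine ⟨(ord v a).natAbs, fun n hn => ?_⟩
      rw [map_mul, map_pow, hπ, w_eq_exp ha, ← exp_nsmul, ← exp_add, ← exp_zero, exp_le_exp]
      simp only [nsmul_eq_mul]
      omega
  obtain ⟨n1, k1⟩ := key W.a₁
  obtain ⟨n2, k2⟩ := key W.a₂
  obtain ⟨n3, k3⟩ := key W.a₃
  obtain ⟨n4, k4⟩ := key W.a₄
  obtain ⟨n6, k6⟩ := key W.a₆
  obtain ⟨s, hs⟩ : ∃ s, s = n1 + n2 + n3 + n4 + n6 := ⟨_, rfl⟩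
  have hu : (π ^ s)⁻¹ ≠ 0 := inv_ne_zero (pow_ne_zero _ hπ0)
  let c : WeierstrassCurve.VariableChange F := ⟨Units.mk0 _ hu, 0, 0, 0⟩
  have hc : ((c.u⁻¹ : Fˣ) : F) = π ^ s := by
    rw [Units.val_inv_eq_inv_val, Units.val_mk0, inv_inv]
  have hI : IntegralE v (c • W) := by
    refine ⟨?_, ?_, ?_, ?_, ?_⟩
    · rw [WeierstrassCurve.variableChange_a₁, hc]
      have e : π ^ s * (W.a₁ + 2 * c.s) = π ^ s * W.a₁ := by
        change π ^ s * (W.a₁ + 2 * 0) = _
        ring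
      rw [e]
      exact k1 _ (by omega)
    · rw [WeierstrassCurve.variableChange_a₂, hc]
      have e : (π ^ s) ^ 2 * (W.a₂ - c.s * W.a₁ + 3 * c.r - c.s ^ 2) = π ^ (s * 2) * W.a₂ := by
        change (π ^ s) ^ 2 * (W.a₂ - 0 * W.a₁ + 3 * 0 - 0 ^ 2) = _
        ring
      rw [e]
      exact k2 _ (by omega)
    · rw [WeierstrassCurve.variableChange_a₃, hc]
      have e : (π ^ s) ^ 3 * (W.a₃ + c.r * W.a₁ + 2 * c.t) = π ^ (s * 3) * W.a₃ := by
        change (π ^ s) ^ 3 * (W.a₃ + 0 * W.a₁ + 2 * 0) = _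
        ring
      rw [e]
      exact k3 _ (by omega)
    · rw [WeierstrassCurve.variableChange_a₄, hc]
      have e : (π ^ s) ^ 4 * (W.a₄ - c.s * W.a₃ + 2 * c.r * W.a₂ - (c.t + c.r * c.s) * W.a₁ +
          3 * c.r ^ 2 - 2 * c.s * c.t) = π ^ (s * 4) * W.a₄ := by
        change (π ^ s) ^ 4 * (W.a₄ - 0 * W.a₃ + 2 * 0 * W.a₂ - (0 + 0 * 0) * W.a₁ +
          3 * 0 ^ 2 - 2 * 0 * 0) = _
        ring
      rw [e]
      exact k4 _ (by omega)
    · rw [WeierstrassCurve.variableChange_a₆, hc]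
      have e : (π ^ s) ^ 6 * (W.a₆ + c.r * W.a₄ + c.r ^ 2 * W.a₂ + c.r ^ 3 - c.t * W.a₃ -
          c.t ^ 2 - c.r * c.t * W.a₁) = π ^ (s * 6) * W.a₆ := by
        change (π ^ s) ^ 6 * (W.a₆ + 0 * W.a₄ + 0 ^ 2 * W.a₂ + 0 ^ 3 - 0 * W.a₃ -
          0 ^ 2 - 0 * 0 * W.a₁) = _
        ring
      rw [e]
      exact k6 _ (by omega)
  have hD : (c • W).Δ ≠ 0 := by
    rw [WeierstrassCurve.variableChange_Δ, hc]
    exact mul_ne_zero (pow_ne_zero _ (pow_ne_zero _ hπ0)) hW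
  obtain ⟨k, hk⟩ := Int.eq_ofNat_of_zero_le (ord_nonneg (F6_disc v _ hI))
  exact ⟨k, c, hI, by rw [w_eq_exp hD, hk]⟩

/-- the general form -/
theorem F6_le (v : Valuation F ℤᵐ⁰) (π : F) (hπ : v π = exp (-1 : ℤ)) (W : WeierstrassCurve F)
    (hW : W.Δ ≠ 0) : minDiscExp v 1 W.twoTorsionPolynomial.toPoly ≤ minDiscExpE v W := by
  obtain ⟨C, h1, h2⟩ := Nat.sInf_mem (s := {k : ℕ | ∃ C : WeierstrassCurve.VariableChange F,
    IntegralE v (C • W) ∧ v (C • W).Δ = exp (-(k : ℤ))}) (F6_nonempty v π hπ W hW)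
  obtain ⟨h3, h4⟩ := F6_model v W C h1
  refine minDiscExp_le v 1 _ _ ⟨_, _, h3, ?_⟩
  rw [h4]
  exact h2

end F6

section F6K

variable {K : Type} [Field K] [NumberField K]

/-- F6: the double cover attached to an elliptic curve. -/
theorem two_torsion_hyper (W : WeierstrassCurve K) (hW : W.Δ ≠ 0) :
    IsHyperelliptic 1 W.twoTorsionPolynomial.toPoly ∧
      ∀ v : HeightOneSpectrum (𝓞 K), discExp 1 W.twoTorsionPolynomial.toPoly v ≤ discExpE W v := by
  refine ⟨F6_hyper W hW, fun v => ?_⟩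
  obtain ⟨π, hπ⟩ := v.valuation_exists_uniformizer K
  exact F6_le (v.valuation K) π hπ W hW

end F6K

end Pool.Agent.Lib.MP_ca2859_nt.GR
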