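import Mathlib
import Pool.Agent.Lib.MP_ca2859_nt.GR.Hub
import Pool.Agent.Lib.MP_ca2859_nt.GR.A2

set_option autoImplicit false

/-!
# A3: cross ratios when one branch point is at infinity
-/

open Polynomial WithZero IsDedekindDomain NumberField

namespace Pool.Agent.Lib.MP_ca2859_nt.GR

variable {K : Type} [Field K] [NumberField K] {L : Type} [Field L] [NumberField L] [Algebra K L]

omit [NumberField K] [NumberField L] in
private theorem A3_map_flip (g : ℕ) (t : K) (f : K[X]) :
    (flip g t f).map (algebraMap K L) = flip g (algebraMap K L t) (f.map (algebraMap K L)) := by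
  rw [flip, flip, ← reflect_map, ← map_taylor]

private theorem A3_factor (g : ℕ) (f : L[X]) (a : L) (α : Fin (2 * g + 1) → L)
    (hfα : f = C a * ∏ j, (X - C (α j))) (T : L) (hT : ∀ j, α j - T ≠ 0) :
    flip g T f = C (a * ∏ j, (T - α j)) *
      ∏ j : Fin (2 * g + 1 + 1), (X - C ((Fin.cons 0 (fun j => (α j - T)⁻¹) :
        Fin (2 * g + 1 + 1) → L) j)) := by
  have hd : f.natDegree ≤ 2 * g + 2 := by
    rw [hfα]
    refine (natDegree_C_mul_le _ _).trans ?_
    rw [natDegree_prod_of_monic _ _ (fun j _ => monic_X_sub_C _)]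
    simp
  refine Polynomial.eq_of_infinite_eval_eq _ _ ?_
  refine Set.Infinite.mono (s := {x : L | x ≠ 0}) ?_ ?_
  · intro x hx
    have hx' : x ≠ 0 := hx
    show (flip g T f).eval x = _
    have hR : ∏ j : Fin (2 * g + 1 + 1), (X - C ((Fin.cons 0 (fun j => (α j - T)⁻¹) :
        Fin (2 * g + 1 + 1) → L) j)).eval x = x * ∏ j, (x - (α j - T)⁻¹) := by
      rw [Fin.prod_univ_succ]
      simp only [Fin.cons_zero, Fin.cons_succ, eval_sub, eval_X, eval_C, sub_zero]
    rw [flip_eval g T f hd x hx', hfα, eval_mul, eval_C, eval_prod, eval_mul, eval_C, eval_prod,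
      hR]
    simp only [eval_sub, eval_X, eval_C]
    have h1 : x ^ (2 * g + 2) = x * ∏ _j : Fin (2 * g + 1), x := by
      rw [Finset.prod_const, Finset.card_univ, Fintype.card_fin]
      ring
    have h2 : ∀ j, (T - α j) * (x - (α j - T)⁻¹) = x * (x⁻¹ + T - α j) := by
      intro j
      have h3 := hT j
      have h4 : T - α j = -(α j - T) := by ring
      rw [mul_sub, mul_sub, mul_add, mul_inv_cancel₀ hx', h4, neg_mul, neg_mul,
        mul_inv_cancel₀ h3]
      ring
    calc x ^ (2 * g + 2) * (a * ∏ j, (x⁻¹ + T - α j))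
        = a * (x * ((∏ _j : Fin (2 * g + 1), x) * ∏ j, (x⁻¹ + T - α j))) := by
          rw [h1]
          ring
      _ = a * (x * ∏ j, (x * (x⁻¹ + T - α j))) := by
          rw [← Finset.prod_mul_distrib]
      _ = a * (x * ∏ j, ((T - α j) * (x - (α j - T)⁻¹))) := by
          simp only [h2]
      _ = a * (∏ j, (T - α j)) * (x * ∏ j, (x - (α j - T)⁻¹)) := by
          rw [Finset.prod_mul_distrib]
          ring
  · have h : ({x : L | x ≠ 0} : Set L) = ({0} : Set L)ᶜ := rfl
    rw [h]
    exact (Set.finite_singleton _).infinite_compl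

/-- A3: the same when one branch point is at infinity. -/
theorem cross_bound_infty (g : ℕ) (hg : 1 ≤ g) (f : K[X]) (hf : IsHyperelliptic g f)
    (v : HeightOneSpectrum (𝓞 K)) (w : HeightOneSpectrum (𝓞 L)) [w.asIdeal.LiesOver v.asIdeal]
    (a : L) (ha : a ≠ 0) (α : Fin (2 * g + 1) → L) (hα : Function.Injective α)
    (hfα : f.map (algebraMap K L) = C a * ∏ j, (X - C (α j))) (i j k : Fin (2 * g + 1))
    (hij : i ≠ j) (hik : i ≠ k) (hjk : j ≠ k) :
    2 * ord (w.valuation L) (α i - α j) ≤ 2 * ord (w.valuation L) (α i - α k) +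
      (Ideal.ramificationIdx' v.asIdeal w.asIdeal : ℕ) *
        (discExp g f v + (4 * g + 4) * ord (v.valuation K) (2 : K)) := by
  obtain ⟨t, ht⟩ := exists_nonroot g f hf
  set T := algebraMap K L t with hTdef
  have hfd : f.natDegree ≤ 2 * g + 2 := by
    have := hf.2
    omega
  have hne : ∀ j, α j - T ≠ 0 := by
    have h1 : (f.map (algebraMap K L)).eval T ≠ 0 := by
      rw [eval_map_algebraMap, hTdef, aeval_algebraMap_apply]
      intro h
      apply ht
      have h2 := (algebraMap K L).injective (h.trans (map_zero (algebraMap K L)).symm)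
      simpa using h2
    rw [hfα, eval_mul, eval_prod] at h1
    have h2 := right_ne_zero_of_mul h1
    rw [Finset.prod_ne_zero_iff] at h2
    intro j hj
    apply h2 j (Finset.mem_univ j)
    rw [eval_sub, eval_X, eval_C]
    rw [← neg_sub, hj, neg_zero]
  set s : Fin (2 * g + 1) → L := fun j => (α j - T)⁻¹ with hs
  set β : Fin (2 * g + 1 + 1) → L := Fin.cons 0 s with hβ
  have hfac : (flip g t f).map (algebraMap K L) =
      C (a * ∏ j, (T - α j)) * ∏ j : Fin (2 * g + 1 + 1), (X - C (β j)) := by
    rw [A3_map_flip]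
    exact A3_factor g _ a α hfα T hne
  have ha' : a * ∏ j, (T - α j) ≠ 0 := by
    refine mul_ne_zero ha (Finset.prod_ne_zero_iff.2 fun j _ => ?_)
    rw [← neg_sub]
    exact neg_ne_zero.2 (hne j)
  have hβinj : Function.Injective β := by
    rw [hβ, Fin.cons_injective_iff]
    constructor
    · rintro ⟨j, hj⟩
      exact inv_ne_zero (hne j) hj
    · intro j k h
      apply hα
      have h1 : (α j - T)⁻¹ = (α k - T)⁻¹ := h
      have h2 := inv_injective h1
      linear_combination h2
  have key := cross_bound g hg (flip g t f) (flip_hyper g hg t f hf) v w _ ha' β hβinj hfac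
    i.succ j.succ k.succ 0 (fun h => hij (Fin.succ_injective _ h))
    (fun h => hik (Fin.succ_injective _ h)) (Fin.succ_ne_zero _)
    (fun h => hjk (Fin.succ_injective _ h)) (Fin.succ_ne_zero _) (Fin.succ_ne_zero _)
  rw [discExp_flip g t f hfd v] at key
  set c : L := -((α i - T)⁻¹ * (α j - T)⁻¹ * (α k - T)⁻¹) with hc
  have hc0 : c ≠ 0 := neg_ne_zero.2 (mul_ne_zero (mul_ne_zero (inv_ne_zero (hne i))
    (inv_ne_zero (hne j))) (inv_ne_zero (hne k)))
  have e1 : (β i.succ - β j.succ) * (β k.succ - β 0) = (α i - α j) * c := by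
    rw [hβ, Fin.cons_succ, Fin.cons_succ, Fin.cons_succ, Fin.cons_zero, hs, hc]
    have h1 := hne i
    have h2 := hne j
    have h3 := hne k
    field_simp
    ring
  have e2 : (β i.succ - β k.succ) * (β j.succ - β 0) = (α i - α k) * c := by
    rw [hβ, Fin.cons_succ, Fin.cons_succ, Fin.cons_succ, Fin.cons_zero, hs, hc]
    have h1 := hne i
    have h2 := hne j
    have h3 := hne k
    field_simp
    ring
  rw [e1, e2, ord_mul (sub_ne_zero.2 fun h => hij (hα h)) hc0,
    ord_mul (sub_ne_zero.2 fun h => hik (hα h)) hc0] at key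
  linarith

end Pool.Agent.Lib.MP_ca2859_nt.GR
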