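import Pool.Agent.Lib.MP_ca2859_nt.GR.Hub

set_option autoImplicit false

/-!
# F3: upper bound of the minimal discriminant by the denominator of `j`
-/

open Polynomial WithZero IsDedekindDomain NumberField

namespace Pool.Agent.Lib.MP_ca2859_nt.GR

section ell
variable {F : Type*} [Field F]

private lemma F3_num (v : Valuation F ℤᵐ⁰) (n : ℕ) : v (n : F) ≤ 1 :=
  natCast_mem v.integer n

/-- the scaling exponent -/
private lemma F3_scale (v : Valuation F ℤᵐ⁰) (A B : F) (h : ¬ (A = 0 ∧ B = 0)) :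
    ∃ s : ℤ, (A = 0 ∨ 4 * s ≤ ord v A) ∧ (B = 0 ∨ 6 * s ≤ ord v B) ∧
      ¬ ((A = 0 ∨ 4 * s + 4 ≤ ord v A) ∧ (B = 0 ∨ 6 * s + 6 ≤ ord v B)) := by
  by_cases hA : A = 0
  · have hB : B ≠ 0 := fun hB => h ⟨hA, hB⟩
    refine ⟨ord v B / 6, Or.inl hA, Or.inr (by omega), ?_⟩
    rintro ⟨_, h2 | h2⟩
    · exact hB h2
    · omega
  · by_cases hB : B = 0
    · refine ⟨ord v A / 4, Or.inr (by omega), Or.inl hB, ?_⟩
      rintro ⟨h2 | h2, _⟩
      · exact hA h2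
      · omega
    · refine ⟨min (ord v A / 4) (ord v B / 6), Or.inr (by omega), Or.inr (by omega), ?_⟩
      rintro ⟨h2 | h2, h3 | h3⟩
      · exact hA h2
      · exact hA h2
      · exact hB h3
      · omega

/-- invariance of `c₄ ^ 3 / Δ` -/
private lemma F3_inv (v : Valuation F ℤᵐ⁰) (W : WeierstrassCurve F) (hW : W.Δ ≠ 0) (J : ℤ)
    (h : W.c₄ = 0 ∨ ord v W.Δ - 3 * ord v W.c₄ ≤ J) (C : WeierstrassCurve.VariableChange F) :
    (C • W).Δ ≠ 0 ∧ ((C • W).c₄ = 0 ∨ ord v (C • W).Δ - 3 * ord v (C • W).c₄ ≤ J) := by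
  have hu : ((C.u⁻¹ : Fˣ) : F) ≠ 0 := Units.ne_zero _
  rw [WeierstrassCurve.variableChange_Δ, WeierstrassCurve.variableChange_c₄]
  refine ⟨mul_ne_zero (pow_ne_zero _ hu) hW, ?_⟩
  by_cases hc : W.c₄ = 0
  · left
    rw [hc, mul_zero]
  · right
    have h1 := h.resolve_left hc
    rw [ord_mul (pow_ne_zero _ hu) hW, ord_mul (pow_ne_zero _ hu) hc, ord_pow, ord_pow]
    push_cast
    linarith

variable [CharZero F]

/-- the bound for an equation which is minimal among the short ones -/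
private lemma F3_core (v : Valuation F ℤᵐ⁰) (W : WeierstrassCurve F) [W.IsShortNF]
    (hW : W.Δ ≠ 0) (J : ℤ) (hJ : 0 ≤ J) (h : W.c₄ = 0 ∨ ord v W.Δ - 3 * ord v W.c₄ ≤ J)
    (hm : ¬ ((W.a₄ = 0 ∨ 4 ≤ ord v W.a₄) ∧ (W.a₆ = 0 ∨ 6 ≤ ord v W.a₆))) :
    ord v W.Δ ≤ J + 20 + 40 * (ord v (2 : F) + ord v (3 : F)) := by
  have h2 : 0 ≤ ord v (2 : F) := ord_nonneg (by exact_mod_cast F3_num v 2)
  have h3 : 0 ≤ ord v (3 : F) := ord_nonneg (by exact_mod_cast F3_num v 3)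
  have o16 : ord v (-16 : F) = 4 * ord v (2 : F) := by
    have : (-16 : F) = -(2 ^ 4) := by norm_num
    rw [this, ord, Valuation.map_neg, ← ord, ord_pow]
    norm_num
  have o48 : ord v (-48 : F) = 4 * ord v (2 : F) + ord v (3 : F) := by
    have : (-48 : F) = -(2 ^ 4 * 3) := by norm_num
    rw [this, ord, Valuation.map_neg, ← ord, ord_mul (by norm_num) (by norm_num), ord_pow]
    norm_num
  have o4 : ord v (4 : F) = 2 * ord v (2 : F) := by
    have : (4 : F) = 2 ^ 2 := by norm_num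
    rw [this, ord_pow]
    norm_num
  have o27 : ord v (27 : F) = 3 * ord v (3 : F) := by
    have : (27 : F) = 3 ^ 3 := by norm_num
    rw [this, ord_pow]
    norm_num
  have hΔ := W.Δ_of_isShortNF
  have hc := W.c₄_of_isShortNF
  have hs : 4 * W.a₄ ^ 3 + 27 * W.a₆ ^ 2 ≠ 0 := by
    intro h0
    rw [hΔ, h0, mul_zero] at hW
    exact hW rfl
  have hd : ord v W.Δ = 4 * ord v (2 : F) + ord v (4 * W.a₄ ^ 3 + 27 * W.a₆ ^ 2) := by
    rw [hΔ, ord_mul (by norm_num) hs, o16]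
  by_cases hA : W.a₄ = 0
  · have hB : W.a₆ ≠ 0 := by
      intro hB
      apply hs
      rw [hA, hB]
      ring
    have hB6 : ord v W.a₆ ≤ 5 := by
      by_contra hlt
      exact hm ⟨Or.inl hA, Or.inr (by omega)⟩
    have h4 : ord v (4 * W.a₄ ^ 3 + 27 * W.a₆ ^ 2) = 3 * ord v (3 : F) + 2 * ord v W.a₆ := by
      rw [hA, zero_pow three_ne_zero, mul_zero, zero_add, ord_mul (by norm_num) (pow_ne_zero _ hB),
        o27, ord_pow]
      norm_num
    rw [hd, h4]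
    linarith
  · have hc0 : W.c₄ ≠ 0 := by
      rw [hc]
      exact mul_ne_zero (by norm_num) hA
    have h1 := h.resolve_left hc0
    have hc4 : ord v W.c₄ = 4 * ord v (2 : F) + ord v (3 : F) + ord v W.a₄ := by
      rw [hc, ord_mul (by norm_num) hA, o48]
    rw [hc4] at h1
    by_cases hα : ord v W.a₄ ≤ 3
    · linarith
    · have hB : W.a₆ ≠ 0 := fun hB => hm ⟨Or.inr (by omega), Or.inl hB⟩
      have hB6 : ord v W.a₆ ≤ 5 := by
        by_contra hlt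
        exact hm ⟨Or.inr (by omega), Or.inr (by omega)⟩
      have o1 : ord v (4 * W.a₄ ^ 3) = 2 * ord v (2 : F) + 3 * ord v W.a₄ := by
        rw [ord_mul (by norm_num) (pow_ne_zero _ hA), o4, ord_pow]
        norm_num
      have o2 : ord v (27 * W.a₆ ^ 2) = 3 * ord v (3 : F) + 2 * ord v W.a₆ := by
        rw [ord_mul (by norm_num) (pow_ne_zero _ hB), o27, ord_pow]
        norm_num
      have hx : 4 * W.a₄ ^ 3 ≠ 0 := mul_ne_zero (by norm_num) (pow_ne_zero _ hA)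
      have hy : 27 * W.a₆ ^ 2 ≠ 0 := mul_ne_zero (by norm_num) (pow_ne_zero _ hB)
      by_cases hlt : ord v (27 * W.a₆ ^ 2) < ord v (4 * W.a₄ ^ 3)
      · have h5 : v (4 * W.a₄ ^ 3) < v (27 * W.a₆ ^ 2) := by
          rw [w_eq_exp hx, w_eq_exp hy, exp_lt_exp]
          linarith
        have h6 : ord v (4 * W.a₄ ^ 3 + 27 * W.a₆ ^ 2) = ord v (27 * W.a₆ ^ 2) := by
          rw [ord, Valuation.map_add_eq_of_lt_right v h5, ← ord]
        rw [hd, h6, o2]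
        linarith
      · rw [o1, o2] at hlt
        linarith

/-- F3: upper bound by the denominator of `j`. -/
theorem minDiscExpE_le_j (v : Valuation F ℤᵐ⁰) (π : F) (hπ : v π = exp (-1 : ℤ))
    (W : WeierstrassCurve F) (hW : W.Δ ≠ 0) (J : ℤ) (hJ : 0 ≤ J)
    (h : W.c₄ = 0 ∨ ord v W.Δ - 3 * ord v W.c₄ ≤ J) :
    (minDiscExpE v W : ℤ) ≤ J + 20 + 40 * (ord v (2 : F) + ord v (3 : F)) := by
  have hπ0 : π ≠ 0 := by
    rintro rfl
    rw [map_zero] at hπ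
    exact absurd hπ.symm (by simp)
  have hoπ : ord v π = 1 := by
    rw [ord, hπ, log_exp, neg_neg]
  let _ : Invertible (2 : F) := invertibleOfNonzero two_ne_zero
  let _ : Invertible (3 : F) := invertibleOfNonzero three_ne_zero
  obtain ⟨C₁, hC₁⟩ := W.exists_variableChange_isShortNF
  obtain ⟨hΔ₁, h₁⟩ := F3_inv v W hW J h C₁
  have hAB : ¬ ((C₁ • W).a₄ = 0 ∧ (C₁ • W).a₆ = 0) := by
    rintro ⟨hA, hB⟩
    apply hΔ₁
    rw [(C₁ • W).Δ_of_isShortNF, hA, hB]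
    ring
  obtain ⟨s, hsA, hsB, hsm⟩ := F3_scale v _ _ hAB
  set u : Fˣ := Units.mk0 (π ^ s) (zpow_ne_zero _ hπ0) with hu
  set C₂ : WeierstrassCurve.VariableChange F := ⟨u, 0, 0, 0⟩ with hC₂
  have hui : ((u⁻¹ : Fˣ) : F) = π ^ (-s) := by
    rw [Units.val_inv_eq_inv_val, hu, Units.val_mk0, zpow_neg]
  have ha₁ : (C₂ • (C₁ • W)).a₁ = 0 := by
    rw [WeierstrassCurve.variableChange_a₁, (C₁ • W).a₁_of_isShortNF]
    simp [hC₂]
  have ha₂ : (C₂ • (C₁ • W)).a₂ = 0 := by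
    rw [WeierstrassCurve.variableChange_a₂, (C₁ • W).a₂_of_isShortNF]
    simp [hC₂]
  have ha₃ : (C₂ • (C₁ • W)).a₃ = 0 := by
    rw [WeierstrassCurve.variableChange_a₃, (C₁ • W).a₃_of_isShortNF]
    simp [hC₂]
  have ha₄ : (C₂ • (C₁ • W)).a₄ = (π ^ (-s)) ^ 4 * (C₁ • W).a₄ := by
    rw [WeierstrassCurve.variableChange_a₄, ← hui]
    simp [hC₂]
  have ha₆ : (C₂ • (C₁ • W)).a₆ = (π ^ (-s)) ^ 6 * (C₁ • W).a₆ := by
    rw [WeierstrassCurve.variableChange_a₆, ← hui]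
    simp [hC₂]
  have hnf : (C₂ • (C₁ • W)).IsShortNF := ⟨ha₁, ha₂, ha₃⟩
  obtain ⟨hΔ₂, h₂⟩ := F3_inv v _ hΔ₁ J h₁ C₂
  have hps : (π ^ (-s) : F) ≠ 0 := zpow_ne_zero _ hπ0
  have hz4 : (C₂ • (C₁ • W)).a₄ = 0 ↔ (C₁ • W).a₄ = 0 := by
    rw [ha₄, mul_eq_zero, or_iff_right (pow_ne_zero _ hps)]
  have hz6 : (C₂ • (C₁ • W)).a₆ = 0 ↔ (C₁ • W).a₆ = 0 := by
    rw [ha₆, mul_eq_zero, or_iff_right (pow_ne_zero _ hps)]
  have ho4 : (C₁ • W).a₄ ≠ 0 → ord v (C₂ • (C₁ • W)).a₄ = ord v (C₁ • W).a₄ - 4 * s := by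
    intro h0
    rw [ha₄, ord_mul (pow_ne_zero _ hps) h0, ord_pow, ord_zpow, hoπ]
    push_cast
    ring
  have ho6 : (C₁ • W).a₆ ≠ 0 → ord v (C₂ • (C₁ • W)).a₆ = ord v (C₁ • W).a₆ - 6 * s := by
    intro h0
    rw [ha₆, ord_mul (pow_ne_zero _ hps) h0, ord_pow, ord_zpow, hoπ]
    push_cast
    ring
  have hle : ∀ x : F, (x = 0 ∨ 0 ≤ ord v x) → v x ≤ 1 := by
    intro x hx
    by_cases h0 : x = 0
    · rw [h0, map_zero]
      exact zero_le_one
    · rw [← exp_zero, le_exp_iff h0]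
      simpa using hx.resolve_left h0
  have hi4 : v (C₂ • (C₁ • W)).a₄ ≤ 1 := by
    apply hle
    by_cases h0 : (C₁ • W).a₄ = 0
    · exact Or.inl (hz4.2 h0)
    · right
      rw [ho4 h0]
      have := hsA.resolve_left h0
      linarith
  have hi6 : v (C₂ • (C₁ • W)).a₆ ≤ 1 := by
    apply hle
    by_cases h0 : (C₁ • W).a₆ = 0
    · exact Or.inl (hz6.2 h0)
    · right
      rw [ho6 h0]
      have := hsB.resolve_left h0
      linarith
  have hm : ¬ (((C₂ • (C₁ • W)).a₄ = 0 ∨ 4 ≤ ord v (C₂ • (C₁ • W)).a₄) ∧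
      ((C₂ • (C₁ • W)).a₆ = 0 ∨ 6 ≤ ord v (C₂ • (C₁ • W)).a₆)) := by
    rintro ⟨g4, g6⟩
    apply hsm
    constructor
    · by_cases h0 : (C₁ • W).a₄ = 0
      · exact Or.inl h0
      · right
        have := g4.resolve_left (fun h => h0 (hz4.1 h))
        rw [ho4 h0] at this
        linarith
    · by_cases h0 : (C₁ • W).a₆ = 0
      · exact Or.inl h0
      · right
        have := g6.resolve_left (fun h => h0 (hz6.1 h))
        rw [ho6 h0] at this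
        linarith
  have hfin := F3_core v (C₂ • (C₁ • W)) hΔ₂ J hJ h₂ hm
  have hΔint : v (C₂ • (C₁ • W)).Δ ≤ 1 := by
    rw [(C₂ • (C₁ • W)).Δ_of_isShortNF]
    have e4 : (C₂ • (C₁ • W)).a₄ ∈ v.integer := hi4
    have e6 : (C₂ • (C₁ • W)).a₆ ∈ v.integer := hi6
    have : -16 * (4 * (C₂ • (C₁ • W)).a₄ ^ 3 + 27 * (C₂ • (C₁ • W)).a₆ ^ 2) ∈ v.integer :=
      mul_mem (neg_mem (ofNat_mem _ 16)) (add_mem (mul_mem (ofNat_mem _ 4) (pow_mem e4 3))
        (mul_mem (ofNat_mem _ 27) (pow_mem e6 2)))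
    exact this
  have hn : 0 ≤ ord v (C₂ • (C₁ • W)).Δ := ord_nonneg hΔint
  have hmem : minDiscExpE v W ≤ (ord v (C₂ • (C₁ • W)).Δ).toNat := by
    apply Nat.sInf_le
    refine ⟨C₂ * C₁, ?_, ?_⟩
    · rw [mul_smul]
      refine ⟨?_, ?_, ?_, hi4, hi6⟩
      · rw [ha₁, map_zero]; exact zero_le_one
      · rw [ha₂, map_zero]; exact zero_le_one
      · rw [ha₃, map_zero]; exact zero_le_one
    · rw [mul_smul, Int.toNat_of_nonneg hn, w_eq_exp hΔ₂]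
  have : (minDiscExpE v W : ℤ) ≤ ord v (C₂ • (C₁ • W)).Δ := by
    have h7 : ((ord v (C₂ • (C₁ • W)).Δ).toNat : ℤ) = ord v (C₂ • (C₁ • W)).Δ :=
      Int.toNat_of_nonneg hn
    rw [← h7]
    exact_mod_cast hmem
  exact this.trans hfin

end ell

end Pool.Agent.Lib.MP_ca2859_nt.GR
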