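import Mathlib
import Pool.Agent.Lib.MP_ca2859_nt.GR.Hub
import Pool.Agent.Lib.MP_ca2859_nt.GR.A3
import Pool.Agent.Lib.MP_ca2859_nt.GR.F3
import Pool.Agent.Lib.MP_ca2859_nt.GR.F6

/-!
# F7: the minimal discriminant of an elliptic curve and of the double cover of its 2-torsion
-/

open Polynomial WithZero IsDedekindDomain NumberField

set_option autoImplicit false

namespace Pool.Agent.Lib.MP_ca2859_nt.GR

/-- the exponents of `λ`, `1 - λ` and `λ² - λ + 1` -/
private theorem F7_lam {L : Type*} [Field L] (w : Valuation L ℤᵐ⁰) (l : L) (h0 : l ≠ 0)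
    (h2 : l ^ 2 - l + 1 ≠ 0) :
    2 * ord w l + 2 * ord w (1 - l) - 3 * ord w (l ^ 2 - l + 1) ≤
      2 * (|ord w l| + |ord w (1 - l)|) := by
  have a1 := le_abs_self (ord w l)
  have a2 := le_abs_self (ord w (1 - l))
  have a3 := neg_abs_le (ord w l)
  have a4 := neg_abs_le (ord w (1 - l))
  rcases le_or_gt (w l) 1 with hl | hl
  · have h3 : w (l ^ 2 - l + 1) ≤ 1 := by
      refine le_trans (w.map_add _ _) (max_le (le_trans (w.map_sub _ _) (max_le ?_ hl)) ?_)
      · rw [map_pow]; exact pow_le_one' hl 2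
      · rw [map_one]
    have h4 := ord_nonneg (w := w) h3
    linarith
  · have h5 : w (1 - l) = w l := by
      rw [Valuation.map_sub_swap]
      apply Valuation.map_sub_eq_of_lt_left
      rw [map_one]; exact hl
    have h6 : w (l ^ 2 - l + 1) ≤ w l ^ 2 := by
      have h7 : w l ≤ w l ^ 2 := by
        rw [sq]; exact le_mul_of_one_le_left' hl.le
      refine le_trans (w.map_add _ _) (max_le (le_trans (w.map_sub _ _) (max_le ?_ h7)) ?_)
      · rw [map_pow]
      · rw [map_one]; exact le_trans hl.le h7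
    have h8 : ord w (1 - l) = ord w l := by rw [ord, ord, h5]
    have h9 : 2 * ord w l ≤ ord w (l ^ 2 - l + 1) := by
      rw [w_eq_exp h0, ← exp_nsmul, le_exp_iff h2] at h6
      simp only [smul_neg, neg_neg, nsmul_eq_mul] at h6
      exact_mod_cast h6
    rw [h8] at a2 a4 ⊢
    linarith

section nf
variable {K : Type} [Field K] [NumberField K] {L : Type} [Field L] [NumberField L] [Algebra K L]

/-- the exponent above -/
private theorem F7_ord (v : HeightOneSpectrum (𝓞 K)) (w : HeightOneSpectrum (𝓞 L))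
    [w.asIdeal.LiesOver v.asIdeal] (x : K) : ord (w.valuation L) (algebraMap K L x) =
      (Ideal.ramificationIdx' v.asIdeal w.asIdeal : ℕ) * ord (v.valuation K) x := by
  rw [ord, ord, ← HeightOneSpectrum.valuation_liesOver L v w x, log_pow, nsmul_eq_mul]
  ring

end nf

/-- the identities -/
private theorem F7_id {L : Type*} [Field L] [CharZero L] (b2 b4 b6 b8 c4 D : L) (x y z : L)
    (hb2 : b2 = -4 * (x + y + z)) (hb4 : 2 * b4 = 4 * (x * y + x * z + y * z))
    (hb6 : b6 = -4 * (x * y * z)) (hb8 : 4 * b8 = b2 * b6 - b4 ^ 2)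
    (hc4 : c4 = b2 ^ 2 - 24 * b4)
    (hD : D = -b2 ^ 2 * b8 - 8 * b4 ^ 3 - 27 * b6 ^ 2 + 9 * b2 * b4 * b6)
    (hxy : y - x ≠ 0) :
    c4 = 2 ^ 4 * ((y - x) ^ 2 * (((z - x) / (y - x)) ^ 2 - (z - x) / (y - x) + 1)) ∧
    D = 2 ^ 4 * ((y - x) ^ 6 * (((z - x) / (y - x)) ^ 2 * (1 - (z - x) / (y - x)) ^ 2)) := by
  have h4 : b4 = 2 * (x * y + x * z + y * z) := by
    have h2 : (2 : L) ≠ 0 := two_ne_zero
    apply mul_left_cancel₀ h2
    rw [hb4]; ring
  have h8 : b8 = (b2 * b6 - b4 ^ 2) / 4 := by
    have h2 : (4 : L) ≠ 0 := by norm_num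
    field_simp
    linear_combination hb8
  constructor
  · rw [hc4, hb2, h4]
    field_simp
    ring
  · rw [hD, h8, hb2, h4, hb6]
    field_simp
    ring

section nf
variable {K : Type} [Field K] [NumberField K]

/-- F7 -/
theorem discE_le_disc (W : WeierstrassCurve K) (hW : W.Δ ≠ 0) (v : HeightOneSpectrum (𝓞 K)) :
    (discExpE W v : ℤ) ≤ 2 * discExp 1 W.twoTorsionPolynomial.toPoly v + 20 +
      60 * (ord (v.valuation K) (2 : K) + ord (v.valuation K) (3 : K)) := by
  obtain ⟨hf, -⟩ := two_torsion_hyper W hW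
  set f := W.twoTorsionPolynomial.toPoly with hfdef
  have ha4 : W.twoTorsionPolynomial.a ≠ 0 := by
    change (4 : K) ≠ 0
    norm_num
  have hfd : f.natDegree = 2 * 1 + 1 := Cubic.natDegree_of_a_ne_zero ha4
  obtain ⟨w, hw⟩ := exists_place_above (K := K) (L := spl f) v
  obtain ⟨α, hα⟩ := split_enum (f.map (algebraMap K (spl f))) (IsSplittingField.splits (spl f) f)
    (2 * 1 + 1) (by rw [natDegree_map]; exact hfd)
  set a := (f.map (algebraMap K (spl f))).leadingCoeff with ha
  have ha0 : a ≠ 0 := by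
    rw [ha, leadingCoeff_ne_zero, Ne, Polynomial.map_eq_zero]
    intro h0
    rw [h0] at hfd
    simp at hfd
  have hinj : Function.Injective α := by
    have hsep : (f.map (algebraMap K (spl f))).Separable := hf.1.map
    rw [hα] at hsep
    have h1 : (∏ j, (X - C (α j)) : (spl f)[X]).Separable := hsep.of_mul_right
    exact separable_prod_X_sub_C_iff.1 h1
  set e := Ideal.ramificationIdx' v.asIdeal w.asIdeal with he'
  have he0 : 0 < e := Nat.pos_of_ne_zero
    (Ideal.IsDedekindDomain.ramificationIdx'_ne_zero_of_liesOver w.asIdeal v.ne_bot)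
  have hcb := fun (i j k : Fin (2 * 1 + 1)) (hij : i ≠ j) (hik : i ≠ k) (hjk : j ≠ k) =>
    cross_bound_infty 1 le_rfl f hf v w a ha0 α hinj hα i j k hij hik hjk
  set n : ℤ := (discExp 1 f v : ℤ) + (4 * (1 : ℕ) + 4) * ord (v.valuation K) (2 : K) with hn
  have h2nn : 0 ≤ ord (v.valuation K) (2 : K) := by
    have := natCast_le_one (v.valuation K) 2
    exact ord_nonneg (by exact_mod_cast this)
  have h3nn : 0 ≤ ord (v.valuation K) (3 : K) := by
    have := natCast_le_one (v.valuation K) 3
    exact ord_nonneg (by exact_mod_cast this)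
  have hn0 : 0 ≤ n := by
    rw [hn]
    have : (0 : ℤ) ≤ (discExp 1 f v : ℤ) := Int.natCast_nonneg _
    push_cast
    linarith
  -- the three roots
  set x := α 0 with hx
  set y := α 1 with hy
  set z := α 2 with hz
  have hxy : y - x ≠ 0 := sub_ne_zero.2 (fun h => by simpa using hinj h)
  have hxz : z - x ≠ 0 := sub_ne_zero.2 (fun h => by simpa using hinj h)
  have hyz : y - z ≠ 0 := sub_ne_zero.2 (fun h => by simpa using hinj h)
  set l := (z - x) / (y - x) with hl
  have hl1 : 1 - l = (y - z) / (y - x) := by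
    rw [hl]; field_simp; ring
  have hl0 : l ≠ 0 := div_ne_zero hxz hxy
  have hl10 : 1 - l ≠ 0 := by rw [hl1]; exact div_ne_zero hyz hxy
  have hneg : ∀ s t : spl f, ord (w.valuation (spl f)) (s - t) = ord (w.valuation (spl f)) (t - s) := by
    intro s t
    rw [ord, ord, Valuation.map_sub_swap]
  have hordl : ord (w.valuation (spl f)) l =
      ord (w.valuation (spl f)) (z - x) - ord (w.valuation (spl f)) (y - x) := by
    rw [hl, ord_div hxz hxy]
  have hordl1 : ord (w.valuation (spl f)) (1 - l) =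
      ord (w.valuation (spl f)) (y - z) - ord (w.valuation (spl f)) (y - x) := by
    rw [hl1, ord_div hyz hxy]
  have b1 : 2 * |ord (w.valuation (spl f)) l| ≤ e * n := by
    have c1 := hcb 0 1 2 (by decide) (by decide) (by decide)
    have c2 := hcb 0 2 1 (by decide) (by decide) (by decide)
    rw [hneg (α 0) (α 1), hneg (α 0) (α 2)] at c1 c2
    rw [hordl]
    rcases abs_cases (ord (w.valuation (spl f)) (z - x) - ord (w.valuation (spl f)) (y - x))
      with ⟨h1, h2⟩ | ⟨h1, h2⟩
    · rw [h1]; linarith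
    · rw [h1]; linarith
  have b2 : 2 * |ord (w.valuation (spl f)) (1 - l)| ≤ e * n := by
    have c1 := hcb 1 0 2 (by decide) (by decide) (by decide)
    have c2 := hcb 1 2 0 (by decide) (by decide) (by decide)
    rw [hordl1]
    rcases abs_cases (ord (w.valuation (spl f)) (y - z) - ord (w.valuation (spl f)) (y - x))
      with ⟨h1, h2⟩ | ⟨h1, h2⟩
    · rw [h1]; linarith
    · rw [h1]; linarith
  -- the coefficients
  have hmap : f.map (algebraMap K (spl f)) = C (algebraMap K (spl f) 4) * X ^ 3 +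
      C (algebraMap K (spl f) W.b₂) * X ^ 2 + C (algebraMap K (spl f) (2 * W.b₄)) * X +
      C (algebraMap K (spl f) W.b₆) := by
    rw [hfdef, Cubic.toPoly]
    simp only [Polynomial.map_add, Polynomial.map_mul, Polynomial.map_pow, map_X, map_C]
    rfl
  have hsplit : f.map (algebraMap K (spl f)) = C a * ((X - C x) * (X - C y) * (X - C z)) := by
    rw [hα, Fin.prod_univ_three]
  have hexp : C a * ((X - C x) * (X - C y) * (X - C z)) = C a * X ^ 3 +
      C (-a * (x + y + z)) * X ^ 2 + C (a * (x * y + x * z + y * z)) * X +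
      C (-a * (x * y * z)) := by
    simp only [map_mul, map_add, map_neg]
    ring
  have hpoly := hmap.symm.trans (hsplit.trans hexp)
  have k3 := congrArg (fun p => p.coeff 3) hpoly
  have k2 := congrArg (fun p => p.coeff 2) hpoly
  have k1 := congrArg (fun p => p.coeff 1) hpoly
  have k0 := congrArg (fun p => p.coeff 0) hpoly
  simp only [coeff_add, coeff_C_mul, coeff_X_pow, coeff_X, coeff_C, map_ofNat] at k0 k1 k2 k3
  norm_num at k0 k1 k2 k3
  have m2 : algebraMap K (spl f) 2 = 2 := map_ofNat _ 2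
  have m4 : algebraMap K (spl f) 4 = 4 := map_ofNat _ 4
  have m8 : algebraMap K (spl f) 8 = 8 := map_ofNat _ 8
  have m9 : algebraMap K (spl f) 9 = 9 := map_ofNat _ 9
  have m24 : algebraMap K (spl f) 24 = 24 := map_ofNat _ 24
  have m27 : algebraMap K (spl f) 27 = 27 := map_ofNat _ 27
  have hid := F7_id (algebraMap K (spl f) W.b₂) (algebraMap K (spl f) W.b₄)
    (algebraMap K (spl f) W.b₆) (algebraMap K (spl f) W.b₈) (algebraMap K (spl f) W.c₄)
    (algebraMap K (spl f) W.Δ) x y z (by rw [k2, ← k3]; ring) (by rw [← m2, k1, ← k3])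
    (by rw [k0, ← k3]; ring) (by
      have := congrArg (algebraMap K (spl f)) W.b_relation
      rw [map_mul, map_sub, map_mul, map_pow, m4] at this
      exact this) (by rw [WeierstrassCurve.c₄, map_sub, map_pow, map_mul, m24]) (by
      rw [WeierstrassCurve.Δ]
      simp only [map_add, map_sub, map_mul, map_pow, map_neg, m8, m27, m9]) hxy
  obtain ⟨hc4, hD⟩ := hid
  rw [← hl] at hc4 hD
  obtain ⟨π, hπ⟩ := v.valuation_exists_uniformizer K
  have hJ : W.c₄ = 0 ∨ ord (v.valuation K) W.Δ - 3 * ord (v.valuation K) W.c₄ ≤ 2 * n := by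
    by_cases hc0 : W.c₄ = 0
    · exact Or.inl hc0
    right
    have hc0' : algebraMap K (spl f) W.c₄ ≠ 0 := by rwa [Ne, map_eq_zero]
    have hq : l ^ 2 - l + 1 ≠ 0 := by
      intro h
      rw [hc4, h] at hc0'
      simp at hc0'
    have o1 : ord (w.valuation (spl f)) (algebraMap K (spl f) W.c₄) =
        4 * ord (w.valuation (spl f)) 2 + (2 * ord (w.valuation (spl f)) (y - x) +
          ord (w.valuation (spl f)) (l ^ 2 - l + 1)) := by
      rw [hc4, ord_mul (pow_ne_zero _ two_ne_zero) (mul_ne_zero (pow_ne_zero _ hxy) hq), ord_pow,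
        ord_mul (pow_ne_zero _ hxy) hq, ord_pow]
      push_cast
      ring
    have o2 : ord (w.valuation (spl f)) (algebraMap K (spl f) W.Δ) =
        4 * ord (w.valuation (spl f)) 2 + (6 * ord (w.valuation (spl f)) (y - x) +
          (2 * ord (w.valuation (spl f)) l + 2 * ord (w.valuation (spl f)) (1 - l))) := by
      rw [hD, ord_mul (pow_ne_zero _ two_ne_zero) (mul_ne_zero (pow_ne_zero _ hxy)
        (mul_ne_zero (pow_ne_zero _ hl0) (pow_ne_zero _ hl10))), ord_pow,
        ord_mul (pow_ne_zero _ hxy) (mul_ne_zero (pow_ne_zero _ hl0) (pow_ne_zero _ hl10)), ord_pow,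
        ord_mul (pow_ne_zero _ hl0) (pow_ne_zero _ hl10), ord_pow, ord_pow]
      push_cast
      ring
    have h2w : 0 ≤ ord (w.valuation (spl f)) (2 : spl f) := by
      have := natCast_le_one (w.valuation (spl f)) 2
      exact ord_nonneg (by exact_mod_cast this)
    have o3 := F7_lam (w.valuation (spl f)) l hl0 hq
    rw [F7_ord v w] at o1 o2
    rw [← he'] at o1 o2
    have he1 : (0 : ℤ) < e := by exact_mod_cast he0
    have o4 : (e : ℤ) * (ord (v.valuation K) W.Δ - 3 * ord (v.valuation K) W.c₄) ≤ e * (2 * n) := by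
      have : (e : ℤ) * (ord (v.valuation K) W.Δ - 3 * ord (v.valuation K) W.c₄) =
        e * ord (v.valuation K) W.Δ - 3 * (e * ord (v.valuation K) W.c₄) := by ring
      rw [this, o1, o2]
      linarith
    exact le_of_mul_le_mul_left o4 he1
  have hfin := minDiscExpE_le_j (v.valuation K) π hπ W hW (2 * n) (by linarith) hJ
  have hdE : discExpE W v = minDiscExpE (v.valuation K) W := rfl
  rw [hdE]
  rw [hn] at hfin
  push_cast at hfin
  linarith

end nf

end Pool.Agent.Lib.MP_ca2859_nt.GR
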