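import Mathlib
import Pool.Agent.Lib.MP_ca2859_nt.GR.Fin
import Pool.Agent.Lib.MP_ca2859_nt.GR.F5
import Pool.Agent.Lib.MP_ca2859_nt.GR.F6
import Pool.Agent.Lib.MP_ca2859_nt.GR.F7

set_option autoImplicit false

open Polynomial WithZero IsDedekindDomain NumberField

namespace Pool.Agent.Lib.MP_ca2859_nt.GR

theorem pow_le_of_le (c D d : ℕ) (hc : 1 ≤ c) (h : d ≤ D) : c ^ d ≤ c ^ D :=
  Nat.pow_le_pow_right hc h

theorem ord2 {K : Type} [Field K] [NumberField K] (v : HeightOneSpectrum (𝓞 K)) (k : ℕ) :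
    ord (v.valuation K) ((2 ^ k : ℕ) : K) = k * ord (v.valuation K) (2 : K) := by
  push_cast
  rw [ord_pow]

/-- T3 -/
theorem szpiro_of_hyper (D κ : ℕ) (h : HyperUniform 1 D κ) : SzpiroUniform D (20 + 2 * κ) := by
  obtain ⟨c, hc⟩ := h
  refine ⟨c ^ 2 * (6 ^ 60) ^ D, ?_⟩
  intro K _ _ hK W hW
  obtain ⟨hf, hle⟩ := two_torsion_hyper W hW
  set f := W.twoTorsionPolynomial.toPoly with hfdef
  have hfinE := finite_badE W hW
  have hfin := finite_bad 1 f hf
  have h1 : DeltaE W ≤ DeltaC 1 f ^ 2 * ME W ^ 20 * (6 ^ 60) ^ Module.finrank ℚ K := by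
    rw [DeltaE_eq_PP, DeltaC_eq_PP, ME_eq_PR]
    apply PP_le_rad _ hfinE _ hfin 2 20 (6 ^ 60) (by positivity)
    intro v _
    have h2 := discE_le_disc W hW v
    have h6 : ord (v.valuation K) ((6 ^ 60 : ℕ) : K) =
        60 * (ord (v.valuation K) (2 : K) + ord (v.valuation K) (3 : K)) := by
      rw [Nat.cast_pow, ord_pow, show ((6 : ℕ) : K) = 2 * 3 by norm_num,
        ord_mul two_ne_zero three_ne_zero]
      norm_num
    rw [h6]
    push_cast
    linarith
  have h2 : MC 1 f ≤ ME W := by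
    rw [MC_eq_PR, ME_eq_PR]
    have := PR_le (fun v => discExp 1 f v) hfin (fun v => discExpE W v) hfinE 1 one_pos (by
      intro v hv hv'
      exfalso
      have := hle v
      omega)
    simpa using this
  have h3 := hc K hK f hf
  have hd := one_le_discr K
  have hME : 1 ≤ ME W := by rw [ME_eq_PR]; exact PR_pos _ hfinE
  set d := (discr K).natAbs with hdd
  calc DeltaE W ≤ DeltaC 1 f ^ 2 * ME W ^ 20 * (6 ^ 60) ^ Module.finrank ℚ K := h1
    _ ≤ (c * (d * ME W) ^ κ) ^ 2 * (d * ME W) ^ 20 * (6 ^ 60) ^ D := by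
        refine Nat.mul_le_mul (Nat.mul_le_mul (Nat.pow_le_pow_left ?_ _)
          (Nat.pow_le_pow_left ?_ _)) (Nat.pow_le_pow_right (by norm_num) hK)
        · exact h3.trans (Nat.mul_le_mul_left _ (Nat.pow_le_pow_left (Nat.mul_le_mul_left _ h2) _))
        · exact Nat.le_mul_of_pos_left _ hd
    _ = c ^ 2 * (6 ^ 60) ^ D * (d * ME W) ^ (20 + 2 * κ) := by
        rw [mul_pow, pow_add, ← pow_mul, mul_comm κ 2]
        generalize (6 ^ 60) ^ D = z
        ring

/-- T4 -/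
theorem lam_of_szpiro (D κ : ℕ) (h : SzpiroUniform D κ) : LamUniform D κ := by
  obtain ⟨c, hc⟩ := h
  refine ⟨c * (2 ^ D) ^ κ * (2 ^ 8) ^ D, ?_⟩
  intro K _ _ hK x h0 h1
  have hW : (Leg x).Δ ≠ 0 := by
    obtain ⟨v⟩ : Nonempty (HeightOneSpectrum (𝓞 K)) := by
      obtain ⟨v, _⟩ := exists_above_prime (K := K) 2 Nat.prime_two
      exact ⟨v⟩
    exact (leg_local x h0 h1 v).1
  have hfinE := finite_badE (Leg x) hW
  have hfin := lamE_finite x h0 h1
  have e1 : HL x ≤ DeltaE (Leg x) ^ 1 * (2 ^ 8) ^ Module.finrank ℚ K := by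
    rw [HL_eq_PP, DeltaE_eq_PP]
    apply PP_le _ hfin _ hfinE 1 (2 ^ 8) (by norm_num)
    intro v _
    have h2 := (leg_local x h0 h1 v).2.1
    rw [ord2]
    push_cast
    linarith
  have e2 : ME (Leg x) ≤ RL x * 2 ^ Module.finrank ℚ K := by
    rw [ME_eq_PR, RL_eq_PR]
    apply PR_le _ hfinE _ hfin 2 (by norm_num)
    intro v hv hv' hv2
    push_cast at hv2
    exact hv ((leg_local x h0 h1 v).2.2 hv' hv2)
  have e3 := hc K hK (Leg x) hW
  set d := (discr K).natAbs with hdd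
  rw [pow_one] at e1
  calc HL x ≤ DeltaE (Leg x) * (2 ^ 8) ^ Module.finrank ℚ K := e1
    _ ≤ (c * (d * (RL x * 2 ^ D)) ^ κ) * (2 ^ 8) ^ D := by
        refine Nat.mul_le_mul (e3.trans (Nat.mul_le_mul_left _ (Nat.pow_le_pow_left
          (Nat.mul_le_mul_left _ (e2.trans (Nat.mul_le_mul_left _ ?_))) _)))
          (Nat.pow_le_pow_right (by norm_num) hK)
        exact Nat.pow_le_pow_right (by norm_num) hK
    _ = c * (2 ^ D) ^ κ * (2 ^ 8) ^ D * (d * RL x) ^ κ := by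
        rw [← mul_assoc, mul_pow]
        generalize (2 ^ 8) ^ D = z
        ring

end Pool.Agent.Lib.MP_ca2859_nt.GR
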