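import Mathlib
import Pool.Agent.Lib.MP_ca2859_nt.GR.Fin
import Pool.Agent.Lib.MP_ca2859_nt.GR.E2
import Pool.Agent.Lib.MP_ca2859_nt.GR.E3
import Pool.Agent.Lib.MP_ca2859_nt.GR.T2
import Pool.Agent.Lib.MP_ca2859_nt.GR.T34

set_option autoImplicit false

open Polynomial WithZero IsDedekindDomain NumberField

namespace Pool.Agent.Lib.MP_ca2859_nt.GR

theorem card_Quad_le (n : ℕ) : (Quad n).card ≤ n ^ 4 := by
  refine (Finset.card_filter_le _ _).trans ?_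
  rw [Finset.card_univ]
  simp only [Fintype.card_prod, Fintype.card_fin]
  exact le_of_eq (by ring)

section
variable {K : Type} [Field K] [NumberField K]

theorem prod_B0_le (g : ℕ) : ∏ v ∈ B0 K g, Ideal.absNorm v.asIdeal ≤
    (2 * (2 * g + 2)) ^ Module.finrank ℚ K := by
  apply prod_dvd_le _ (by positivity)
  intro v hv h
  rw [B0, Set.Finite.mem_toFinset] at hv
  apply hv
  rw [Nat.cast_mul, ord_mul (by norm_num) (by rw [Nat.cast_ne_zero]; omega)] at h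
  have n1 := natCast_int_le (v.valuation K) 2
  have n2 := natCast_int_le (v.valuation K) (2 * g + 2)
  have o1 : ord (v.valuation K) ((2 : ℕ) : K) = 0 := by omega
  have o2 : ord (v.valuation K) ((2 * g + 2 : ℕ) : K) = 0 := by omega
  have u : ∀ y : K, y ≠ 0 → ord (v.valuation K) y = 0 → v.valuation K y = 1 := by
    intro y hy hy0
    rw [w_eq_exp hy, hy0, neg_zero, exp_zero]
  refine ⟨?_, u _ (by rw [Nat.cast_ne_zero]; omega) o2⟩
  have := u ((2 : ℕ) : K) (by norm_num) o1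
  simpa using this

end

/-- the exponent -/
def bb (g : ℕ) : ℕ := (4 * g + 3) ^ 2 * (8 * g * (2 * g + 1))

/-- arithmetic of T1 -/
theorem T1_arith (N D κ c X MC dK dL R P0 a C b q HLp Δ fK : ℕ) (hX : 1 ≤ X) (hMC : MC ≤ X)
    (hprod : dK * MC = X) (hC : 1 ≤ C) (hP0 : P0 ≤ (X * 0 + 1) * P0)
    (hfK : fK ≤ D)
    (hdL : dL ≤ ((N ^ fK * (MC * P0)) ^ N) * dK ^ N) (hR : R ≤ (MC * P0) ^ N)
    (hHL : HLp ≤ ((c + 1) * (dL * R + 1) ^ κ) ^ q)
    (hΔ : Δ ≤ MC ^ a * C ^ fK * HLp ^ b) (hN : 1 ≤ N) :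
    Δ ≤ (C ^ D * ((c + 1) * (N ^ (D * N) * P0 ^ (2 * N) + 1) ^ κ) ^ (q * b)) *
      X ^ ((a + 2 * N * q * b) * (κ + 1)) := by
  have h1 : dL * R + 1 ≤ (N ^ (D * N) * P0 ^ (2 * N) + 1) * X ^ (2 * N) := by
    have h2 : dL * R ≤ (((N ^ D * (MC * P0)) ^ N) * dK ^ N) * (MC * P0) ^ N := by
      refine Nat.mul_le_mul (hdL.trans ?_) hR
      exact Nat.mul_le_mul_right _ (Nat.pow_le_pow_left (Nat.mul_le_mul_right _
        (Nat.pow_le_pow_right hN hfK)) _)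
    have h3 : (((N ^ D * (MC * P0)) ^ N) * dK ^ N) * (MC * P0) ^ N =
        N ^ (D * N) * P0 ^ (2 * N) * ((dK * MC) ^ N * MC ^ N) := by
      rw [pow_mul N D N, two_mul, pow_add, mul_pow, mul_pow, mul_pow]
      ring
    have h4 : (dK * MC) ^ N * MC ^ N ≤ X ^ (2 * N) := by
      rw [hprod, two_mul, pow_add]
      exact Nat.mul_le_mul_left _ (Nat.pow_le_pow_left hMC _)
    have h5 : 1 ≤ X ^ (2 * N) := Nat.one_le_pow _ _ hX
    calc dL * R + 1 ≤ N ^ (D * N) * P0 ^ (2 * N) * ((dK * MC) ^ N * MC ^ N) + 1 := by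
          rw [← h3]; omega
      _ ≤ N ^ (D * N) * P0 ^ (2 * N) * X ^ (2 * N) + 1 * X ^ (2 * N) := by
          rw [one_mul]
          exact Nat.add_le_add (Nat.mul_le_mul_left _ h4) h5
      _ = _ := by ring
  have h6 : HLp ≤ ((c + 1) * (N ^ (D * N) * P0 ^ (2 * N) + 1) ^ κ) ^ q * X ^ (2 * N * κ * q) := by
    refine hHL.trans ((Nat.pow_le_pow_left (Nat.mul_le_mul_left _ (Nat.pow_le_pow_left h1 _)) _).trans
      (le_of_eq ?_))
    generalize N ^ (D * N) * P0 ^ (2 * N) + 1 = z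
    rw [mul_pow z, mul_pow, mul_pow, ← pow_mul, ← pow_mul, ← pow_mul, mul_pow, ← pow_mul]
    ring
  calc Δ ≤ MC ^ a * C ^ fK * HLp ^ b := hΔ
    _ ≤ X ^ a * C ^ D * (((c + 1) * (N ^ (D * N) * P0 ^ (2 * N) + 1) ^ κ) ^ q *
          X ^ (2 * N * κ * q)) ^ b :=
        Nat.mul_le_mul (Nat.mul_le_mul (Nat.pow_le_pow_left hMC _)
          (Nat.pow_le_pow_right hC hfK)) (Nat.pow_le_pow_left h6 _)
    _ = (C ^ D * ((c + 1) * (N ^ (D * N) * P0 ^ (2 * N) + 1) ^ κ) ^ (q * b)) *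
          X ^ (a + 2 * N * κ * q * b) := by
        generalize (c + 1) * (N ^ (D * N) * P0 ^ (2 * N) + 1) ^ κ = z
        rw [mul_pow, ← pow_mul, ← pow_mul, pow_add]
        ring
    _ ≤ _ := by
        apply Nat.mul_le_mul_left
        apply Nat.pow_le_pow_right hX
        nlinarith [Nat.zero_le (2 * N * q * b), Nat.zero_le (a * κ)]

/-- the constant -/
def cT1 (g D κ c : ℕ) : ℕ := (2 ^ ((4 * g + 3) ^ 2 * (4 * g)) * cst g) ^ D * ((c + 1) *
      (((2 * g + 2) ^ (2 * g + 2)) ^ (D * (2 * g + 2) ^ (2 * g + 2)) *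
        ((2 * (2 * g + 2)) ^ D) ^ (2 * (2 * g + 2) ^ (2 * g + 2)) + 1) ^ κ) ^
        ((2 * g + 2) ^ 4 * bb g)

/-- T1 for even degree -/
theorem T1_even (g : ℕ) (hg : 1 ≤ g) (D κ c : ℕ)
    (hc : ∀ (L : Type) [Field L] [NumberField L],
      Module.finrank ℚ L ≤ (2 * g + 2) ^ (2 * g + 2) * D →
      ∀ x : L, x ≠ 0 → x ≠ 1 → HL x ≤ c * ((discr L).natAbs * RL x) ^ κ)
    (K : Type) [Field K] [NumberField K] (hK : Module.finrank ℚ K ≤ D)
    (f : K[X]) (hf : IsHyperelliptic g f) (hfd : f.natDegree = 2 * g + 2) :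
    DeltaC g f ≤ cT1 g D κ c *
      ((discr K).natAbs * MC g f) ^ (((2 * g + 1) * (g + 3) +
        2 * (2 * g + 2) ^ (2 * g + 2) * (2 * g + 2) ^ 4 * bb g) * (κ + 1)) := by
  have hfin := finite_bad g f hf
  have hMC1 : 1 ≤ MC g f := by rw [MC_eq_PR]; exact PR_pos _ hfin
  have hd1 := one_le_discr K
  obtain ⟨a, α, π, hdata⟩ := exists_rootData (L := spl f) (2 * g + 2) f hfd (by omega) hf.1
    (IsSplittingField.splits (spl f) f)
  have hgal : IsGalois K (spl f) := spl_galois f hf.1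
  obtain ⟨hN, hdL⟩ := spl_discr g hg f hf hfd (MC g f) le_rfl
  have hB0 : ∏ v ∈ B0 K g, Ideal.absNorm v.asIdeal ≤ (2 * (2 * g + 2)) ^ D :=
    (prod_B0_le (K := K) g).trans (Nat.pow_le_pow_right (by omega) hK)
  have hQL : Module.finrank ℚ (spl f) ≤ (2 * g + 2) ^ (2 * g + 2) * D := by
    have h1 := finrank_tower_le (K := K) (L := spl f) _ hN
    refine h1.trans ?_
    rw [mul_comm]
    exact Nat.mul_le_mul_left _ hK
  have hSB := prod_SB_le g f hf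
  have hR : ∀ q ∈ Quad (2 * g + 2), HL (crr α q) ≤ (c + 1) * ((discr (spl f)).natAbs *
      (MC g f * (2 * (2 * g + 2)) ^ D) ^ ((2 * g + 2) ^ (2 * g + 2)) + 1) ^ κ := by
    intro q hq
    obtain ⟨q0, q1, q2⟩ := RL_cross_le g hg f hf hfd a hdata.a0 α hdata.inj hdata.split q hq
    refine (hc (spl f) hQL _ q0 q1).trans ?_
    refine Nat.mul_le_mul (Nat.le_succ _) (Nat.pow_le_pow_left ?_ _)
    refine le_trans (Nat.mul_le_mul_left _ (q2.trans ?_)) (Nat.le_succ _)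
    refine (Nat.pow_le_pow_left (hSB.trans (Nat.mul_le_mul_left _ hB0)) _).trans ?_
    exact Nat.pow_le_pow_right (Nat.mul_pos hMC1 (by positivity)) hN
  have hHL : ∏ q ∈ Quad (2 * g + 2), HL (crr α q) ≤ ((c + 1) * ((discr (spl f)).natAbs *
      (MC g f * (2 * (2 * g + 2)) ^ D) ^ ((2 * g + 2) ^ (2 * g + 2)) + 1) ^ κ) ^
        ((2 * g + 2) ^ 4) := by
    refine (Finset.prod_le_prod' hR).trans ?_
    rw [Finset.prod_const]
    exact Nat.pow_le_pow_right (Nat.mul_pos (by omega) (Nat.pos_of_ne_zero (by positivity)))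
      (card_Quad_le _)
  have hΔ := Delta_le_HL g hg f hf hfd a hdata.a0 α hdata.inj hdata.split
  refine T1_arith ((2 * g + 2) ^ (2 * g + 2)) D κ c ((discr K).natAbs * MC g f) (MC g f)
    (discr K).natAbs (discr (spl f)).natAbs ((MC g f * (2 * (2 * g + 2)) ^ D) ^
      ((2 * g + 2) ^ (2 * g + 2))) ((2 * (2 * g + 2)) ^ D) ((2 * g + 1) * (g + 3))
    (2 ^ ((4 * g + 3) ^ 2 * (4 * g)) * cst g) (bb g) ((2 * g + 2) ^ 4) _ (DeltaC g f)
    (Module.finrank ℚ K) (Nat.mul_pos hd1 hMC1) (Nat.le_mul_of_pos_left _ hd1) rfl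
    (Nat.mul_pos (by positivity) (cst_pos g hg)) (by simp) hK ?_ le_rfl hHL hΔ
    (Nat.one_le_pow _ _ (by omega))
  refine hdL.trans (Nat.mul_le_mul_right _ (Nat.pow_le_pow_left (Nat.mul_le_mul_left _
    (Nat.mul_le_mul_left _ hB0)) _))

/-- T1 -/
theorem hyper_of_lam (g : ℕ) (hg : 1 ≤ g) : ∃ A : ℕ, ∀ D κ : ℕ,
    LamUniform ((2 * g + 2) ^ (2 * g + 2) * D) κ → HyperUniform g D (A * (κ + 1)) := by
  refine ⟨(2 * g + 1) * (g + 3) + 2 * (2 * g + 2) ^ (2 * g + 2) * (2 * g + 2) ^ 4 * bb g, ?_⟩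
  rintro D κ ⟨c, hc⟩
  refine ⟨cT1 g D κ c, fun K _ _ hK f hf => ?_⟩
  obtain ⟨t, ht⟩ := exists_nonroot g f hf
  have hle : f.natDegree ≤ 2 * g + 2 := by have := hf.2; omega
  have := T1_even g hg D κ c hc K hK (flip g t f) (flip_hyper g hg t f hf)
    (flip_natDegree g t f hle ht)
  rw [DeltaC_flip g t f hle, MC_flip g t f hle] at this
  exact this

theorem LamUniform.mono {D D' κ : ℕ} (h : D ≤ D') (h1 : LamUniform D' κ) : LamUniform D κ := by
  obtain ⟨c, hc⟩ := h1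
  exact ⟨c, fun K _ _ hK => hc K (hK.trans h)⟩

theorem HyperUniform.mono {g D κ κ' : ℕ} (h : κ ≤ κ') (h1 : HyperUniform g D κ) :
    HyperUniform g D κ' := by
  obtain ⟨c, hc⟩ := h1
  refine ⟨c, fun K _ _ hK f hf => (hc K hK f hf).trans (Nat.mul_le_mul_left _
    (Nat.pow_le_pow_right ?_ h))⟩
  exact Nat.mul_pos (one_le_discr K) (by rw [MC_eq_PR]; exact PR_pos _ (finite_bad g f hf))

theorem SzpiroUniform.mono {D κ κ' : ℕ} (h : κ ≤ κ') (h1 : SzpiroUniform D κ) :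
    SzpiroUniform D κ' := by
  obtain ⟨c, hc⟩ := h1
  refine ⟨c, fun K _ _ hK W hW => (hc K hK W hW).trans (Nat.mul_le_mul_left _
    (Nat.pow_le_pow_right ?_ h))⟩
  exact Nat.mul_pos (one_le_discr K) (by rw [ME_eq_PR]; exact PR_pos _ (finite_badE W hW))

/-- the main theorem -/
theorem main (g : ℕ) (hg : 1 ≤ g) : ∃ A : ℕ, ∀ D κ : ℕ,
    (SzpiroUniform (A * D) κ → HyperUniform g D (A * (κ + 1))) ∧
    (HyperUniform g (A * D) κ → SzpiroUniform D (A * (κ + 1))) := by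
  obtain ⟨A₁, h₁⟩ := hyper_of_lam g hg
  obtain ⟨A₂, h₂⟩ := hyper_of_lam 1 le_rfl
  refine ⟨(2 * g + 2) ^ (2 * g + 2) + A₁ + 256 + 20 + 2 * A₂ * (g + 1), fun D κ => ⟨?_, ?_⟩⟩
  · intro h
    have h3 := lam_of_szpiro _ _ h
    have h4 := LamUniform.mono (D := (2 * g + 2) ^ (2 * g + 2) * D)
      (Nat.mul_le_mul_right _ (by omega)) h3
    exact HyperUniform.mono (Nat.mul_le_mul_right _ (by omega)) (h₁ D κ h4)
  · intro h
    have h3 := lam_of_hyper g hg _ _ h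
    have h4 := LamUniform.mono (D := (2 * 1 + 2) ^ (2 * 1 + 2) * D)
      (Nat.mul_le_mul_right _ (by norm_num; omega)) h3
    have h5 := szpiro_of_hyper _ _ (h₂ D _ h4)
    refine SzpiroUniform.mono ?_ h5
    have e1 : 20 + 2 * (A₂ * ((g + 1) * κ + 1)) ≤ (20 + 2 * A₂ * (g + 1)) * (κ + 1) := by
      nlinarith [Nat.zero_le (A₂ * g), Nat.zero_le κ, Nat.zero_le (A₂ * g * κ)]
    refine e1.trans (Nat.mul_le_mul_right _ (by omega))

end Pool.Agent.Lib.MP_ca2859_nt.GR
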